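import Mathlib

set_option autoImplicit false
open Finset

namespace Pool.Agent.Lib.helper1.Flip

variable {n : ℕ}

def Geo (K : Finset (Fin n) → Prop) : Set (Fin n → ℝ) :=
  {x | (∀ i, 0 ≤ x i) ∧ ∑ i, x i = 1 ∧ ∃ σ, K σ ∧ ∀ i, i ∉ σ → x i = 0}

noncomputable def mv (A B : Finset (Fin n)) (hA : A.Nonempty) (x : Fin n → ℝ) : Fin n → ℝ :=
  fun i => x i - (if i ∈ A then A.inf' hA x else 0) +
    if i ∈ B then (A.card : ℝ) / B.card * A.inf' hA x else 0

theorem mv_cont (A B : Finset (Fin n)) (hA : A.Nonempty) : Continuous (mv A B hA) := by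
  have : Continuous fun x : Fin n → ℝ => A.inf' hA x :=
    Continuous.finset_inf'_apply hA fun i _ => continuous_apply i
  refine continuous_pi fun i => ?_
  unfold mv
  split_ifs <;> fun_prop

structure Fl (K K' : Finset (Fin n) → Prop) (A B : Finset (Fin n)) : Prop where
  h1 : ∀ F, K F → ¬ B ⊆ F
  h3 : ∀ F, K F → ¬ A ⊆ F → K' F
  h5 : ∀ F, K F → A ⊆ F → ∀ a ∈ A, K' ((F ∪ B).erase a)

theorem inf0 {A F : Finset (Fin n)} (hA : A.Nonempty) {x : Fin n → ℝ} (h0 : ∀ i, 0 ≤ x i)
    (h : ¬ A ⊆ F) (hx : ∀ i, i ∉ F → x i = 0) : A.inf' hA x = 0 := by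
  obtain ⟨a, ha, hb⟩ := not_subset.1 h
  exact le_antisymm ((inf'_le x ha).trans (hx a hb).le) (le_inf' _ _ fun i _ => h0 i)

theorem maps {K K' : Finset (Fin n) → Prop} {A B : Finset (Fin n)} (hA : A.Nonempty)
    (hB : B.Nonempty) (d : Disjoint A B) (h : Fl K K' A B) {x : Fin n → ℝ} (hx : x ∈ Geo K) :
    mv A B hA x ∈ Geo K' ∧ mv B A hB (mv A B hA x) = x := by
  obtain ⟨x0, x1, F, hF, x2⟩ := hx
  have m0 : 0 ≤ A.inf' hA x := le_inf' _ _ fun i _ => x0 i
  have a0 : (0 : ℝ) < A.card := by exact_mod_cast hA.card_pos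
  have b0 : (0 : ℝ) < B.card := by exact_mod_cast hB.card_pos
  have d1 : ∀ i ∈ B, i ∉ A := fun i hi h => Finset.disjoint_left.1 d h hi
  refine ⟨⟨fun i => ?_, ?_, ?_⟩, ?_⟩
  · have := x0 i
    have := mul_nonneg (div_pos a0 b0).le m0
    unfold mv
    split_ifs with p q
    · exact absurd p (d1 i q)
    · linarith [inf'_le x p]
    · linarith
    · linarith
  · simp only [mv, sum_add_distrib, sum_sub_distrib, x1, sum_ite_mem, univ_inter, sum_const,
      nsmul_eq_mul]
    field_simp
    ring
  · by_cases c : A ⊆ F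
    · obtain ⟨a, ha, e⟩ := exists_mem_eq_inf' hA x
      refine ⟨_, h.h5 F hF c a ha, fun i hi => ?_⟩
      by_cases p : i = a
      · subst p
        simp [mv, ha, Finset.disjoint_left.1 d ha, e]
      · simp only [mem_erase, mem_union, not_and, not_or] at hi
        have := hi p
        simp [mv, this.2, x2 i this.1, show i ∉ A from fun q => this.1 (c q)]
    · exact ⟨F, h.h3 F hF c, fun i hi => by simp [mv, inf0 hA x0 c x2, x2 i hi]⟩
  · have e : B.inf' hB (mv A B hA x) = A.card / B.card * A.inf' hA x := by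
      obtain ⟨b, hb, hc⟩ := not_subset.1 (h.h1 F hF)
      refine le_antisymm ((inf'_le _ hb).trans ?_) (le_inf' _ _ fun i hi => ?_)
      · simp [mv, hb, d1 b hb, x2 b hc]
      · simp [mv, hi, d1 i hi, x0 i]
    ext i
    rw [mv, e, mv]
    have : (B.card : ℝ) / A.card * (A.card / B.card * A.inf' hA x) = A.inf' hA x := by field_simp
    rw [this]
    ring

theorem flip {K K' : Finset (Fin n) → Prop} {A B : Finset (Fin n)} (hA : A.Nonempty)
    (hB : B.Nonempty) (d : Disjoint A B) (h : Fl K K' A B) (h' : Fl K' K B A) :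
    Nonempty (Geo K ≃ₜ Geo K') :=
  ⟨{ toFun := fun x => ⟨_, (maps hA hB d h x.2).1⟩
     invFun := fun x => ⟨_, (maps hB hA d.symm h' x.2).1⟩
     left_inv := fun x => Subtype.ext (maps hA hB d h x.2).2
     right_inv := fun x => Subtype.ext (maps hB hA d.symm h' x.2).2
     continuous_toFun := ((mv_cont _ _ _).comp continuous_subtype_val).subtype_mk _
     continuous_invFun := ((mv_cont _ _ _).comp continuous_subtype_val).subtype_mk _ }⟩

theorem geo_congr {K K' : Finset (Fin n) → Prop} (h : ∀ σ, K σ → ∃ τ, K' τ ∧ σ ⊆ τ)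
    (h' : ∀ σ, K' σ → ∃ τ, K τ ∧ σ ⊆ τ) : Geo K = Geo K' := by
  ext x
  constructor
  · rintro ⟨a, b, σ, c, d⟩
    obtain ⟨τ, e, f⟩ := h σ c
    exact ⟨a, b, τ, e, fun i hi => d i fun g => hi (f g)⟩
  · rintro ⟨a, b, σ, c, d⟩
    obtain ⟨τ, e, f⟩ := h' σ c
    exact ⟨a, b, τ, e, fun i hi => d i fun g => hi (f g)⟩

theorem ball (d : ℕ) (e : Fin (d + 1) → Fin n) (he : Function.Injective e) :
    Nonempty (Geo (fun σ => σ = univ.image e) ≃ₜ
      Metric.closedBall (0 : EuclideanSpace ℝ (Fin d)) 1) := by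
  let T : Set (EuclideanSpace ℝ (Fin d)) := {y | (∀ i, 0 ≤ y i) ∧ ∑ i, y i ≤ 1}
  have hs : ∀ x : Fin n → ℝ, (∀ i, i ∉ univ.image e → x i = 0) → ∑ i, x i = ∑ j, x (e j) := by
    intro x h
    rw [← sum_image (s := univ) (f := x) fun a _ b _ h => he h]
    exact (sum_subset (subset_univ _) fun i _ hi => h i hi).symm
  let c : EuclideanSpace ℝ (Fin d) → Fin (d + 1) → ℝ := fun y => Fin.cons (1 - ∑ i, y i) y
  let g : EuclideanSpace ℝ (Fin d) → Fin n → ℝ := fun y i => ∑ j, if e j = i then c y j else 0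
  have g1 : ∀ y j, g y (e j) = c y j := fun y j => by simp [g, he.eq_iff]
  have g2 : ∀ y i, i ∉ univ.image e → g y i = 0 := fun y i h =>
    sum_eq_zero fun j _ => if_neg fun q => h (mem_image.2 ⟨j, mem_univ _, q⟩)
  have h1 : Geo (fun σ => σ = univ.image e) ≃ₜ T :=
    { toFun := fun x => ⟨WithLp.toLp 2 fun i => x.1 (e i.succ), fun i => x.2.1 _, by
        obtain ⟨x, x0, x1, _, rfl, x2⟩ := x
        rw [hs x x2, Fin.sum_univ_succ] at x1
        linarith [x0 (e 0)]⟩
      invFun := fun y => ⟨g y.1, fun i => sum_nonneg fun j _ => by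
          split_ifs
          · refine Fin.cases ?_ (fun k => y.2.1 k) j
            exact sub_nonneg.2 y.2.2
          · rfl, by
          rw [hs _ (g2 _)]
          simp [g1, c, Fin.sum_univ_succ], _, rfl, g2 _⟩
      left_inv := by
        rintro ⟨x, x0, x1, _, rfl, x2⟩
        ext i
        by_cases h : i ∈ univ.image e
        · obtain ⟨j, -, rfl⟩ := mem_image.1 h
          rw [hs x x2, Fin.sum_univ_succ] at x1
          simp only [g1]
          refine Fin.cases ?_ (fun k => rfl) j
          simp only [c, Fin.cons_zero]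
          linarith
        · simp only [g2 _ i h, x2 i h]
      right_inv := fun y => by
        ext i
        simp [g1, c]
      continuous_toFun := by
        refine Continuous.subtype_mk ?_ _
        refine (PiLp.continuous_toLp 2 _).comp (continuous_pi fun i => ?_)
        exact (continuous_apply (e i.succ)).comp continuous_subtype_val
      continuous_invFun := by
        refine Continuous.subtype_mk (continuous_pi fun i => continuous_finsetSum _ fun j _ => ?_) _
        split_ifs
        · refine Fin.cases ?_ (fun k => ?_) j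
          · simp only [c, Fin.cons_zero]
            fun_prop
          · simp only [c, Fin.cons_succ]
            fun_prop
        · fun_prop }
  have cv : Convex ℝ T := by
    intro x hx y hy a b ha hb hab
    refine ⟨fun i => add_nonneg (mul_nonneg ha (hx.1 i)) (mul_nonneg hb (hy.1 i)), ?_⟩
    simp only [PiLp.add_apply, PiLp.smul_apply, smul_eq_mul, sum_add_distrib, ← mul_sum]
    nlinarith [hx.2, hy.2]
  have cl : IsClosed T := by
    have a : IsClosed {y : EuclideanSpace ℝ (Fin d) | ∀ i, 0 ≤ y i} := by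
      rw [Set.ofPred_forall]
      exact isClosed_iInter fun i => isClosed_le (by fun_prop) (by fun_prop)
    have b : IsClosed {y : EuclideanSpace ℝ (Fin d) | ∑ i, y i ≤ 1} :=
      isClosed_le (by fun_prop) (by fun_prop)
    exact a.inter b
  have ne : (interior T).Nonempty := by
    have o : IsOpen {y : EuclideanSpace ℝ (Fin d) | (∀ i, 0 < y i) ∧ ∑ i, y i < 1} := by
      have a : IsOpen {y : EuclideanSpace ℝ (Fin d) | ∀ i, 0 < y i} := by
        rw [Set.ofPred_forall]
        exact isOpen_iInter_of_finite fun i => isOpen_lt (by fun_prop) (by fun_prop)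
      have b : IsOpen {y : EuclideanSpace ℝ (Fin d) | ∑ i, y i < 1} :=
        isOpen_lt (by fun_prop) (by fun_prop)
      exact a.inter b
    refine ⟨WithLp.toLp 2 fun _ => 1 / (d + 1 : ℝ), interior_maximal (t := {y | _})
      (fun y h => show y ∈ T from ⟨fun i => (h.1 i).le, h.2.le⟩) o ⟨fun i => by positivity, ?_⟩⟩
    simp only [sum_const, card_univ, Fintype.card_fin, nsmul_eq_mul]
    rw [mul_one_div, div_lt_one (by positivity)]
    linarith
  have bd : Bornology.IsBounded T := by
    refine (Metric.isBounded_closedBall (x := 0) (r := 1)).subset fun y h => ?_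
    rw [mem_closedBall_zero_iff, EuclideanSpace.norm_eq, Real.sqrt_le_one]
    refine le_trans (sum_le_sum fun i _ => ?_) h.2
    have := (single_le_sum (fun i _ => h.1 i) (mem_univ i)).trans h.2
    rw [Real.norm_eq_abs, sq_abs]
    nlinarith [h.1 i]
  obtain ⟨φ, -, h2, -⟩ := exists_homeomorph_image_interior_closure_frontier_eq_unitBall cv ne bd
  rw [cl.closure_eq] at h2
  exact ⟨h1.trans ((φ.image T).trans (Homeomorph.setCongr h2))⟩

end Pool.Agent.Lib.helper1.Flip
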