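import Mathlib
import Pool.Agent.Lib.helper1.Flip

set_option autoImplicit false
open Finset

namespace Pool.Agent.Lib.helper1.Mask
open Pool.Agent.Lib.helper1.Flip

def f (n m : ℕ) : Finset (Fin n) := univ.filter fun i => m.testBit i

variable {n : ℕ}

theorem mem_f {m : ℕ} {i : Fin n} : i ∈ f n m ↔ m.testBit i := by simp [f]

theorem f_and (a b : ℕ) : f n (a &&& b) = f n a ∩ f n b := by
  ext i
  simp [mem_f]

theorem f_or (a b : ℕ) : f n (a ||| b) = f n a ∪ f n b := by
  ext i
  simp [mem_f]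

theorem f_pow (a : Fin n) : f n (2 ^ a.val) = {a} := by
  ext i
  simp [mem_f, Nat.testBit_two_pow, Fin.ext_iff, eq_comm]

theorem f_inj {a b : ℕ} (ha : a < 2 ^ n) (hb : b < 2 ^ n) (h : f n a = f n b) : a = b := by
  refine Nat.eq_of_testBit_eq fun i => ?_
  by_cases c : i < n
  · have := congrArg (⟨i, c⟩ ∈ ·) h
    simpa [mem_f] using this
  · have := Nat.pow_le_pow_right (n := 2) (by norm_num) (not_lt.1 c)
    rw [Nat.testBit_lt_two_pow (by omega), Nat.testBit_lt_two_pow (by omega)]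

theorem f_surj (σ : Finset (Fin n)) : ∃ m < 2 ^ n, f n m = σ := by
  have : (range (2 ^ n)).image (f n) = univ := by
    refine eq_univ_of_card _ ?_
    rw [card_image_of_injOn fun a ha b hb h => f_inj (by simpa using ha) (by simpa using hb) h]
    simp
  obtain ⟨a, h1, h2⟩ := mem_image.1 (this.ge (mem_univ σ))
  exact ⟨a, mem_range.1 h1, h2⟩

def sub (a b : ℕ) : Bool := Nat.beq (Nat.land a b) a

theorem sub_f {a b : ℕ} (h : sub a b = true) : f n a ⊆ f n b := by
  have e : a &&& b = a := Nat.eq_of_beq_eq_true h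
  rw [← e, f_and]
  exact inter_subset_right

theorem f_sub {a b : ℕ} (ha : a < 2 ^ n) (h : f n a ⊆ f n b) : sub a b = true := by
  rw [sub, Nat.beq_eq]
  exact f_inj (a := a &&& b) (Nat.and_le_left.trans_lt ha) ha (by rw [f_and, inter_eq_left.2 h])

theorem f_ne {a : ℕ} (ha : a < 2 ^ n) (h : a ≠ 0) : (f n a).Nonempty := by
  rw [nonempty_iff_ne_empty]
  intro e
  exact h (f_inj ha (by positivity) (by rw [e]; ext; simp [mem_f]))

def pc (n m : ℕ) : ℕ := (List.range n).countP m.testBit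

theorem card_f (m : ℕ) : (f n m).card = pc n m := by
  rw [f, card_filter, Fin.sum_univ_eq_sum_range (fun i => if m.testBit i then 1 else 0), pc,
    ← card_filter, List.countP_eq_length_filter, ← List.toFinset_card_of_nodup
      (List.nodup_range.filter _), List.toFinset_filter, List.toFinset_range]

def Cx (n : ℕ) (l : List ℕ) (σ : Finset (Fin n)) : Prop := ∃ m ∈ l, σ ⊆ f n m

def okFl (n : ℕ) (l l' : List ℕ) (A B : ℕ) : Bool :=
  l.all fun m => !sub B m && bif sub A m then (List.range n).all fun a => !A.testBit a ||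
    l'.any fun m' => sub (m ||| B) (m' ||| 2 ^ a) && !m'.testBit a else l'.any (Nat.beq m)

theorem ok_fl {l l' : List ℕ} {A B : ℕ} (hA : A < 2 ^ n) (hB : B < 2 ^ n)
    (h : okFl n l l' A B = true) : Fl (Cx n l) (Cx n l') (f n A) (f n B) := by
  simp only [okFl, List.all_eq_true, Bool.and_eq_true, Bool.not_eq_true'] at h
  have k : ∀ m ∈ l, sub A m = true → ∀ a ∈ f n A, Cx n l' ((f n m ∪ f n B).erase a) := by
    intro m hm s a ha
    have := (h m hm).2
    simp only [s, cond_true, List.all_eq_true, List.mem_range, Bool.or_eq_true, List.any_eq_true,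
      Bool.and_eq_true, Bool.not_eq_true'] at this
    rcases this a a.2 with c | ⟨m', c, d, -⟩
    · simp [mem_f, c] at ha
    · refine ⟨m', c, fun i hi => ?_⟩
      have := sub_f (n := n) d (f_or m B ▸ (mem_erase.1 hi).2)
      rw [f_or, f_pow] at this
      simpa [(mem_erase.1 hi).1] using this
  refine ⟨?_, ?_, ?_⟩
  · rintro F ⟨m, hm, s⟩ c
    simpa [f_sub hB (c.trans s)] using (h m hm).1
  · rintro F ⟨m, hm, s⟩ c
    by_cases d : sub A m = true
    · obtain ⟨a, ha, hb⟩ := not_subset.1 c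
      obtain ⟨m', e, g⟩ := k m hm d a ha
      exact ⟨m', e, fun i hi => g (mem_erase.2 ⟨fun x => hb (x ▸ hi), mem_union_left _ (s hi)⟩)⟩
    · have := (h m hm).2
      simp only [Bool.not_eq_true] at d
      simp only [d, cond_false, List.any_eq_true, Nat.beq_eq] at this
      obtain ⟨_, e, rfl⟩ := this
      exact ⟨m, e, s⟩
  · rintro F ⟨m, hm, s⟩ c a ha
    obtain ⟨m', e, g⟩ := k m hm (f_sub hA (c.trans s)) a ha
    exact ⟨m', e, (erase_subset_erase _ (union_subset_union_left s)).trans g⟩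

def run (n z : ℕ) : List ℕ → List (ℕ × ℕ × List ℕ) → Bool
  | l, [] => l == [z]
  | l, p :: r => decide (p.1 < 2 ^ n ∧ p.2.1 < 2 ^ n ∧ p.1 ≠ 0 ∧ p.2.1 ≠ 0 ∧ p.1 &&& p.2.1 = 0) &&
      okFl n l p.2.2 p.1 p.2.1 && okFl n p.2.2 l p.2.1 p.1 && run n z p.2.2 r

theorem run_ball (d z : ℕ) (e : Fin (d + 1) → Fin n) (he : Function.Injective e)
    (hz : f n z = univ.image e) (r : List (ℕ × ℕ × List ℕ)) : ∀ l, run n z l r = true →
      Nonempty (Geo (Cx n l) ≃ₜ Metric.closedBall (0 : EuclideanSpace ℝ (Fin d)) 1) := by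
  induction r with
  | nil =>
    intro l h
    obtain rfl : l = [z] := by simpa [run] using h
    rw [geo_congr (K' := fun σ => σ = univ.image e) (by simp [Cx, hz])
      (by rintro _ rfl; exact ⟨_, ⟨z, by simp, hz.ge⟩, subset_rfl⟩)]
    exact ball d e he
  | cons p r ih =>
    intro l h
    simp only [run, Bool.and_eq_true, decide_eq_true_eq] at h
    obtain ⟨⟨⟨⟨a, b, c, d, e⟩, h1⟩, h2⟩, h3⟩ := h
    obtain ⟨φ⟩ := ih _ h3
    obtain ⟨ψ⟩ := flip (f_ne a c) (f_ne b d) (by
      rw [disjoint_iff_inter_eq_empty, ← f_and, e]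
      ext
      simp [mem_f]) (ok_fl a b h1) (ok_fl b a h2)
    exact ⟨ψ.trans φ⟩

open Classical in
noncomputable def cx (n : ℕ) (l : List ℕ) : Finset (Finset (Fin n)) := univ.filter (Cx n l)

theorem mem_cx {l : List ℕ} {σ : Finset (Fin n)} : σ ∈ cx n l ↔ Cx n l σ := by simp [cx]

inductive NE : Finset (Finset (Fin n)) → Prop
  | pt (v : Fin n) : NE {∅, {v}}
  | step (L : Finset (Finset (Fin n))) (v : Fin n) : {v} ∈ L → NE (L.filter fun σ => v ∉ σ) →
      NE (L.filter fun σ => v ∉ σ ∧ insert v σ ∈ L) → NE L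

theorem lk_sum (L : Finset (Finset (Fin n))) (h : ∀ σ ∈ L, ∀ τ ⊆ σ, τ ∈ L) (v : Fin n) :
    ∑ σ ∈ L with v ∈ σ, (-1 : ℤ) ^ σ.card =
      -∑ σ ∈ L with v ∉ σ ∧ insert v σ ∈ L, (-1 : ℤ) ^ σ.card := by
  rw [← sum_neg_distrib]
  symm
  refine sum_bij' (fun σ _ => insert v σ) (fun σ _ => σ.erase v) ?_ ?_ ?_ ?_ ?_
  · simp +contextual
  · intro σ hσ
    rw [mem_filter] at hσ ⊢
    exact ⟨h _ hσ.1 _ (erase_subset _ _), by simp, by rw [insert_erase hσ.2]; exact hσ.1⟩
  · intro σ hσ
    exact erase_insert (mem_filter.1 hσ).2.1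
  · intro σ hσ
    exact insert_erase (mem_filter.1 hσ).2
  · intro σ hσ
    rw [card_insert_of_notMem (mem_filter.1 hσ).2.1]
    ring

theorem chi {L : Finset (Finset (Fin n))} (h : NE L) : (∀ σ ∈ L, ∀ τ ⊆ σ, τ ∈ L) →
    ∑ σ ∈ L, (-1 : ℤ) ^ σ.card = 0 := by
  induction h with
  | pt v =>
    intro _
    rw [sum_pair (singleton_ne_empty v).symm]
    simp
  | step L v _ _ _ a b =>
    intro h
    rw [← sum_filter_add_sum_filter_not L (v ∈ ·), lk_sum L h, a, b]
    · simp
    · intro σ hσ τ s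
      rw [mem_filter] at hσ ⊢
      exact ⟨h _ hσ.1 _ s, fun x => hσ.2.1 (s x), h _ hσ.2.2 _ (insert_subset_insert _ s)⟩
    · intro σ hσ τ s
      rw [mem_filter] at hσ ⊢
      exact ⟨h _ hσ.1 _ s, fun x => hσ.2 (s x)⟩

def cnt (W : ℕ) : List ℕ → ℕ
  | [] => 0
  | t :: r => bif sub t W then (cnt W r).succ else cnt W r

def par (n : ℕ) (S : List ℕ) (v b : ℕ) : List ℕ :=
  S.filter fun t => t.testBit v && Nat.beq (pc n t % 2) b

theorem cnt_sum (S : List ℕ) (W v : ℕ) :
    (S.map fun t => if sub t W = true ∧ t.testBit v = true then (-1 : ℤ) ^ pc n t else 0).sum =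
      cnt W (par n S v 0) - cnt W (par n S v 1) := by
  induction S with
  | nil => simp [par, cnt]
  | cons t S ih =>
    rw [List.map_cons, List.sum_cons, ih]
    simp only [par, List.filter_cons]
    rcases Nat.mod_two_eq_zero_or_one (pc n t) with e | e <;>
      rw [neg_one_pow_eq_pow_mod_two, e] <;> cases h1 : t.testBit v <;> cases h2 : sub t W <;>
      simp [cnt, h2, Nat.beq] <;> ring

def okW (n : ℕ) (T : List (ℕ × List ℕ × List ℕ)) (Ws : List ℕ) (M : ℕ) : Bool :=
  Ws.all fun W => decide (2 ≤ pc n W) && T.all fun v => !W.testBit v.1 ||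
    M.testBit (W ^^^ 2 ^ v.1) || !Nat.beq (cnt W v.2.1) (cnt W v.2.2)

def big (l : List ℕ) : ℕ := l.foldr (fun a m => 2 ^ a ||| m) 0

theorem big_mem {a : ℕ} {l : List ℕ} (h : (big l).testBit a = true) : a ∈ l := by
  induction l with
  | nil => simp [big] at h
  | cons b l ih =>
    rw [big, List.foldr_cons, Nat.testBit_or, Bool.or_eq_true] at h
    rcases h with h | h
    · rw [Nat.testBit_two_pow] at h
      simp [← of_decide_eq_true h]
    · exact List.mem_cons_of_mem _ (ih h)

theorem evasive {l S : List ℕ} {T : List (ℕ × List ℕ × List ℕ)} {Ws : List ℕ} {M : ℕ}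
    (hS : S = (List.range (2 ^ n)).filter fun t => l.any (sub t))
    (hT : T = (List.range n).map fun v => (v, par n S v 0, par n S v 1)) (hM : M = big Ws)
    (hv : ∀ v : Fin n, Cx n l {v}) (h : okW n T Ws M = true) {L : Finset (Finset (Fin n))}
    (hL : NE L) : ∀ W ∈ Ws, L ≠ (cx n l).filter (· ⊆ f n W) := by
  simp only [okW, List.all_eq_true, Bool.and_eq_true, decide_eq_true_eq, List.mem_range,
    Bool.or_eq_true, Bool.not_eq_true', hT, List.forall_mem_map, hM] at h
  induction hL with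
  | pt v =>
    intro W hW e
    obtain ⟨a, ha, b, hb, c⟩ := one_lt_card.1 (card_f (n := n) W ▸ (h W hW).1)
    have k : ∀ a ∈ f n W, a = v := fun a ha => by
      have : {a} ∈ ({∅, {v}} : Finset (Finset (Fin n))) := by
        rw [e]
        simp [mem_cx, hv, ha]
      simpa using this
    exact c ((k a ha).trans (k b hb).symm)
  | step L v a _ c ih _ =>
    rintro W hW rfl
    have hvW : W.testBit v = true := by simpa [mem_f] using (mem_filter.1 a).2
    have cl : ∀ σ ∈ (cx n l).filter (· ⊆ f n W), ∀ τ ⊆ σ, τ ∈ (cx n l).filter (· ⊆ f n W) := by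
      intro σ hσ τ s
      simp only [mem_filter, mem_cx] at hσ ⊢
      obtain ⟨⟨m, x, y⟩, z⟩ := hσ
      exact ⟨⟨m, x, s.trans y⟩, s.trans z⟩
    rcases (h W hW).2 v v.2 with (x | x) | x
    · simp [x] at hvW
    · refine ih _ (big_mem x) ?_
      rw [filter_filter]
      refine filter_congr fun σ _ => ?_
      have : f n (W ^^^ 2 ^ v.val) = (f n W).erase v := by
        ext i
        by_cases e : i = v
        · simp [mem_f, e, hvW]
        · simp [mem_f, e, Nat.testBit_two_pow_of_ne (fun x => e (Fin.ext x).symm)]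
      rw [this, subset_erase]
    · apply Nat.ne_of_beq_eq_false x
      rw [← Nat.cast_inj (R := ℤ), ← sub_eq_zero, ← cnt_sum]
      have e := lk_sum _ cl v
      rw [chi c (fun σ hσ τ s => by
        rw [mem_filter] at hσ ⊢
        exact ⟨cl _ hσ.1 _ s, fun x => hσ.2.1 (s x), cl _ hσ.2.2 _ (insert_subset_insert _ s)⟩),
        neg_zero, filter_filter, sum_filter] at e
      refine Eq.trans ?_ e
      rw [hS, ← List.sum_toFinset _ (List.nodup_range.filter _),
        List.toFinset_filter, List.toFinset_range]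
      refine sum_bij (fun t _ => f n t) ?_ ?_ ?_ ?_
      · intro t ht
        simp only [mem_filter, List.any_eq_true] at ht
        obtain ⟨-, m, x, y⟩ := ht
        exact mem_cx.2 ⟨m, x, sub_f y⟩
      · intro a ha b hb
        exact f_inj (mem_range.1 (mem_filter.1 ha).1) (mem_range.1 (mem_filter.1 hb).1)
      · intro σ hσ
        obtain ⟨t, x, rfl⟩ := f_surj σ
        obtain ⟨m, y, z⟩ := mem_cx.1 hσ
        exact ⟨t, mem_filter.2 ⟨mem_range.2 x, List.any_eq_true.2 ⟨m, y, f_sub x z⟩⟩, rfl⟩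
      · intro t ht
        have x := mem_range.1 (mem_filter.1 ht).1
        have : f n t ⊆ f n W ↔ sub t W = true := ⟨f_sub x, sub_f⟩
        simp [this, mem_f, card_f]

end Pool.Agent.Lib.helper1.Mask
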