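import Mathlib
import Pool.Agent.Lib.helper1.Mask

set_option autoImplicit false
open Finset

namespace Pool.Agent.Lib.helper1.Hom
open Pool.Agent.Lib.helper1.Mask

variable {n : ℕ} {k : Type} [Field k]

/-- the orientation sign of inserting `j` into `G`. -/
def sg (k : Type) [Field k] (j : Fin n) (G : Finset (Fin n)) : k := (-1) ^ #{g ∈ G | g < j}

/-- the simplicial boundary operator on the augmented oriented chain complex. -/
def bd (c : Finset (Fin n) → k) (G : Finset (Fin n)) : k := ∑ j ∈ Gᶜ, sg k j G * c (insert j G)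

/-- chains supported on faces of `Δ` with `t` vertices. -/
def Supp (Δ : Finset (Fin n) → Prop) (t : ℕ) (c : Finset (Fin n) → k) : Prop :=
  ∀ F, c F ≠ 0 → Δ F ∧ #F = t

/-- all reduced homology groups vanish. -/
def Acyc (k : Type) [Field k] (Δ : Finset (Fin n) → Prop) : Prop :=
  ∀ t (c : Finset (Fin n) → k), Supp Δ t c → bd c = 0 → ∃ w, Supp Δ (t + 1) w ∧ bd w = c

lemma sg_sq (j : Fin n) (G : Finset (Fin n)) : sg k j G * sg k j G = 1 := by
  rw [sg, ← mul_pow, neg_one_mul, neg_neg, one_pow]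

lemma sg_ne (j : Fin n) (G : Finset (Fin n)) : sg k j G ≠ 0 := left_ne_zero_of_mul_eq_one (sg_sq j G)

lemma sg_swap {j v : Fin n} {G : Finset (Fin n)} (h : j ≠ v) (hj : j ∉ G) (hv : v ∉ G) :
    sg k j (insert v G) * sg k v (insert j G) = -(sg k j G * sg k v G) := by
  simp only [sg, filter_insert]
  rcases h.lt_or_gt with h | h
  · rw [if_neg h.not_gt, if_pos h, card_insert_of_notMem (by simp [hj])]
    ring
  · rw [if_neg h.not_gt, if_pos h, card_insert_of_notMem (by simp [hv])]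
    ring

def cone (v : Fin n) (c : Finset (Fin n) → k) (G : Finset (Fin n)) : k :=
  if v ∈ G then sg k v (G.erase v) * c (G.erase v) else 0

lemma cone_insert {v : Fin n} {G : Finset (Fin n)} (h : v ∉ G) (c : Finset (Fin n) → k) :
    cone v c (insert v G) = sg k v G * c G := by
  rw [cone, if_pos (mem_insert_self _ _), erase_insert h]

lemma Supp.sub {Δ : Finset (Fin n) → Prop} {t : ℕ} {c d : Finset (Fin n) → k} (hc : Supp Δ t c)
    (hd : Supp Δ t d) : Supp Δ t (c - d) := fun F h => by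
  by_cases h1 : c F = 0
  · exact hd F fun h2 => h (by simp [h1, h2])
  · exact hc F h1

lemma Supp.cone {Δ Δ' : Finset (Fin n) → Prop} {t : ℕ} {c : Finset (Fin n) → k} {v : Fin n}
    (hc : Supp Δ' t c) (h : ∀ F, Δ' F → Δ (insert v F)) : Supp Δ (t + 1) (cone v c) :=
  fun F hF => by
  have hv : v ∈ F := by_contra fun h => hF (if_neg h)
  obtain ⟨G, hG, rfl⟩ : ∃ G, v ∉ G ∧ F = insert v G := ⟨_, notMem_erase _ _, (insert_erase hv).symm⟩
  rw [cone_insert hG] at hF
  obtain ⟨h1, h2⟩ := hc G (right_ne_zero_of_mul hF)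
  exact ⟨h G h1, by rw [card_insert_of_notMem hG, h2]⟩

lemma bd_sub (c d : Finset (Fin n) → k) : bd (c - d) = bd c - bd d := by
  ext G
  simp [bd, mul_sub]

lemma bd_zero : bd (0 : Finset (Fin n) → k) = 0 := by
  ext G
  simp [bd]

lemma bd_cone (v : Fin n) (c : Finset (Fin n) → k) : bd (cone v c) = c - cone v (bd c) := by
  ext G
  rw [Pi.sub_apply]
  by_cases hv : v ∈ G
  · obtain ⟨G, hG, rfl⟩ : ∃ G', v ∉ G' ∧ G = insert v G' :=
      ⟨_, notMem_erase _ _, (insert_erase hv).symm⟩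
    rw [cone_insert hG, bd, bd, ← add_sum_erase _ _ (mem_compl.2 hG), mul_add, ← mul_assoc, sg_sq,
      one_mul, sub_add_cancel_left, compl_insert, mul_sum, ← sum_neg_distrib]
    refine sum_congr rfl fun j hj => ?_
    rw [mem_erase, mem_compl] at hj
    rw [insert_comm, cone_insert (by simp [hG, hj.1.symm]), ← mul_assoc, sg_swap hj.1 hj.2 hG]
    ring
  · rw [cone, if_neg hv, sub_zero, bd, sum_eq_single v (fun j _ hj => by
      rw [cone, if_neg (by simp [hv, hj.symm]), mul_zero]) (by simp [hv]), cone_insert hv,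
      ← mul_assoc, sg_sq, one_mul]

lemma cone_zero (v : Fin n) : cone v (0 : Finset (Fin n) → k) = 0 := by
  ext G
  simp [cone]

lemma acyc_cone {Δ : Finset (Fin n) → Prop} (v : Fin n) (h : ∀ F, Δ F → Δ (insert v F)) :
    Acyc k Δ := fun _ c hc h0 => ⟨cone v c, hc.cone h, by rw [bd_cone, h0, cone_zero, sub_zero]⟩

lemma acyc_step {Δ : Finset (Fin n) → Prop} (v : Fin n) (h : ∀ F, Δ (insert v F) → Δ F)
    (a : Acyc k fun F => Δ (insert v F) ∧ v ∉ F) (b : Acyc k fun F => Δ F ∧ v ∉ F) :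
    Acyc k Δ := by
  intro t c hc h0
  let c1 : Finset (Fin n) → k := fun G => if v ∈ G then 0 else sg k v G * c (insert v G)
  have e0 : ∀ G, v ∈ G → (c - cone v c1) G = 0 := fun G hG => by
    simp only [c1, Pi.sub_apply, cone, if_pos hG, if_neg (notMem_erase v G), insert_erase hG]
    rw [← mul_assoc, sg_sq, one_mul, sub_self]
  have e1 : bd c1 = 0 := by
    ext G
    by_cases hG : v ∈ G
    · exact sum_eq_zero fun j _ => by simp [c1, hG]
    · have h7 : bd (c - cone v c1) (insert v G) = 0 :=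
        sum_eq_zero fun j _ => by rw [e0 _ (by simp), mul_zero]
      rw [bd_sub, bd_cone, h0] at h7
      simpa [c1, cone_insert hG, sg_ne] using h7
  have s1 : ∀ G, c1 G ≠ 0 → (Δ (insert v G) ∧ v ∉ G) ∧ #G + 1 = t := fun G hG => by
    have h7 : v ∉ G := fun h => hG (if_pos h)
    simp only [c1, if_neg h7] at hG
    have := hc _ (right_ne_zero_of_mul hG)
    exact ⟨⟨this.1, h7⟩, by rw [← this.2, card_insert_of_notMem h7]⟩
  obtain ⟨w1, h7, h8⟩ : ∃ w1, Supp (fun F => Δ (insert v F) ∧ v ∉ F) t w1 ∧ bd w1 = c1 := by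
    rcases t with _ | t
    · exact ⟨0, fun _ h => absurd rfl h, bd_zero.trans (funext fun G =>
        by_contra fun h => by simpa using (s1 G (Ne.symm h)).2)⟩
    · exact a t c1 (fun G hG => ⟨(s1 G hG).1, by simpa using (s1 G hG).2⟩) e1
  obtain ⟨w0, h9, h10⟩ := b t (c - cone v c1 - (0 - w1))
    (Supp.sub (fun G hG => by
      have h9 : v ∉ G := fun h => hG (e0 G h)
      have := hc G (by simpa [cone, h9] using hG)
      exact ⟨⟨this.1, h9⟩, this.2⟩) (Supp.sub (fun _ h => absurd rfl h) fun G hG =>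
        ⟨⟨h _ (h7 G hG).1.1, (h7 G hG).1.2⟩, (h7 G hG).2⟩))
    (by simp only [bd_sub, bd_cone, h0, e1, h8, bd_zero, cone_zero]; ring)
  refine ⟨w0 - cone v w1, Supp.sub (fun G hG => ⟨(h9 G hG).1.1, (h9 G hG).2⟩)
    (h7.cone fun F h => h.1), ?_⟩
  rw [bd_sub, bd_cone, h8, h10]
  ring

def del (v : ℕ) (l : List ℕ) : List ℕ := l.map fun m => m ^^^ (m &&& 2 ^ v)
def lk (v : ℕ) (l : List ℕ) : List ℕ := del v (l.filter (·.testBit v))

theorem f_del (v : Fin n) (m : ℕ) : f n (m ^^^ (m &&& 2 ^ v.val)) = (f n m).erase v := by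
  ext i
  by_cases e : i = v
  · simp [mem_f, e]
  · simp [mem_f, e, Nat.testBit_two_pow_of_ne (fun x => e (Fin.ext x).symm)]

theorem cx_del (v : Fin n) (l : List ℕ) : Cx n (del v l) = fun F => Cx n l F ∧ v ∉ F := by
  ext F
  simp only [Cx, del, List.mem_map, exists_exists_and_eq_and, f_del, subset_erase]
  exact ⟨fun ⟨m, a, b, c⟩ => ⟨⟨m, a, b⟩, c⟩, fun ⟨⟨m, a, b⟩, c⟩ => ⟨m, a, b, c⟩⟩

theorem cx_lk (v : Fin n) (l : List ℕ) : Cx n (lk v l) = fun F => Cx n l (insert v F) ∧ v ∉ F := by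
  ext F
  rw [lk, cx_del]
  simp only [Cx, List.mem_filter, insert_subset_iff, mem_f]
  exact and_congr_left' ⟨fun ⟨m, a, b⟩ => ⟨m, a.1, a.2, b⟩, fun ⟨m, a, b, c⟩ => ⟨m, ⟨a, b⟩, c⟩⟩

inductive T
  | leaf (v : ℕ) : T
  | node (v : ℕ) (a b : T) : T

def ok (n : ℕ) : T → List ℕ → Bool
  | .leaf v, l => decide (v < n) && l.all fun m => l.any fun m' => sub (m ||| 2 ^ v) m'
  | .node v a b, l => decide (v < n) && ok n a (lk v l) && ok n b (del v l)

theorem ok_acyc (t : T) : ∀ l, ok n t l = true → Acyc k (Cx n l) := by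
  induction t with
  | leaf v =>
    intro l h
    simp only [ok, Bool.and_eq_true, decide_eq_true_eq, List.all_eq_true, List.any_eq_true] at h
    refine acyc_cone ⟨v, h.1⟩ fun F ⟨m, a, b⟩ => ?_
    obtain ⟨m', c, d⟩ := h.2 m a
    have := sub_f (n := n) d
    rw [f_or, f_pow ⟨v, h.1⟩] at this
    exact ⟨m', c, insert_subset (this (by simp)) (b.trans (subset_union_left.trans this))⟩
  | node v a b i j =>
    intro l h
    simp only [ok, Bool.and_eq_true, decide_eq_true_eq] at h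
    exact acyc_step ⟨v, h.1.1⟩ (fun F ⟨m, a, b⟩ => ⟨m, a, (subset_insert _ _).trans b⟩)
      (cx_lk ⟨v, h.1.1⟩ l ▸ i _ h.1.2) (cx_del ⟨v, h.1.1⟩ l ▸ j _ h.2)

end Pool.Agent.Lib.helper1.Hom
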