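import Mathlib

set_option autoImplicit false

namespace Pool.Agent.Lib.helper1

open Finset

/-- Koenig's theorem for a relation: no matching of size `n` gives a cover with fewer than `n` points. -/
theorem konig {V : Type} [Fintype V] [DecidableEq V] (r : V → V → Prop) [DecidableRel r] (n : ℕ)
    (h : ¬ ∃ a b : Fin n → V, Function.Injective a ∧ Function.Injective b ∧ ∀ i, r (a i) (b i)) :
    ∃ C : Finset V, C.card < n ∧ ∀ x y, r x y → x ∈ C ∨ y ∈ C := by
  by_contra hc
  push Not at hc
  have hc' : ∀ C : Finset V, (∀ x y, r x y → x ∈ C ∨ y ∈ C) → n ≤ C.card := by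
    intro C hC
    by_contra hlt
    obtain ⟨x, y, hxy, hx, hy⟩ := hc C (by omega)
    rcases hC x y hxy with h1 | h1
    · exact hx h1
    · exact hy h1
  have hn : n ≤ Fintype.card V := by
    simpa using hc' univ (fun x y _ => Or.inl (mem_univ x))
  set d := Fintype.card V - n with hd
  let t : V → Finset (V ⊕ Fin d) := fun x => (univ.filter (r x)).disjSum univ
  have hall : ∀ S : Finset V, S.card ≤ (S.biUnion t).card := by
    intro S
    rcases S.eq_empty_or_nonempty with rfl | ⟨x0, hx0⟩
    · simp
    set N : Finset V := univ.filter (fun y => ∃ x ∈ S, r x y) with hN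
    have h1 : N.disjSum (univ : Finset (Fin d)) ⊆ S.biUnion t := by
      intro z hz
      rw [mem_biUnion]
      rcases z with y | j
      · rw [inl_mem_disjSum, hN, mem_filter] at hz
        obtain ⟨x, hx, hxy⟩ := hz.2
        exact ⟨x, hx, by simp [t, hxy]⟩
      · exact ⟨x0, hx0, by simp [t]⟩
    have h2 := card_le_card h1
    rw [card_disjSum, card_univ, Fintype.card_fin] at h2
    have h3 := hc' (Sᶜ ∪ N) (by
      intro x y hxy
      by_cases hx : x ∈ S
      · right
        exact mem_union_right _ (by rw [hN, mem_filter]; exact ⟨mem_univ _, x, hx, hxy⟩)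
      · left
        exact mem_union_left _ (mem_compl.2 hx))
    have h4 := card_union_le Sᶜ N
    rw [card_compl] at h4
    have h5 := card_le_univ S
    omega
  obtain ⟨f, hf, hft⟩ := (Finset.all_card_le_biUnion_card_iff_exists_injective t).1 hall
  set G : Finset V := univ.filter (fun x => ∃ y, f x = Sum.inl y) with hG
  have hGc : Gᶜ.card ≤ d := by
    have : Gᶜ.card ≤ ((univ : Finset (Fin d)).image (Sum.inr : Fin d → V ⊕ Fin d)).card := by
      apply card_le_card_of_injOn f
      · intro x hx
        rw [mem_coe, mem_compl, hG, mem_filter] at hx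
        rcases hfx : f x with y | j
        · exact absurd ⟨mem_univ _, y, hfx⟩ hx
        · simp
      · exact hf.injOn
    refine this.trans (card_image_le.trans (by simp))
  rw [card_compl] at hGc
  have hG5 := card_le_univ G
  have hGn : n ≤ G.card := by omega
  obtain ⟨G', hG', hcard⟩ := exists_subset_card_eq hGn
  let e : Fin n → V := fun i => ((G'.equivFinOfCardEq hcard).symm i : V)
  have he : Function.Injective e := by
    intro i j hij
    exact (G'.equivFinOfCardEq hcard).symm.injective (Subtype.ext hij)
  have hex : ∀ i, ∃ y, f (e i) = Sum.inl y := by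
    intro i
    have := hG' ((G'.equivFinOfCardEq hcard).symm i).2
    rw [hG, mem_filter] at this
    exact this.2
  choose b hb using hex
  refine h ⟨e, b, he, ?_, ?_⟩
  · intro i j hij
    apply he
    apply hf
    rw [hb, hb, hij]
  · intro i
    have := hft (e i)
    rw [hb] at this
    simpa [t] using this

end Pool.Agent.Lib.helper1
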