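import Mathlib

set_option autoImplicit false

namespace Pool.Agent.Lib.helper1.Cfg

theorem mem_line {m : ℕ} (a b z : Fin m → ℝ) (h : a ≠ b) :
    z ∈ line[ℝ, a, b] ↔ ∀ i j, (z i - a i) * (b j - a j) = (z j - a j) * (b i - a i) := by
  rw [mem_affineSpan_pair_iff_exists_lineMap_eq]
  have hc : ∀ (r : ℝ) i, (AffineMap.lineMap a b r : Fin m → ℝ) i = r * (b i - a i) + a i :=
    fun r i => by simp [AffineMap.lineMap_apply]
  constructor
  · rintro ⟨r, rfl⟩ i j
    rw [hc, hc]
    ring
  · intro H
    obtain ⟨j, hj⟩ := Function.ne_iff.1 h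
    have hj' : b j - a j ≠ 0 := sub_ne_zero.2 hj.symm
    refine ⟨(z j - a j) / (b j - a j), funext fun i => ?_⟩
    rw [hc]
    field_simp
    linarith [H i j]

section
variable {R α β : Type} [CommRing R] (φ : R →+* ℝ) {m : ℕ} (T : α → Fin m → R) (a b : β → α)

def pt (p : α) : Fin m → ℝ := fun i => φ (T p i)

noncomputable def ln (l : β) : AffineSubspace ℝ (Fin m → ℝ) := line[ℝ, pt φ T (a l), pt φ T (b l)]

def On (p : α) (l : β) : Prop :=
  ∀ i j, (T p i - T (a l) i) * (T (b l) j - T (a l) j) = (T p j - T (a l) j) * (T (b l) i - T (a l) i)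

instance [DecidableEq R] (p : α) (l : β) : Decidable (On T a b p l) := by
  unfold On; infer_instance

theorem real (I : α → β → Prop) (hφ : Function.Injective φ) (hT : Function.Injective T)
    (hab : ∀ l, a l ≠ b l) (hd : ∀ p l, On T a b p l ↔ I p l)
    (hs : ∀ l l', l ≠ l' → ∃ p, I p l ∧ ¬ I p l') :
    Function.Injective (pt φ T) ∧ Function.Injective (ln φ T a b) ∧
      (∀ l, Module.finrank ℝ (ln φ T a b l).direction = 1) ∧
      ∀ p l, pt φ T p ∈ ln φ T a b l ↔ I p l := by
  have h1 : Function.Injective (pt φ T) := fun p q h =>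
    hT (funext fun i => hφ (congrFun h i))
  have h4 : ∀ p l, pt φ T p ∈ ln φ T a b l ↔ I p l := fun p l => by
    rw [ln, mem_line _ _ _ (h1.ne (hab l)), ← hd]
    refine forall₂_congr fun i j => ?_
    rw [← hφ.eq_iff]
    simp [pt]
  refine ⟨h1, fun l l' h => ?_, fun l => ?_, h4⟩
  · by_contra hne
    obtain ⟨p, x, y⟩ := hs l l' hne
    exact y ((h4 p l').1 (h ▸ (h4 p l).2 x))
  · rw [ln, direction_affineSpan, vectorSpan_pair]
    exact finrank_span_singleton (vsub_ne_zero.2 (h1.ne (hab l)))

/-- full-dimensional affine hull from a nonzero determinant -/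
theorem hull_full (hφ : Function.Injective φ) (o : α) (q : Fin m → α)
    (hdet : (Matrix.of fun i j => T (q i) j - T o j).det ≠ 0) :
    Module.finrank ℝ (affineSpan ℝ (Set.range (pt φ T))).direction = m := by
  have hd : (Matrix.of fun i j => pt φ T (q i) j - pt φ T o j).det ≠ 0 := by
    have := φ.map_det (Matrix.of fun i j => T (q i) j - T o j)
    intro h
    apply hdet
    apply hφ
    rw [this, map_zero, ← h]
    congr 1
    ext i j
    simp [pt]
  have li := Matrix.linearIndependent_rows_of_det_ne_zero hd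
  apply le_antisymm
  · exact (Submodule.finrank_le _).trans (by simp)
  · have h1 := finrank_span_eq_card li
    rw [Fintype.card_fin] at h1
    refine h1.symm.le.trans (Submodule.finrank_mono ?_)
    rw [Submodule.span_le]
    rintro _ ⟨i, rfl⟩
    rw [direction_affineSpan]
    exact vsub_mem_vectorSpan ℝ (Set.mem_range_self (q i)) (Set.mem_range_self o)
end

/-- a line with two distinct points in an affine subspace lies in it -/
theorem third {V : Type} [AddCommGroup V] [Module ℝ V] {L : AffineSubspace ℝ V} {x y z : V}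
    (hL : Module.finrank ℝ L.direction = 1) (hxy : x ≠ y) (hx : x ∈ L) (hy : y ∈ L) (hz : z ∈ L) :
    ∃ r : ℝ, z = x + r • (y - x) := by
  have h1 : y - x ∈ L.direction := AffineSubspace.vsub_mem_direction hy hx
  have h2 : z - x ∈ L.direction := AffineSubspace.vsub_mem_direction hz hx
  have hne : (⟨y - x, h1⟩ : L.direction) ≠ 0 := fun h =>
    hxy (sub_eq_zero.1 (congrArg Subtype.val h)).symm
  obtain ⟨c, hc⟩ := (finrank_eq_one_iff_of_nonzero' _ hne).1 hL ⟨z - x, h2⟩
  refine ⟨c, ?_⟩
  have := congrArg Subtype.val hc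
  simp only [SetLike.mk_smul_mk] at this
  rw [this]
  abel

theorem third_mem {V : Type} [AddCommGroup V] [Module ℝ V] {S L : AffineSubspace ℝ V} {x y z : V}
    (hL : Module.finrank ℝ L.direction = 1) (hxy : x ≠ y) (hx : x ∈ L) (hy : y ∈ L) (hz : z ∈ L)
    (sx : x ∈ S) (sy : y ∈ S) : z ∈ S := by
  obtain ⟨r, rfl⟩ := third hL hxy hx hy hz
  have := S.smul_vsub_vadd_mem r sy sx sx
  rw [add_comm]
  exact this

end Pool.Agent.Lib.helper1.Cfg
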