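import Mathlib

namespace Pool.Agent.Lib.helper1.Subtree
open Finset

section abstract
variable {V : Type} [DecidableEq V]

def Rch (F : Finset (Sym2 V)) : V → V → Prop := Relation.ReflTransGen (fun x y => s(x, y) ∈ F)

def supp (F : Finset (Sym2 V)) : Finset V := F.biUnion Sym2.toFinset

lemma mem_supp {F : Finset (Sym2 V)} {x : V} : x ∈ supp F ↔ ∃ e ∈ F, x ∈ e := by
  simp [supp]

lemma supp_insert (a b : V) (F : Finset (Sym2 V)) :
    supp (insert s(a, b) F) = insert a (insert b (supp F)) := by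
  ext x
  simp [mem_supp]
  tauto

lemma supp_mono {F E : Finset (Sym2 V)} (h : F ⊆ E) : supp F ⊆ supp E := by
  intro x hx
  obtain ⟨e, he, hx⟩ := mem_supp.1 hx
  exact mem_supp.2 ⟨e, h he, hx⟩

def Good (A : Finset V) (F : Finset (Sym2 V)) : Prop :=
  (∀ x ∈ supp F, ∃ a ∈ A, Rch F a x) ∧ F.card + A.card = (A ∪ supp F).card

open Classical in
noncomputable def Z (E : Finset (Sym2 V)) (A : Finset V) (p q : ℕ) : ℕ :=
  ∑ F ∈ E.powerset, if Good A F then p + q * F.card else 0

lemma Rch.mono {F E : Finset (Sym2 V)} (h : F ⊆ E) {x y : V} (r : Rch F x y) : Rch E x y :=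
  Relation.ReflTransGen.mono (fun _ _ h' => h h') _ _ r

lemma Rch.end_mem {F : Finset (Sym2 V)} {x y : V} (r : Rch F x y) : y = x ∨ y ∈ supp F := by
  rcases Relation.ReflTransGen.cases_tail r with h | ⟨c, _, h⟩
  · exact Or.inl h
  · exact Or.inr (mem_supp.2 ⟨_, h, by simp⟩)

lemma Rch.start_mem {F : Finset (Sym2 V)} {x y : V} (r : Rch F x y) : y = x ∨ x ∈ supp F := by
  rcases Relation.ReflTransGen.cases_head r with h | ⟨c, h, _⟩
  · exact Or.inl h.symm
  · exact Or.inr (mem_supp.2 ⟨_, h, by simp⟩)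

lemma good_insert {A : Finset V} {F : Finset (Sym2 V)} {a b : V} (ha : a ∈ A) (hb : b ∉ A)
    (he : s(a, b) ∉ F) : Good A (insert s(a, b) F) ↔ Good (insert b A) F := by
  have hu : A ∪ supp (insert s(a, b) F) = insert b A ∪ supp F := by
    rw [supp_insert]
    ext x
    simp only [mem_union, mem_insert]
    constructor
    · rintro (h | h | h | h)
      · exact Or.inl (Or.inr h)
      · exact Or.inl (Or.inr (h ▸ ha))
      · exact Or.inl (Or.inl h)
      · exact Or.inr h
    · rintro ((h | h) | h)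
      · exact Or.inr (Or.inr (Or.inl h))
      · exact Or.inl h
      · exact Or.inr (Or.inr (Or.inr h))
  unfold Good
  rw [hu, card_insert_of_notMem he, card_insert_of_notMem hb]
  refine and_congr ?_ (by omega)
  constructor
  · intro h x hx
    obtain ⟨a', ha', r⟩ := h x (supp_mono (subset_insert _ _) hx)
    clear hx
    induction r with
    | refl => exact ⟨a', mem_insert_of_mem ha', Relation.ReflTransGen.refl⟩
    | @tail y z _ hyz ih =>
      rcases mem_insert.1 hyz with h1 | h1
      · have : z ∈ s(a, b) := by rw [← h1]; simp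
        rcases Sym2.mem_iff.1 this with h2 | h2
        · exact ⟨a, mem_insert_of_mem ha, h2 ▸ Relation.ReflTransGen.refl⟩
        · exact ⟨b, mem_insert_self _ _, h2 ▸ Relation.ReflTransGen.refl⟩
      · obtain ⟨c, hc, r'⟩ := ih
        exact ⟨c, hc, Relation.ReflTransGen.tail r' h1⟩
  · intro h x hx
    have hab : Rch (insert s(a, b) F) a b := Relation.ReflTransGen.single (mem_insert_self _ _)
    rw [supp_insert] at hx
    rcases mem_insert.1 hx with h1 | h1
    · exact ⟨a, ha, h1 ▸ Relation.ReflTransGen.refl⟩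
    rcases mem_insert.1 h1 with h2 | h2
    · exact ⟨a, ha, h2 ▸ hab⟩
    obtain ⟨c, hc, r⟩ := h x h2
    have r' := r.mono (subset_insert s(a, b) F)
    rcases mem_insert.1 hc with h3 | h3
    · exact ⟨a, ha, Relation.ReflTransGen.trans hab (h3 ▸ r')⟩
    · exact ⟨c, h3, r'⟩

lemma good_leaf {A : Finset V} {F : Finset (Sym2 V)} {b : V} (hb : b ∉ A) (hF : b ∉ supp F) :
    Good (insert b A) F ↔ Good A F := by
  unfold Good
  rw [insert_union, card_insert_of_notMem hb, card_insert_of_notMem (by simp [hb, hF])]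
  refine and_congr ?_ (by omega)
  constructor
  · intro h x hx
    obtain ⟨c, hc, r⟩ := h x hx
    rcases mem_insert.1 hc with h3 | h3
    · subst h3
      rcases r.start_mem with h4 | h4
      · exact absurd (h4 ▸ hx) hF
      · exact absurd h4 hF
    · exact ⟨c, h3, r⟩
  · intro h x hx
    obtain ⟨c, hc, r⟩ := h x hx
    exact ⟨c, mem_insert_of_mem hc, r⟩

lemma Z_branch {E : Finset (Sym2 V)} {A : Finset V} {a b : V} (ha : a ∈ A) (hb : b ∉ A)
    (he : s(a, b) ∉ E) (p q : ℕ) :
    Z (insert s(a, b) E) A p q = Z E A p q + Z E (insert b A) (p + q) q := by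
  unfold Z
  rw [sum_powerset_insert he]
  congr 1
  refine sum_congr rfl fun F hF => ?_
  have h1 : s(a, b) ∉ F := fun h => he (mem_powerset.1 hF h)
  rw [card_insert_of_notMem h1]
  by_cases h : Good (insert b A) F
  · rw [if_pos h, if_pos ((good_insert ha hb h1).2 h)]; ring
  · rw [if_neg h, if_neg (fun h' => h ((good_insert ha hb h1).1 h'))]

lemma Z_leaf {E : Finset (Sym2 V)} {A : Finset V} {a b : V} (ha : a ∈ A) (hb : b ∉ A)
    (hE : b ∉ supp E) (p q : ℕ) :
    Z (insert s(a, b) E) A p q = Z E A (2 * p + q) (2 * q) := by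
  have he : s(a, b) ∉ E := fun h => hE (mem_supp.2 ⟨_, h, by simp⟩)
  rw [Z_branch ha hb he]
  unfold Z
  rw [← sum_add_distrib]
  refine sum_congr rfl fun F hF => ?_
  have h1 : b ∉ supp F := fun h => hE (supp_mono (mem_powerset.1 hF) h)
  by_cases h : Good A F
  · rw [if_pos h, if_pos h, if_pos ((good_leaf hb h1).2 h)]; ring
  · rw [if_neg h, if_neg h, if_neg (fun h' => h ((good_leaf hb h1).1 h'))]

lemma Z_base {E : Finset (Sym2 V)} {A : Finset V}
    (h : ∀ x y, s(x, y) ∈ E → x ∈ A → y ∈ A) (p q : ℕ) : Z E A p q = p := by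
  unfold Z
  rw [sum_eq_single ∅]
  · rw [if_pos]
    · simp
    · refine ⟨fun x hx => ?_, by simp [supp]⟩
      simp [supp] at hx
  · intro F hF hne
    rw [if_neg]
    rintro ⟨h1, h2⟩
    have h3 : supp F ⊆ A := by
      intro x hx
      obtain ⟨c, hc, r⟩ := h1 x hx
      clear hx
      induction r with
      | refl => exact hc
      | tail _ hyz ih => exact h _ _ (mem_powerset.1 hF hyz) ih
    rw [union_eq_left.2 h3] at h2
    exact hne (card_eq_zero.1 (by omega))
  · intro h
    exact absurd (empty_mem_powerset E) h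

end abstract

section bridge
variable {V : Type} [DecidableEq V] [Fintype V]

lemma tree_iff {G : SimpleGraph V} (T : G.Subgraph) {v : V} (hv : v ∈ T.verts)
    {F : Finset (Sym2 V)} (hF : (F : Set (Sym2 V)) = T.edgeSet) :
    T.coe.IsTree ↔ (T.verts = ↑(({v} : Finset V) ∪ supp F) ∧ Good {v} F) := by
  have hm : ∀ x y, s(x, y) ∈ F ↔ T.Adj x y := by
    intro x y
    rw [← mem_coe, hF, SimpleGraph.Subgraph.mem_edgeSet]
  have hc : Nat.card T.coe.edgeSet = F.card := by
    rw [Nat.card_coe_set_eq, ← Set.ncard_coe_finset, hF, ← T.image_coe_edgeSet_coe,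
      Set.ncard_image_of_injective _ (Sym2.map.injective Subtype.val_injective)]
  have hs : ∀ x ∈ supp F, x ∈ T.verts := by
    intro x hx
    obtain ⟨e, he, hx⟩ := mem_supp.1 hx
    rw [← mem_coe, hF] at he
    exact T.mem_verts_of_mem_edge he hx
  rw [SimpleGraph.isTree_iff_connected_and_card, hc, Nat.card_coe_set_eq]
  constructor
  · rintro ⟨h1, h2⟩
    have hr : ∀ x (hx : x ∈ T.verts), Rch F v x := by
      intro x hx
      have := (SimpleGraph.reachable_iff_reflTransGen _ _).1 (h1.preconnected ⟨v, hv⟩ ⟨x, hx⟩)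
      exact Relation.ReflTransGen.lift (p := fun x y => s(x, y) ∈ F) Subtype.val
        (fun a b hab => (hm _ _).2 hab) _ _ this
    have hV : T.verts = ↑(({v} : Finset V) ∪ supp F) := by
      ext x
      simp only [coe_union, coe_singleton, Set.mem_union, Set.mem_singleton_iff, mem_coe]
      constructor
      · intro hx
        exact (hr x hx).end_mem
      · rintro (h | h)
        · exact h ▸ hv
        · exact hs x h
    refine ⟨hV, fun x hx => ⟨v, mem_singleton_self _, hr x (hs x hx)⟩, ?_⟩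
    rw [hV, Set.ncard_coe_finset] at h2
    simpa using h2
  · rintro ⟨hV, h1, h2⟩
    refine ⟨?_, ?_⟩
    · have hr : ∀ x, Rch F v x → ∀ hx : x ∈ T.verts, T.coe.Reachable ⟨v, hv⟩ ⟨x, hx⟩ := by
        intro x r
        induction r with
        | refl => intro _; rfl
        | @tail y z _ hyz ih =>
          intro hz
          have ha := (hm _ _).1 hyz
          exact (ih ha.fst_mem).trans
            (SimpleGraph.Adj.reachable (show T.coe.Adj ⟨y, ha.fst_mem⟩ ⟨z, hz⟩ from ha))
      have hr' : ∀ x : T.verts, T.coe.Reachable ⟨v, hv⟩ x := by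
        rintro ⟨x, hx⟩
        refine hr x ?_ hx
        rw [hV] at hx
        simp only [coe_union, coe_singleton, Set.mem_union, Set.mem_singleton_iff, mem_coe] at hx
        rcases hx with h | h
        · exact h ▸ Relation.ReflTransGen.refl
        · obtain ⟨c, hc, r⟩ := h1 x h
          exact (mem_singleton.1 hc) ▸ r
      have : Nonempty T.verts := ⟨⟨v, hv⟩⟩
      exact ⟨fun x y => (hr' x).symm.trans (hr' y)⟩
    · rw [hV, Set.ncard_coe_finset]
      simpa using h2

lemma sum_trees (φ : V → ℕ) (hφ : Function.Injective φ) (G : SimpleGraph V)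
    (E : Finset (Sym2 V)) (hE : (E : Set (Sym2 V)) = G.edgeSet)
    (D : V → Finset (Sym2 V)) (hD : ∀ v e, e ∈ D v ↔ e ∈ E ∧ ∀ x ∈ e, φ v ≤ φ x) (p q : ℕ) :
    ∑ᶠ T : {T : G.Subgraph // T.coe.IsTree}, (p + q * (T.1.verts.ncard - 1)) =
      ∑ v, Z (D v) {v} p q := by
  classical
  have : Fintype {T : G.Subgraph // T.coe.IsTree} := Fintype.ofFinite _
  rw [finsum_eq_sum_of_fintype]
  unfold Z
  simp_rw [← sum_filter]
  rw [sum_sigma']
  have hmin : ∀ T : {T : G.Subgraph // T.coe.IsTree}, ∃ v ∈ T.1.verts, ∀ x ∈ T.1.verts, φ v ≤ φ x := by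
    intro T
    obtain ⟨⟨v, hv⟩⟩ := T.2.connected.nonempty
    exact Set.exists_min_image _ φ (Set.toFinite _) ⟨v, hv⟩
  choose mn hm1 hm2 using hmin
  have hfin : ∀ T : {T : G.Subgraph // T.coe.IsTree}, ∃ F : Finset (Sym2 V),
      (F : Set (Sym2 V)) = T.1.edgeSet := fun T => ⟨(Set.toFinite T.1.edgeSet).toFinset, by simp⟩
  choose ed hed using hfin
  have key := fun T : {T : G.Subgraph // T.coe.IsTree} => (tree_iff T.1 (hm1 T) (hed T)).1 T.2
  refine sum_bij (fun T _ => (⟨mn T, ed T⟩ : Σ _ : V, Finset (Sym2 V))) ?_ ?_ ?_ ?_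
  · intro T _
    simp only [mem_sigma, mem_univ, mem_filter, mem_powerset, true_and]
    refine ⟨fun e he => (hD _ _).2 ⟨?_, fun x hx => hm2 T x ?_⟩, (key T).2⟩
    · rw [← mem_coe, hed] at he
      rw [← mem_coe, hE]
      exact T.1.edgeSet_subset he
    · rw [← mem_coe, hed] at he
      exact T.1.mem_verts_of_mem_edge he hx
  · intro T _ U _ h
    have h1 : mn T = mn U := congrArg Sigma.fst h
    have h2 : ed T = ed U := by
      have := congrArg (fun z : Σ _ : V, Finset (Sym2 V) => z.2) h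
      exact this
    apply Subtype.ext
    apply SimpleGraph.Subgraph.ext
    · rw [(key T).1, (key U).1, h1, h2]
    · have : T.1.edgeSet = U.1.edgeSet := by rw [← hed, ← hed, h2]
      ext x y
      rw [← SimpleGraph.Subgraph.mem_edgeSet, this, SimpleGraph.Subgraph.mem_edgeSet]
  · rintro ⟨v, F⟩ h
    simp only [mem_sigma, mem_univ, mem_filter, mem_powerset, true_and] at h
    obtain ⟨h1, h2⟩ := h
    let T : G.Subgraph :=
      { verts := ↑(({v} : Finset V) ∪ supp F)
        Adj := fun x y => s(x, y) ∈ F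
        adj_sub := fun {x y} h => by
          have := ((hD _ _).1 (h1 h)).1
          rw [← mem_coe, hE] at this
          exact this
        edge_vert := fun {x y} h => by
          simp only [coe_union, coe_singleton, Set.mem_union, Set.mem_singleton_iff, mem_coe]
          exact Or.inr (mem_supp.2 ⟨_, h, by simp⟩)
        symm := ⟨fun x y h => by rwa [Sym2.eq_swap]⟩ }
    have hv : v ∈ T.verts := by simp [T]
    have hF : (F : Set (Sym2 V)) = T.edgeSet := by
      ext e
      induction e using Sym2.ind with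
      | h x y => rw [SimpleGraph.Subgraph.mem_edgeSet]; rfl
    have hT : T.coe.IsTree := (tree_iff T hv hF).2 ⟨rfl, h2⟩
    refine ⟨⟨T, hT⟩, mem_univ _, ?_⟩
    have e1 : mn ⟨T, hT⟩ = v := by
      apply hφ
      apply le_antisymm (hm2 ⟨T, hT⟩ v hv)
      have : mn ⟨T, hT⟩ ∈ ({v} : Finset V) ∪ supp F := mem_coe.1 (hm1 ⟨T, hT⟩)
      rw [mem_union, mem_singleton] at this
      rcases this with h | h
      · exact le_of_eq (congrArg φ h.symm)
      · obtain ⟨e, he, hx⟩ := mem_supp.1 h
        exact ((hD _ _).1 (h1 he)).2 _ hx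
    have e2 : ed ⟨T, hT⟩ = F := by
      apply coe_injective
      rw [hed, hF]
    rw [e1, e2]
  · intro T _
    have h2 := (key T).2.2
    rw [(key T).1, Set.ncard_coe_finset, ← h2]
    simp

end bridge

section exec
variable {V : Type}

noncomputable def force (m : ℕ) (f : ℕ → ℕ) : ℕ := Nat.rec (f 0) (fun n _ => f n.succ) m

lemma force_eq (m : ℕ) (f : ℕ → ℕ) : force m f = f m := by cases m <;> rfl

def tb (m n : ℕ) : Bool := Nat.beq (Nat.land 1 (Nat.shiftRight m n)) 1

lemma tb_eq (m n : ℕ) : tb m n = m.testBit n := by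
  have h : Nat.land 1 (Nat.shiftRight m n) = (m >>> n) % 2 := Nat.one_and_eq_mod_two _
  unfold tb Nat.testBit
  rw [h, Nat.one_and_eq_mod_two]
  rcases Nat.mod_two_eq_zero_or_one (m >>> n) with h | h <;> rw [h] <;> rfl

noncomputable def free (φ : V → ℕ) (k : ℕ) (l : List (V × V)) : Bool :=
  List.rec true (fun e _ ih => Bool.rec (Bool.rec ih false (Nat.beq (φ e.2) k)) false
    (Nat.beq (φ e.1) k)) l

noncomputable def rev (acc : List (V × V)) : List (V × V) → List (V × V) :=
  List.rec (fun l => l) (fun e _ ih l => ih (e :: l)) acc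

lemma rev_eq : ∀ acc l : List (V × V), rev acc l = acc.reverse ++ l
  | [], l => rfl
  | e :: acc, l => by
    show rev acc (e :: l) = _
    rw [rev_eq]
    simp

noncomputable def hit (φ : V → ℕ) (nx : List (V × V) → ℕ → ℕ → ℕ → ℕ) (m k : ℕ)
    (l acc : List (V × V)) (ih : List (V × V) → ℕ → ℕ → ℕ) (p q : ℕ) : ℕ :=
  Bool.rec
    (Nat.add (ih acc p q)
      (force (Nat.lor m (Nat.pow 2 k)) fun m' => force (Nat.add p q) fun p' =>
        nx (rev acc l) m' p' q))
    (force (Nat.add (Nat.mul 2 p) q) fun p' => force (Nat.mul 2 q) fun q' => ih acc p' q')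
    (Bool.rec false (free φ k acc) (free φ k l) : Bool)

noncomputable def scan (φ : V → ℕ) (nx : List (V × V) → ℕ → ℕ → ℕ → ℕ) (m : ℕ)
    (l : List (V × V)) : List (V × V) → ℕ → ℕ → ℕ :=
  List.rec (fun _ p _ => p) (fun e l ih acc p q =>
    Bool.rec
      (Bool.rec (ih (e :: acc) p q) (hit φ nx m (φ e.1) l acc ih p q) (tb m (φ e.2)))
      (Bool.rec (hit φ nx m (φ e.2) l acc ih p q) (ih (e :: acc) p q) (tb m (φ e.2)))
      (tb m (φ e.1))) l

noncomputable def run (φ : V → ℕ) (f : ℕ) : List (V × V) → ℕ → ℕ → ℕ → ℕ :=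
  Nat.rec (fun _ _ p _ => p) (fun _ ih L m p q => scan φ ih m L [] p q) f

def mk (e : V × V) : Sym2 V := s(e.1, e.2)

lemma free_true (φ : V → ℕ) (k : ℕ) : ∀ l : List (V × V), free φ k l = true →
    ∀ e ∈ l, φ e.1 ≠ k ∧ φ e.2 ≠ k
  | [], _ => by simp
  | e :: l, h => by
    change Bool.rec (Bool.rec (free φ k l) false (Nat.beq (φ e.2) k)) false
      (Nat.beq (φ e.1) k) = true at h
    cases h1 : Nat.beq (φ e.1) k <;> cases h2 : Nat.beq (φ e.2) k <;> simp [h1, h2] at h
    intro e' he'
    rcases List.mem_cons.1 he' with h3 | h3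
    · rw [h3]
      exact ⟨Nat.ne_of_beq_eq_false h1, Nat.ne_of_beq_eq_false h2⟩
    · exact free_true φ k l h e' h3

variable [DecidableEq V] [Fintype V]

def msk (φ : V → ℕ) (m : ℕ) : Finset V := univ.filter fun x => m.testBit (φ x) = true

lemma msk_or (φ : V → ℕ) (hφ : Function.Injective φ) (m : ℕ) (b : V) :
    msk φ (Nat.lor m (Nat.pow 2 (φ b))) = insert b (msk φ m) := by
  show msk φ (m ||| 2 ^ φ b) = _
  ext x
  simp only [msk, mem_filter, mem_univ, true_and, mem_insert, Nat.testBit_or,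
    Bool.or_eq_true, Nat.testBit_two_pow, decide_eq_true_eq]
  constructor
  · rintro (h | h)
    · exact Or.inr h
    · exact Or.inl (hφ h).symm
  · rintro (h | h)
    · exact Or.inr (by rw [h])
    · exact Or.inl h

lemma hit_eq (φ : V → ℕ) (hφ : Function.Injective φ) (nx : List (V × V) → ℕ → ℕ → ℕ → ℕ)
    (m : ℕ) (a b : V) (l acc : List (V × V)) (ih : List (V × V) → ℕ → ℕ → ℕ)
    (ha : m.testBit (φ a) = true) (hb : m.testBit (φ b) = false)
    (he : s(a, b) ∉ (acc ++ l).map mk)
    (h1 : ∀ p q, ih acc p q = Z ((acc ++ l).map mk).toFinset (msk φ m) p q)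
    (h2 : ∀ m p q, nx (rev acc l) m p q = Z ((acc ++ l).map mk).toFinset (msk φ m) p q) (p q : ℕ) :
    hit φ nx m (φ b) l acc ih p q =
      Z (insert s(a, b) ((acc ++ l).map mk).toFinset) (msk φ m) p q := by
  have ha' : a ∈ msk φ m := by simp [msk, ha]
  have hb' : b ∉ msk φ m := by simp [msk, hb]
  have hbr : Nat.add (ih acc p q)
      (force (Nat.lor m (Nat.pow 2 (φ b))) fun m' => force (Nat.add p q) fun p' =>
        nx (rev acc l) m' p' q) =
      Z (insert s(a, b) ((acc ++ l).map mk).toFinset) (msk φ m) p q := by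
    rw [force_eq, force_eq, h1, h2, Z_branch ha' hb' (by rwa [List.mem_toFinset]), msk_or φ hφ]
    rfl
  unfold hit
  cases f1 : free φ (φ b) l
  · exact hbr
  cases f2 : free φ (φ b) acc
  · exact hbr
  show force _ _ = _
  rw [force_eq, force_eq, h1, Z_leaf ha' hb']
  · rfl
  · intro hs
    obtain ⟨e, he, hx⟩ := mem_supp.1 hs
    simp only [List.mem_toFinset, List.mem_map, List.mem_append] at he
    obtain ⟨e', he', rfl⟩ := he
    have : φ e'.1 ≠ φ b ∧ φ e'.2 ≠ φ b := by
      rcases he' with h | h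
      · exact free_true φ _ _ f2 e' h
      · exact free_true φ _ _ f1 e' h
    rcases Sym2.mem_iff.1 hx with h4 | h4
    · exact this.1 (by rw [h4])
    · exact this.2 (by rw [h4])

lemma scan_eq (φ : V → ℕ) (hφ : Function.Injective φ) (nx : List (V × V) → ℕ → ℕ → ℕ → ℕ)
    (f : ℕ) (hnx : ∀ (L : List (V × V)) (m p q : ℕ), L.length ≤ f → (L.map mk).Nodup →
      nx L m p q = Z (L.map mk).toFinset (msk φ m) p q) (m : ℕ) :
    ∀ (l acc : List (V × V)) (p q : ℕ), (acc ++ l).length ≤ f + 1 → ((acc ++ l).map mk).Nodup →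
      (∀ e ∈ acc, m.testBit (φ e.1) = m.testBit (φ e.2)) →
      scan φ nx m l acc p q = Z ((acc ++ l).map mk).toFinset (msk φ m) p q
  | [], acc, p, q, _, _, hacc => by
    rw [Z_base]
    · rfl
    intro x y hxy hx
    simp only [List.mem_toFinset, List.mem_map, List.append_nil] at hxy
    obtain ⟨e, he, hxy⟩ := hxy
    have h1 := hacc e he
    simp only [msk, mem_filter, mem_univ, true_and] at hx ⊢
    rcases Sym2.eq_iff.1 hxy with ⟨h2, h3⟩ | ⟨h2, h3⟩
    · rw [← h3, ← h1, h2, hx]
    · rw [← h2, h1, h3, hx]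
  | e :: l, acc, p, q, hl, hn, hacc => by
    have hp : List.Perm ((acc ++ e :: l).map mk) (mk e :: (acc ++ l).map mk) := by
      rw [← List.map_cons]
      exact List.Perm.map _ List.perm_middle
    have hn' := hp.nodup_iff.1 hn
    have hE : ((acc ++ e :: l).map mk).toFinset = insert (mk e) ((acc ++ l).map mk).toFinset := by
      rw [List.toFinset_eq_of_perm _ _ hp, List.toFinset_cons]
    have hl' : (acc ++ l).length ≤ f := by
      simp at hl ⊢
      omega
    have hsk : m.testBit (φ e.1) = m.testBit (φ e.2) → scan φ nx m l (e :: acc) p q =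
        Z ((acc ++ e :: l).map mk).toFinset (msk φ m) p q := by
      intro h
      rw [scan_eq φ hφ nx f hnx m l (e :: acc) p q (by simp at hl ⊢; omega) hn', hE]
      · simp
      · intro e' he'
        rcases List.mem_cons.1 he' with h3 | h3
        · rw [h3, h]
        · exact hacc e' h3
    rw [List.nodup_cons] at hn'
    have h1 : ∀ p q, scan φ nx m l acc p q = Z ((acc ++ l).map mk).toFinset (msk φ m) p q :=
      fun p q => scan_eq φ hφ nx f hnx m l acc p q (by omega) hn'.2 hacc
    have hr : List.Perm ((rev acc l).map mk) ((acc ++ l).map mk) := by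
      rw [rev_eq]
      exact List.Perm.map _ (List.Perm.append_right _ (List.reverse_perm _))
    have h2 : ∀ m p q, nx (rev acc l) m p q = Z ((acc ++ l).map mk).toFinset (msk φ m) p q := by
      intro m p q
      rw [hnx _ _ _ _ (by rw [rev_eq]; simpa using hl') (hr.nodup_iff.2 hn'.2),
        List.toFinset_eq_of_perm _ _ hr]
    show (Bool.rec
      (Bool.rec (scan φ nx m l (e :: acc) p q) (hit φ nx m (φ e.1) l acc (scan φ nx m l) p q)
        (tb m (φ e.2)))
      (Bool.rec (hit φ nx m (φ e.2) l acc (scan φ nx m l) p q) (scan φ nx m l (e :: acc) p q)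
        (tb m (φ e.2)))
      (tb m (φ e.1)) : ℕ) = _
    rw [tb_eq, tb_eq]
    cases b1 : m.testBit (φ e.1) <;> cases b2 : m.testBit (φ e.2)
    · exact hsk (by rw [b1, b2])
    · have : mk e = s(e.2, e.1) := Sym2.eq_swap
      rw [hE, this]
      exact hit_eq φ hφ nx m e.2 e.1 l acc _ b2 b1 (this ▸ hn'.1) h1 h2 p q
    · rw [hE]
      exact hit_eq φ hφ nx m e.1 e.2 l acc _ b1 b2 hn'.1 h1 h2 p q
    · exact hsk (by rw [b1, b2])

lemma run_eq (φ : V → ℕ) (hφ : Function.Injective φ) : ∀ (f : ℕ) (L : List (V × V)) (m p q : ℕ),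
    L.length ≤ f → (L.map mk).Nodup → run φ f L m p q = Z (L.map mk).toFinset (msk φ m) p q
  | 0, L, m, p, q, hl, _ => by
    have : L = [] := List.length_eq_zero_iff.1 (by omega)
    subst this
    rw [Z_base (by simp)]
    rfl
  | f + 1, L, m, p, q, hl, hn =>
    scan_eq φ hφ (run φ f) f (run_eq φ hφ f) m L [] p q hl hn (by simp)

noncomputable def abv (φ : V → ℕ) (k : ℕ) (L : List (V × V)) : List (V × V) → List (V × V) :=
  List.rec (fun acc => acc) (fun e _ ih acc =>
    Bool.rec (ih acc) (Bool.rec (ih acc) (ih (e :: acc)) (Nat.ble k (φ e.2))) (Nat.ble k (φ e.1))) L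

omit [DecidableEq V] [Fintype V] in
lemma abv_eq (φ : V → ℕ) (k : ℕ) : ∀ L acc : List (V × V), abv φ k L acc =
    (L.filter fun e => Nat.ble k (φ e.1) && Nat.ble k (φ e.2)).reverse ++ acc
  | [], acc => rfl
  | e :: L, acc => by
    show (Bool.rec (abv φ k L acc) (Bool.rec (abv φ k L acc) (abv φ k L (e :: acc))
      (Nat.ble k (φ e.2))) (Nat.ble k (φ e.1)) : List (V × V)) = _
    rw [List.filter_cons]
    cases Nat.ble k (φ e.1) <;> cases Nat.ble k (φ e.2) <;> simp [abv_eq φ k L]

lemma sum_trees_run (φ : V → ℕ) (hφ : Function.Injective φ) (G : SimpleGraph V)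
    (L : List (V × V)) (hn : (L.map mk).Nodup)
    (hL : ∀ x y, G.Adj x y ↔ (x, y) ∈ L ∨ (y, x) ∈ L) (f : ℕ) (hf : L.length ≤ f) (p q : ℕ) :
    ∑ᶠ T : {T : G.Subgraph // T.coe.IsTree}, (p + q * (T.1.verts.ncard - 1)) =
      ∑ v, run φ f (abv φ (φ v) L []) (2 ^ φ v) p q := by
  rw [sum_trees φ hφ G (L.map mk).toFinset ?_ (fun v => ((abv φ (φ v) L []).map mk).toFinset)]
  · refine sum_congr rfl fun v _ => ?_
    rw [run_eq φ hφ _ (abv φ (φ v) L []) _ _ _]
    · congr 1
      ext x
      simp only [msk, mem_filter, mem_univ, true_and, mem_singleton, Nat.testBit_two_pow,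
        decide_eq_true_eq]
      exact ⟨fun h => by rw [h], fun h => (hφ h).symm⟩
    · rw [abv_eq, List.append_nil, List.length_reverse]
      exact (List.length_filter_le _ _).trans hf
    · rw [abv_eq, List.append_nil, List.map_reverse, List.nodup_reverse]
      exact hn.sublist (List.Sublist.map _ List.filter_sublist)
  · intro v e
    simp only [List.mem_toFinset, List.mem_map, abv_eq, List.append_nil, List.mem_reverse,
      List.mem_filter, Bool.and_eq_true, Nat.ble_eq]
    constructor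
    · rintro ⟨e', ⟨h1, h2, h3⟩, rfl⟩
      refine ⟨⟨e', h1, rfl⟩, fun x hx => ?_⟩
      rcases Sym2.mem_iff.1 hx with h4 | h4 <;> rw [h4] <;> assumption
    · rintro ⟨⟨e', h1, rfl⟩, h2⟩
      exact ⟨e', ⟨h1, h2 _ (by simp [mk]), h2 _ (by simp [mk])⟩, rfl⟩
  · ext e
    induction e using Sym2.ind with
    | h x y =>
      simp only [List.coe_toFinset, List.mem_map, Set.mem_ofPred_eq, SimpleGraph.mem_edgeSet, hL]
      constructor
      · rintro ⟨⟨a, b⟩, h1, h2⟩
        rcases Sym2.eq_iff.1 h2 with ⟨rfl, rfl⟩ | ⟨rfl, rfl⟩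
        · exact Or.inl h1
        · exact Or.inr h1
      · rintro (h | h)
        · exact ⟨_, h, rfl⟩
        · exact ⟨_, h, Sym2.eq_swap⟩

omit [DecidableEq V] in
lemma unpack (G : SimpleGraph V) (M C S : ℕ) (hC : C < M) (hS : S + 1 < M)
    (h : ∑ᶠ T : {T : G.Subgraph // T.coe.IsTree}, ((M + 1) + M * (T.1.verts.ncard - 1)) =
      M * S + C) :
    Nat.card {T : G.Subgraph // T.coe.IsTree} = C ∧
      ∑ᶠ T : {T : G.Subgraph // T.coe.IsTree}, T.1.verts.ncard = S := by
  classical
  have : Fintype {T : G.Subgraph // T.coe.IsTree} := Fintype.ofFinite _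
  rw [finsum_eq_sum_of_fintype] at h ⊢
  have hpos : ∀ T : {T : G.Subgraph // T.coe.IsTree}, 1 ≤ T.1.verts.ncard := by
    intro T
    obtain ⟨⟨v, hv⟩⟩ := T.2.connected.nonempty
    exact (Set.ncard_pos (Set.toFinite _)).2 ⟨v, hv⟩
  have h1 : ∑ T : {T : G.Subgraph // T.coe.IsTree}, ((M + 1) + M * (T.1.verts.ncard - 1)) =
      M * ∑ T : {T : G.Subgraph // T.coe.IsTree}, T.1.verts.ncard +
        Nat.card {T : G.Subgraph // T.coe.IsTree} := by
    rw [Nat.card_eq_fintype_card, ← card_univ, card_eq_sum_ones, mul_sum, ← sum_add_distrib]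
    refine sum_congr rfl fun T _ => ?_
    obtain ⟨k, hk⟩ := Nat.exists_eq_add_of_le (hpos T)
    rw [hk, Nat.add_sub_cancel_left]
    ring
  have h2 : Nat.card {T : G.Subgraph // T.coe.IsTree} ≤
      ∑ T : {T : G.Subgraph // T.coe.IsTree}, T.1.verts.ncard := by
    rw [Nat.card_eq_fintype_card, ← card_univ, card_eq_sum_ones]
    exact sum_le_sum fun T _ => hpos T
  rw [h1] at h
  generalize Nat.card {T : G.Subgraph // T.coe.IsTree} = c at *
  generalize ∑ T : {T : G.Subgraph // T.coe.IsTree}, T.1.verts.ncard = s at *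
  have h3 : s < S + 1 := by
    by_contra h4
    have : M * (S + 1) ≤ M * s := Nat.mul_le_mul_left _ (by omega)
    rw [mul_add] at this
    omega
  have h5 : c < M := by omega
  have h6 : (M * s + c) % M = (M * S + C) % M := by rw [h]
  rw [Nat.mul_add_mod, Nat.mul_add_mod, Nat.mod_eq_of_lt h5, Nat.mod_eq_of_lt hC] at h6
  refine ⟨h6, ?_⟩
  have : M * s = M * S := by omega
  exact Nat.eq_of_mul_eq_mul_left (by omega) this

end exec

end Pool.Agent.Lib.helper1.Subtree
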