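import Mathlib

namespace Pool.Agent.Lib.helper1.Menger

open Finset Relation Classical

variable {V : Type} [Fintype V] {G : SimpleGraph V} {u v : V}

/-- number of edges leaving `S` -/
noncomputable def cut (G : SimpleGraph V) (S : Finset V) : ℕ :=
  ∑ a, ∑ b, if a ∈ S ∧ b ∉ S ∧ G.Adj a b then 1 else 0

noncomputable def ind (u a : V) : ℤ := if a = u then 1 else 0

def Cons (u v : V) (j : ℤ) (f : V → V → ℤ) : Prop :=
  (∀ a b, f a b = -f b a) ∧ ∀ a, ∑ b, f a b = j * (ind u a - ind v a)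

def IsFlow (G : SimpleGraph V) (u v : V) (j : ℤ) (f : V → V → ℤ) : Prop :=
  Cons u v j f ∧ (∀ a b, f a b ≤ 1) ∧ ∀ a b, ¬ G.Adj a b → f a b = 0

theorem val {j f} (h : Cons u v j f) (S : Finset V) (hu : u ∈ S) (hv : v ∉ S) :
    ∑ a, ∑ b, (if a ∈ S ∧ b ∉ S then f a b else 0) = j := by
  have e1 : ∑ a, ∑ b, (if a ∈ S ∧ b ∈ S then f a b else 0) = 0 := by
    have : ∑ a, ∑ b, (if a ∈ S ∧ b ∈ S then f a b else 0) =
        -∑ a, ∑ b, (if a ∈ S ∧ b ∈ S then f a b else 0) := by
      nth_rewrite 2 [sum_comm]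
      simp only [← sum_neg_distrib]
      refine sum_congr rfl fun a _ => sum_congr rfl fun b _ => ?_
      rw [h.1 a b]
      by_cases a ∈ S <;> by_cases b ∈ S <;> simp [*]
    omega
  have e2 : ∑ a, (if a ∈ S then ∑ b, f a b else 0) = j := by
    simp only [h.2, sum_ite_mem, univ_inter, ← mul_sum, sum_sub_distrib, ind, sum_ite_eq', hu, hv]
    simp
  rw [← e2, ← zero_add (∑ a, _), ← e1, ← sum_add_distrib]
  refine sum_congr rfl fun a _ => ?_
  rw [← sum_add_distrib]
  by_cases a ∈ S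
  · simp only [*, true_and, if_true]
    refine sum_congr rfl fun b _ => ?_
    by_cases b ∈ S <;> simp [*]
  · simp [*]

theorem unit0 (p : G.Walk u v) (hp : p.IsTrail) : ∃ g, Cons u v 1 g ∧
    (∀ a b, s(a, b) ∉ p.edges → g a b = 0) ∧ ∀ d ∈ p.darts, g d.fst d.snd = 1 := by
  induction p with
  | nil => exact ⟨fun _ _ => 0, ⟨by simp, by simp⟩, by simp, by simp⟩
  | @cons x y z h q ih =>
    rw [SimpleGraph.Walk.isTrail_cons] at hp
    obtain ⟨g, ⟨g1, g2⟩, g3, g4⟩ := ih hp.1
    refine ⟨fun a b => ind x a * ind y b - ind y a * ind x b + g a b,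
      ⟨fun a b => by have := g1 a b; simp only; linarith, fun a => ?_⟩, fun a b m => ?_, fun d m => ?_⟩
    · simp only [sum_add_distrib, sum_sub_distrib, ← mul_sum, g2]
      simp [ind]
    · simp only [SimpleGraph.Walk.edges_cons, List.mem_cons, not_or, Sym2.eq_iff] at m
      simp only [g3 a b m.2]
      clear g1 g2 g3 g4 ih
      unfold ind
      split_ifs <;> simp_all
    · rcases List.mem_cons.1 m with rfl | m
      · simp [g3 _ _ hp.2, ind, h.ne, h.ne']
      · have : s(d.fst, d.snd) ≠ s(x, y) := fun e =>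
          hp.2 (e ▸ List.mem_map_of_mem (f := SimpleGraph.Dart.edge) m)
        simp only [ne_eq, Sym2.eq_iff, not_or] at this
        simp only [g4 d m]
        clear g1 g2 g3 g4 ih
        unfold ind
        split_ifs <;> simp_all

theorem unit (r : V → V → Prop) (hr : ∀ a b, r a b → G.Adj a b) (h : ReflTransGen r u v) :
    ∃ p : G.Walk u v, p.IsPath ∧ ∃ g, Cons u v 1 g ∧ ∀ a b, (s(a, b) ∉ p.edges ∧ g a b = 0) ∨
      (s(a, b) ∈ p.edges ∧ ((r a b ∧ g a b = 1) ∨ (r b a ∧ g a b = -1))) := by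
  obtain ⟨w, hw⟩ : ∃ w : G.Walk u v, ∀ d ∈ w.darts, r d.fst d.snd := by
    induction h using ReflTransGen.head_induction_on with
    | refl => exact ⟨.nil, by simp⟩
    | head e _ ih =>
      obtain ⟨w, hw⟩ := ih
      exact ⟨.cons (hr _ _ e) w, by simpa [e] using hw⟩
  obtain ⟨g, g1, g2, g3⟩ := unit0 w.bypass w.bypass_isPath.isTrail
  refine ⟨w.bypass, w.bypass_isPath, g, g1, fun a b => ?_⟩
  by_cases m : s(a, b) ∈ w.bypass.edges
  · refine Or.inr ⟨m, ?_⟩
    obtain ⟨d, hd, e⟩ := List.mem_map.1 m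
    have h1 := hw d (w.darts_bypass_subset_darts hd)
    have h2 := g3 d hd
    rcases Sym2.eq_iff.1 e with ⟨rfl, rfl⟩ | ⟨rfl, rfl⟩
    · exact Or.inl ⟨h1, h2⟩
    · exact Or.inr ⟨h1, by rw [g1.1, h2]⟩
  · exact Or.inl ⟨m, g2 a b m⟩

theorem flow (k : ℕ) (h : ∀ S : Finset V, u ∈ S → v ∉ S → k ≤ cut G S) :
    ∃ f, IsFlow G u v k f := by
  induction k with
  | zero => exact ⟨fun _ _ => 0, ⟨by simp, by simp⟩, by simp, by simp⟩
  | succ k ih =>
    obtain ⟨f, f1, f2, f3⟩ := ih fun S a b => (Nat.le_succ _).trans (h S a b)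
    by_cases c : ReflTransGen (fun a b => G.Adj a b ∧ f a b ≤ 0) u v
    · obtain ⟨p, -, g, g1, g2⟩ := unit _ (fun _ _ e => e.1) c
      refine ⟨fun a b => f a b + g a b, ⟨fun a b => by have := f1.1 a b; have := g1.1 a b; simp only; omega, fun a => ?_⟩,
        fun a b => ?_, fun a b n => ?_⟩
      · rw [sum_add_distrib, f1.2, g1.2]; push_cast; ring
      · have := f2 a b
        rcases g2 a b with e | ⟨_, e | e⟩ <;> simp only <;> omega
      · rcases g2 a b with e | ⟨_, e | e⟩
        · simp [f3 a b n, e.2]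
        · exact absurd e.1.1 n
        · exact absurd e.1.1.symm n
    · let S := univ.filter (ReflTransGen (fun a b => G.Adj a b ∧ f a b ≤ 0) u)
      have hu : u ∈ S := mem_filter.2 ⟨mem_univ _, .refl⟩
      have hv : v ∉ S := fun m => c (mem_filter.1 m).2
      have h1 := h S hu hv
      have h2 : (cut G S : ℤ) ≤ k := by
        rw [← val f1 S hu hv, cut]
        push_cast
        refine sum_le_sum fun a _ => sum_le_sum fun b _ => ?_
        by_cases x : a ∈ S ∧ b ∉ S
        · by_cases y : G.Adj a b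
          · have : ¬ f a b ≤ 0 := fun z =>
              x.2 (mem_filter.2 ⟨mem_univ _, (mem_filter.1 x.1).2.tail ⟨y, z⟩⟩)
            simp only [x, y, not_false_eq_true, and_self, if_true]
            omega
          · simp [f3 a b y, y]
        · rw [if_neg x, if_neg fun z => x ⟨z.1, z.2.1⟩]
      omega

theorem paths (k : ℕ) : ∀ f, IsFlow G u v k f → ∃ p : Fin k → G.Walk u v, (∀ i, (p i).IsPath) ∧
    Pairwise (fun i j => List.Disjoint (p i).edges (p j).edges) ∧
    ∀ i a b, s(a, b) ∈ (p i).edges → f a b ≠ 0 := by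
  induction k with
  | zero => exact fun _ _ => ⟨fun i => i.elim0, fun i => i.elim0, fun i => i.elim0, fun i => i.elim0⟩
  | succ k ih =>
    rintro f ⟨f1, f2, f3⟩
    have c : ReflTransGen (fun a b => f a b = 1) u v := by
      by_contra c
      let S := univ.filter (ReflTransGen (fun a b => f a b = 1) u)
      have := val f1 S (mem_filter.2 ⟨mem_univ _, .refl⟩) fun m => c (mem_filter.1 m).2
      have h2 : ∑ a, ∑ b, (if a ∈ S ∧ b ∉ S then f a b else 0) ≤ 0 :=
        sum_nonpos fun a _ => sum_nonpos fun b _ => by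
          split_ifs with x
          · have := f2 a b
            have : f a b ≠ 1 := fun z =>
              x.2 (mem_filter.2 ⟨mem_univ _, (mem_filter.1 x.1).2.tail z⟩)
            omega
          · rfl
      omega
    obtain ⟨p, hp, g, g1, g2⟩ := unit (G := G) _
      (fun a b e => by_contra fun n => by rw [f3 a b n] at e; omega) c
    have g3 : ∀ a b, (s(a, b) ∉ p.edges ∧ g a b = 0) ∨
        (s(a, b) ∈ p.edges ∧ f a b = g a b ∧ f a b ≠ 0) := fun a b => by
      have := f1.1 a b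
      rcases g2 a b with e | ⟨m, e | e⟩
      exacts [.inl e, .inr ⟨m, by omega⟩, .inr ⟨m, by omega⟩]
    obtain ⟨q, q1, q2, q3⟩ := ih (fun a b => f a b - g a b)
      ⟨⟨fun a b => by have := f1.1 a b; have := g1.1 a b; simp only; omega, fun a => by
        rw [sum_sub_distrib, f1.2, g1.2]; push_cast; ring⟩, fun a b => by
        have := f2 a b
        rcases g3 a b with e | e <;> simp only <;> omega, fun a b n => by
        have := f3 a b n
        rcases g3 a b with e | e <;> simp only <;> omega⟩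
    have q4 : ∀ i, List.Disjoint p.edges (q i).edges := fun i e m m' => by
      induction e using Sym2.ind with
      | h a b =>
      have := q3 i a b m'
      rcases g3 a b with e | e
      · exact e.1 m
      · omega
    refine ⟨Fin.cons p q, fun i => ?_, fun i j n => ?_, fun i a b => ?_⟩
    · induction i using Fin.cases
      exacts [hp, q1 _]
    · induction i using Fin.cases <;> induction j using Fin.cases
      exacts [absurd rfl n, q4 _, (q4 _).symm, q2 fun e => n (congrArg _ e)]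
    · induction i using Fin.cases with
      | zero => exact fun m => ((g3 a b).resolve_left fun e => e.1 m).2.2
      | succ i =>
        intro m
        have := q3 i a b m
        rcases g3 a b with e | e <;> omega

/-- edge version of Menger's theorem -/
theorem menger (k : ℕ) (h : ∀ S : Finset V, u ∈ S → v ∉ S → k ≤ cut G S) :
    ∃ p : Fin k → G.Walk u v, (∀ i, (p i).IsPath) ∧
      Pairwise (fun i j => List.Disjoint (p i).edges (p j).edges) := by
  obtain ⟨f, hf⟩ := flow k h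
  obtain ⟨p, a, b, -⟩ := paths k f hf
  exact ⟨p, a, b⟩

theorem cut_compl (S : Finset V) : cut G Sᶜ = cut G S := by
  unfold cut
  rw [sum_comm]
  refine sum_congr rfl fun a _ => sum_congr rfl fun b _ => if_congr ?_ rfl rfl
  simp only [mem_compl, not_not, G.adj_comm b a]
  tauto

theorem cut_sub (X Y : Finset V) : cut G (X ∩ Y) + cut G (X ∪ Y) ≤ cut G X + cut G Y := by
  simp only [cut, ← sum_add_distrib, mem_inter, mem_union]
  refine sum_le_sum fun a _ => sum_le_sum fun b _ => ?_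
  by_cases a ∈ X <;> by_cases a ∈ Y <;> by_cases b ∈ X <;> by_cases b ∈ Y <;>
    by_cases G.Adj a b <;> simp [*]

/-- a small cut isolating one terminal -/
theorem isolate (k : ℕ) (h : ∀ u v : V, u ≠ v → ∃ S, u ∈ S ∧ v ∉ S ∧ cut G S ≤ k) (T : Finset V)
    (hT : 1 < T.card) : ∃ X s, cut G X ≤ k ∧ X ∩ T = {s} := by
  have mn : ∀ s t : V, s ≠ t → ∃ X, s ∈ X ∧ t ∉ X ∧ ∀ Y, s ∈ Y → t ∉ Y → cut G X ≤ cut G Y := by
    intro s t n
    obtain ⟨X, hX, m⟩ := (univ.filter fun X : Finset V => s ∈ X ∧ t ∉ X).exists_min_image (cut G)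
      ⟨{s}, by simp [n.symm]⟩
    simp only [mem_filter, mem_univ, true_and] at hX m
    exact ⟨X, hX.1, hX.2, fun Y a b => m Y ⟨a, b⟩⟩
  obtain ⟨X, hX, m⟩ := (univ.filter fun X : Finset V => ∃ s ∈ T, ∃ t ∈ T, s ∈ X ∧ t ∉ X ∧
      ∀ Y, s ∈ Y → t ∉ Y → cut G X ≤ cut G Y).exists_min_image (fun X => (X ∩ T).card) (by
    obtain ⟨s, hs, t, ht, n⟩ := one_lt_card.1 hT
    obtain ⟨X, hX⟩ := mn s t n
    exact ⟨X, mem_filter.2 ⟨mem_univ _, s, hs, t, ht, hX⟩⟩)
  simp only [mem_filter, mem_univ, true_and] at hX m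
  obtain ⟨s, hs, t, ht, sx, tx, mx⟩ := hX
  obtain ⟨S, s1, s2, s3⟩ := h s t (by rintro rfl; exact tx sx)
  refine ⟨X, s, (mx S s1 s2).trans s3, eq_singleton_iff_unique_mem.2
    ⟨mem_inter.2 ⟨sx, hs⟩, fun b hb => by_contra fun n => ?_⟩⟩
  rw [mem_inter] at hb
  have key : ∀ x y Y, x ∈ X ∩ T → y ∈ X ∩ T → x ∈ Y → y ∉ Y → t ∉ Y →
      (∀ Z, x ∈ Z → y ∉ Z → cut G Y ≤ cut G Z) → False := by
    intro x y Y hx hy xy yy ty my
    rw [mem_inter] at hx hy
    have h1 := cut_sub (G := G) X Y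
    have h2 := mx (X ∪ Y) (mem_union_left _ sx) (by simp [tx, ty])
    have h3 := m (X ∩ Y) ⟨x, hx.2, y, hy.2, mem_inter.2 ⟨hx.1, xy⟩, by simp [yy], fun Z a c => by
      have := my Z a c; omega⟩
    refine h3.not_gt (card_lt_card ⟨inter_subset_inter inter_subset_left (Subset.refl _),
      fun g => yy ?_⟩)
    exact (mem_inter.1 (mem_inter.1 (g (mem_inter.2 hy))).1).2
  obtain ⟨Y, y1, y2, y3⟩ := mn s b (Ne.symm n)
  by_cases g : t ∈ Y
  · refine key b s Yᶜ (mem_inter.2 hb) (mem_inter.2 ⟨sx, hs⟩) (by simpa) (by simpa) (by simpa)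
      fun Z a c => ?_
    rw [cut_compl, ← cut_compl Z]
    exact y3 _ (by simpa) (by simpa)
  · exact key s b Y (mem_inter.2 ⟨sx, hs⟩) (mem_inter.2 hb) y1 y2 g y3

/-- indicator vectors of small cuts span everything -/
theorem span_top (F : Type) [Field F] (k : ℕ)
    (h : ∀ u v : V, u ≠ v → ∃ S, u ∈ S ∧ v ∉ S ∧ cut G S ≤ k) (f : V → F) :
    f ∈ Submodule.span F (Set.range fun X : {X : Finset V // cut G X ≤ k} =>
      fun a => if a ∈ X.1 then (1 : F) else 0) := by
  set W := Submodule.span F (Set.range fun X : {X : Finset V // cut G X ≤ k} =>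
      fun a => if a ∈ X.1 then (1 : F) else 0)
  have : ∀ T : Finset V, ∃ g ∈ W, ∀ a ∈ T, g a = f a := by
    intro T
    induction T using Finset.strongInduction with
    | H T ih =>
    rcases T.eq_empty_or_nonempty with rfl | ne
    · exact ⟨0, W.zero_mem, by simp⟩
    obtain ⟨X, s, h1, h2⟩ : ∃ X s, cut G X ≤ k ∧ X ∩ T = {s} := by
      by_cases c : 1 < T.card
      · exact isolate k h T c
      · obtain ⟨s, rfl⟩ := card_eq_one.1 (le_antisymm (not_lt.1 c) ne.card_pos)
        exact ⟨univ, s, by simp [cut], by simp⟩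
    have m := mem_inter.1 (h2 ▸ mem_singleton_self s : s ∈ X ∩ T)
    obtain ⟨g, g1, g2⟩ := ih _ (erase_ssubset m.2)
    refine ⟨g + (f s - g s) • fun a => if a ∈ X then (1 : F) else 0,
      W.add_mem g1 (W.smul_mem _ (Submodule.subset_span ⟨⟨X, h1⟩, rfl⟩)), fun a ha => ?_⟩
    by_cases e : a = s
    · simp [e, m.1]
    · have : a ∉ X := fun z => e (mem_singleton.1 (h2 ▸ mem_inter.2 ⟨z, ha⟩))
      simp [this, g2 a (mem_erase.2 ⟨e, ha⟩)]
  obtain ⟨g, g1, g2⟩ := this univ
  exact (funext fun a => g2 a (mem_univ _) : g = f) ▸ g1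

end Pool.Agent.Lib.helper1.Menger
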