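import Mathlib

set_option autoImplicit false

namespace Pool.Agent.Lib.helper1

/-- the list of values of a permutation of `Fin n` -/
def permList {n : ℕ} (σ : Equiv.Perm (Fin n)) : List ℕ := List.ofFn (fun i => (σ i).val)

lemma permList_getD {n : ℕ} (σ : Equiv.Perm (Fin n)) (i : Fin n) :
    (permList σ).getD i.val 0 = (σ i).val := by
  simp [permList, List.getD_eq_getElem?_getD]

lemma permList_perm {n : ℕ} (σ : Equiv.Perm (Fin n)) : (permList σ).Perm (List.range n) := by
  have h := Equiv.Perm.ofFn_comp_perm σ (fun i : Fin n => i.val)
  have h2 : List.ofFn (fun i : Fin n => i.val) = List.range n := by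
    apply List.ext_getElem <;> simp
  rw [h2] at h
  exact h

lemma permList_inj {n : ℕ} : Function.Injective (permList (n := n)) := by
  intro σ τ h
  have := List.ofFn_injective h
  ext i
  exact congrFun this i

lemma exists_permList {n : ℕ} (l : List ℕ) (h : l.Perm (List.range n)) :
    ∃ σ : Equiv.Perm (Fin n), permList σ = l := by
  have hlen : l.length = n := by simpa using h.length_eq
  have hnd : l.Nodup := h.nodup_iff.mpr List.nodup_range
  have hlt : ∀ i : Fin n, l[i.val]'(by omega) < n := fun i =>
    List.mem_range.mp (h.subset (List.getElem_mem _))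
  let f : Fin n → Fin n := fun i => ⟨l[i.val]'(by omega), hlt i⟩
  have hf : Function.Injective f := by
    intro i j hij
    have h1 : l[i.val]'(by omega) = l[j.val]'(by omega) := congrArg Fin.val hij
    exact Fin.ext ((List.Nodup.getElem_inj_iff hnd).mp h1)
  refine ⟨Equiv.ofBijective f (Finite.injective_iff_bijective.mp hf), ?_⟩
  apply List.ext_getElem
  · simp [permList, hlen]
  · intro i h1 h2
    simp [permList, f]

/-- counting permutations of `Fin n` by running through `List.permutations'` (fast in the kernel) -/
theorem card_filter_perm (n : ℕ) (q : List ℕ → Bool) (Q : Equiv.Perm (Fin n) → Prop)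
    [DecidablePred Q] (hQ : ∀ σ, Q σ ↔ q (permList σ) = true) :
    (Finset.univ.filter Q).card = (List.range n).permutations'.countP q := by
  have hnd : (List.range n).permutations'.Nodup :=
    (List.permutations_perm_permutations' _).nodup_iff.mp (List.nodup_permutations _ List.nodup_range)
  rw [List.countP_eq_length_filter, ← List.toFinset_card_of_nodup (hnd.filter _)]
  apply Finset.card_bij (fun σ _ => permList σ)
  · intro σ hσ
    simp only [Finset.mem_filter, Finset.mem_univ, true_and] at hσ
    simp only [List.mem_toFinset, List.mem_filter, List.mem_permutations']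
    exact ⟨permList_perm σ, (hQ σ).mp hσ⟩
  · intro σ _ τ _ h
    exact permList_inj h
  · intro l hl
    simp only [List.mem_toFinset, List.mem_filter, List.mem_permutations'] at hl
    obtain ⟨σ, rfl⟩ := exists_permList l hl.1
    exact ⟨σ, by simpa using (hQ σ).mpr hl.2, rfl⟩

end Pool.Agent.Lib.helper1
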