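import Mathlib
import Pool.Agent.Lib.helper1.Mask

set_option autoImplicit false
open Finset

namespace Pool.Agent.Lib.helper1.LC
open Pool.Agent.Lib.helper1.Mask

variable {n : ℕ}

/-- `X`, `Y` are joined through already glued pairs of facets that all contain `e`. -/
def Conn (G : Finset (Finset (Fin n) × Finset (Fin n))) (e : Finset (Fin n)) :
    Finset (Fin n) → Finset (Fin n) → Prop :=
  Relation.ReflTransGen fun X Y => ((X, Y) ∈ G ∨ (Y, X) ∈ G) ∧ e ⊆ X ∧ e ⊆ Y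

/-- the face `R` of the simplex `F` has not been glued yet. -/
def Free (G : Finset (Finset (Fin n) × Finset (Fin n))) (F R : Finset (Fin n)) : Prop :=
  ∀ p ∈ G, p.1 = F ∨ p.2 = F → p.1 ∩ p.2 ≠ R

/-- stages of a local construction: simplices used so far, and pairs glued so far. -/
inductive Build (d : ℕ) (K : Finset (Finset (Fin n))) :
    Finset (Finset (Fin n)) → Finset (Finset (Fin n) × Finset (Fin n)) → Prop
  | start (F : Finset (Fin n)) : F ∈ K → F.card = d + 1 → Build d K {F} ∅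
  | attach (P : Finset (Finset (Fin n))) (G : Finset (Finset (Fin n) × Finset (Fin n)))
      (F F' : Finset (Fin n)) : Build d K P G → F ∈ P → F' ∈ K → F' ∉ P → F'.card = d + 1 →
      (F ∩ F').card = d → Free G F (F ∩ F') → Build d K (insert F' P) (insert (F, F') G)
  | glue (P : Finset (Finset (Fin n))) (G : Finset (Finset (Fin n) × Finset (Fin n)))
      (F F' e : Finset (Fin n)) : Build d K P G → F ∈ P → F' ∈ P → (F ∩ F').card = d →
      Free G F (F ∩ F') → Free G F' (F ∩ F') → e ⊆ F ∩ F' → e.card + 1 = d → Conn G e F F' →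
      Build d K P (insert (F, F') G)

def IsLC (d : ℕ) (K : Finset (Finset (Fin n))) : Prop :=
  ∃ P G, Build d K P G ∧ (∀ σ ∈ K, ∃ F ∈ P, σ ⊆ F) ∧
    ∀ F ∈ P, ∀ F' ∈ P, (F ∩ F').Nonempty → Conn G (F ∩ F') F F'

theorem conn_symm {G : Finset (Finset (Fin n) × Finset (Fin n))} {e X Y : Finset (Fin n)}
    (h : Conn G e X Y) : Conn G e Y X := by
  induction h with
  | refl => exact .refl
  | tail _ a b => exact .head ⟨a.1.symm, a.2.symm⟩ b

def pp (n : ℕ) (P : List ℕ) : Finset (Finset (Fin n)) := (P.map (f n)).toFinset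
def gg (n : ℕ) (G : List (ℕ × ℕ)) : Finset (Finset (Fin n) × Finset (Fin n)) :=
  (G.map fun p => (f n p.1, f n p.2)).toFinset

def mem (a : ℕ) (P : List ℕ) : Bool := P.any (Nat.beq a)

theorem mem_iff {a : ℕ} {P : List ℕ} : mem a P = true ↔ a ∈ P := by simp [mem]

def adj (G : List (ℕ × ℕ)) (a b : ℕ) : Bool :=
  G.any fun p => (Nat.beq p.1 a && Nat.beq p.2 b) || (Nat.beq p.1 b && Nat.beq p.2 a)

theorem adj_gg {G : List (ℕ × ℕ)} {a b : ℕ} (h : adj G a b = true) :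
    (f n a, f n b) ∈ gg n G ∨ (f n b, f n a) ∈ gg n G := by
  simp only [adj, List.any_eq_true, Bool.or_eq_true, Bool.and_eq_true, Nat.beq_eq] at h
  obtain ⟨p, x, ⟨rfl, rfl⟩ | ⟨rfl, rfl⟩⟩ := h
  exacts [Or.inl (List.mem_toFinset.2 (List.mem_map.2 ⟨p, x, rfl⟩)),
    Or.inr (List.mem_toFinset.2 (List.mem_map.2 ⟨p, x, rfl⟩))]

def walk (G : List (ℕ × ℕ)) (e b : ℕ) : ℕ → List ℕ → Bool
  | a, [] => Nat.beq a b
  | a, x :: r => adj G a x && sub e a && sub e x && walk G e b x r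

theorem walk_conn {G : List (ℕ × ℕ)} {e b : ℕ} (r : List ℕ) : ∀ a, walk G e b a r = true →
    Conn (gg n G) (f n e) (f n a) (f n b) := by
  induction r with
  | nil =>
    intro a h
    rw [Nat.eq_of_beq_eq_true h]
    exact .refl
  | cons x r ih =>
    intro a h
    simp only [walk, Bool.and_eq_true] at h
    exact .head ⟨adj_gg h.1.1.1, sub_f h.1.1.2, sub_f h.1.2⟩ (ih x h.2)

def free (G : List (ℕ × ℕ)) (a r : ℕ) : Bool :=
  G.all fun p => !(Nat.beq p.1 a || Nat.beq p.2 a) || !Nat.beq (p.1 &&& p.2) r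

theorem free_ok {G : List (ℕ × ℕ)} {a b c : ℕ} (hG : ∀ p ∈ G, p.1 < 2 ^ n ∧ p.2 < 2 ^ n)
    (ha : a < 2 ^ n) (hb : b < 2 ^ n) (h : free G a (b &&& c) = true) :
    Free (gg n G) (f n a) (f n b ∩ f n c) := by
  intro p hp x y
  obtain ⟨q, hq, rfl⟩ := List.mem_map.1 (List.mem_toFinset.1 hp)
  have := List.all_eq_true.1 h q hq
  rw [← f_and, ← f_and] at y
  have y := f_inj (Nat.and_le_left.trans_lt (hG q hq).1) (Nat.and_le_left.trans_lt hb) y
  rw [y] at this
  rcases x with x | x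
  · simp [f_inj (hG q hq).1 ha x] at this
  · simp [f_inj (hG q hq).2 ha x] at this

def tree (P : List ℕ) (G : List (ℕ × ℕ)) (t : ℕ) : List ℕ → List (ℕ × ℕ) → Bool
  | acc, [] => P.all fun F => !sub t F || mem F acc
  | acc, p :: r => mem p.2 acc && adj G p.2 p.1 && sub t p.1 && tree P G t (p.1 :: acc) r

theorem tree_ok {P : List ℕ} {G : List (ℕ × ℕ)} {t : ℕ} {z : Finset (Fin n)} (r : List (ℕ × ℕ)) :
    ∀ acc, (∀ y ∈ acc, Conn (gg n G) (f n t) z (f n y) ∧ f n t ⊆ f n y) →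
      tree P G t acc r = true → ∀ F ∈ P, sub t F = true → Conn (gg n G) (f n t) z (f n F) := by
  induction r with
  | nil =>
    intro acc h x F hF s
    have := List.all_eq_true.1 x F hF
    simp only [s, Bool.not_true, Bool.false_or, mem_iff] at this
    exact (h F this).1
  | cons p r ih =>
    intro acc h x
    simp only [tree, Bool.and_eq_true, mem_iff] at x
    refine ih _ (fun y hy => ?_) x.2
    rcases List.mem_cons.1 hy with rfl | hy
    · exact ⟨(h _ x.1.1.1).1.tail ⟨adj_gg x.1.1.2, (h _ x.1.1.1).2, sub_f x.1.2⟩, sub_f x.1.2⟩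
    · exact h y hy

def fin (M : ℕ) (l P : List ℕ) (G : List (ℕ × ℕ)) (C : List (ℕ × ℕ × List (ℕ × ℕ))) : Bool :=
  (l.all fun m => mem m P) && (P.all fun a => P.all fun b => Nat.beq (a &&& b) 0 ||
    M.testBit (a &&& b)) &&
    C.all fun c => sub c.1 c.2.1 && tree P G c.1 [c.2.1] c.2.2

def lcRun (n d M : ℕ) (l : List ℕ) (C : List (ℕ × ℕ × List (ℕ × ℕ))) :
    List ℕ → List (ℕ × ℕ) → List (ℕ × ℕ × ℕ × List ℕ) → Bool
  | P, G, [] => fin M l P G C
  | P, G, s :: r => mem s.1 P && mem s.2.1 l && Nat.beq (pc n (s.1 &&& s.2.1)) d &&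
      free G s.1 (s.1 &&& s.2.1) && bif mem s.2.1 P then free G s.2.1 (s.1 &&& s.2.1) &&
        sub s.2.2.1 (s.1 &&& s.2.1) && Nat.beq (pc n s.2.2.1 + 1) d &&
        walk G s.2.2.1 s.2.1 s.1 s.2.2.2 && lcRun n d M l C P ((s.1, s.2.1) :: G) r
      else lcRun n d M l C (s.2.1 :: P) ((s.1, s.2.1) :: G) r

theorem lc_ok {d M : ℕ} {l : List ℕ} {C : List (ℕ × ℕ × List (ℕ × ℕ))}
    (hM : M = big (C.map Prod.fst))
    (hl : ∀ m ∈ l, m < 2 ^ n ∧ pc n m = d + 1) (r : List (ℕ × ℕ × ℕ × List ℕ)) :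
    ∀ P G, (∀ a ∈ P, a ∈ l) → (∀ p ∈ G, p.1 < 2 ^ n ∧ p.2 < 2 ^ n) →
      Build d (cx n l) (pp n P) (gg n G) → lcRun n d M l C P G r = true → IsLC d (cx n l) := by
  have mp : ∀ {a : ℕ} {P : List ℕ}, a ∈ P → f n a ∈ pp n P := fun h =>
    List.mem_toFinset.2 (List.mem_map_of_mem h)
  induction r with
  | nil =>
    intro P G hP hG b h
    simp only [lcRun, fin, Bool.and_eq_true, List.all_eq_true, mem_iff, Bool.or_eq_true,
      Nat.beq_eq] at h
    refine ⟨_, _, b, fun σ hσ => ?_, fun F hF F' hF' x => ?_⟩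
    · obtain ⟨m, x, y⟩ := mem_cx.1 hσ
      exact ⟨_, mp (h.1.1 m x), y⟩
    · obtain ⟨a, ha, rfl⟩ := List.mem_map.1 (List.mem_toFinset.1 hF)
      obtain ⟨b, hb, rfl⟩ := List.mem_map.1 (List.mem_toFinset.1 hF')
      rw [← f_and] at x ⊢
      rcases h.1.2 a ha b hb with e | e
      · obtain ⟨i, hi⟩ := x
        simp [e, mem_f] at hi
      · obtain ⟨c, hc, e⟩ := List.mem_map.1 (big_mem (hM ▸ e))
        have t := tree_ok (n := n) (z := f n c.2.1) _ _ (by
          simpa using ⟨.refl, sub_f (h.2 c hc).1⟩) (h.2 c hc).2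
        have lt := (Nat.and_le_left (n := a) (m := b)).trans_lt (hl a (hP a ha)).1
        rw [e] at t
        have sy : ∀ X Y, Conn (gg n G) (f n (a &&& b)) X Y → Conn (gg n G) (f n (a &&& b)) Y X :=
          fun X Y h => conn_symm h
        exact (sy _ _ (t a ha (f_sub lt (by simp [f_and])))).trans
          (t b hb (f_sub lt (by simp [f_and])))
  | cons s r ih =>
    intro P G hP hG b h
    simp only [lcRun, Bool.and_eq_true, mem_iff, Nat.beq_eq] at h
    obtain ⟨⟨⟨⟨h1, h2⟩, h3⟩, h4⟩, h5⟩ := h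
    have a1 := (hl _ (hP _ h1)).1
    have a2 := (hl _ h2).1
    have hG' : ∀ p ∈ (s.1, s.2.1) :: G, p.1 < 2 ^ n ∧ p.2 < 2 ^ n := by
      simpa [a1, a2] using fun a b h => hG (a, b) h
    have e : gg n ((s.1, s.2.1) :: G) = insert (f n s.1, f n s.2.1) (gg n G) := by simp [gg]
    rw [← card_f, f_and] at h3
    by_cases c : mem s.2.1 P = true
    · simp only [c, cond_true, Bool.and_eq_true, Nat.beq_eq] at h5
      refine ih P _ hP hG' (e ▸ .glue _ _ _ _ (f n s.2.2.1) b (mp h1) (mp (mem_iff.1 c)) h3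
        (free_ok hG a1 a1 h4) (free_ok hG a2 a1 h5.1.1.1.1) (f_and s.1 _ ▸ sub_f h5.1.1.1.2)
        (card_f _ ▸ h5.1.1.2) (walk_conn _ _ h5.1.2)) h5.2
    · have c' : mem s.2.1 P = false := by simpa using c
      simp only [c', cond_false] at h5
      refine ih _ _ (by simpa [h2] using hP) hG' ?_ h5
      rw [e, show pp n (s.2.1 :: P) = insert (f n s.2.1) (pp n P) by simp [pp]]
      refine .attach _ _ _ _ b (mp h1) (mem_cx.2 ⟨_, h2, subset_rfl⟩) (fun x => c ?_)
        (card_f _ ▸ (hl _ h2).2) h3 (free_ok hG a1 a1 h4)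
      obtain ⟨q, hq, y⟩ := List.mem_map.1 (List.mem_toFinset.1 x)
      exact mem_iff.2 (f_inj (hl _ (hP _ hq)).1 a2 y ▸ hq)

end Pool.Agent.Lib.helper1.LC
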