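import Pool.Agent.Lib.helper1.Cfg

set_option autoImplicit false

namespace Pool.Agent.Lib.helper1.Cfg

/-- the diagonal points of a complete quadrangle span the plane of the quadrangle -/
theorem quad {V : Type} [AddCommGroup V] [Module ℝ V] {S L1 L2 L3 L4 L5 L6 : AffineSubspace ℝ V}
    {A B C D d1 d2 d3 : V}
    (h1 : Module.finrank ℝ L1.direction = 1) (h2 : Module.finrank ℝ L2.direction = 1)
    (h3 : Module.finrank ℝ L3.direction = 1) (h4 : Module.finrank ℝ L4.direction = 1)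
    (h5 : Module.finrank ℝ L5.direction = 1) (h6 : Module.finrank ℝ L6.direction = 1)
    (a1 : A ∈ L1) (b1 : B ∈ L1) (e1 : d1 ∈ L1) (a2 : A ∈ L2) (c2 : C ∈ L2) (e2 : d2 ∈ L2)
    (b3 : B ∈ L3) (c3 : C ∈ L3) (e3 : d3 ∈ L3) (c4 : C ∈ L4) (f4 : D ∈ L4) (e4 : d1 ∈ L4)
    (b5 : B ∈ L5) (f5 : D ∈ L5) (e5 : d2 ∈ L5) (a6 : A ∈ L6) (f6 : D ∈ L6) (e6 : d3 ∈ L6)
    (nAB : A ≠ B) (nAD : A ≠ D) (n1 : A ≠ d1) (n2 : A ≠ d2) (nB2 : B ≠ d2)
    (nC : C ∉ L1) (nD : D ∉ L3) (s1 : d1 ∈ S) (s2 : d2 ∈ S) (s3 : d3 ∈ S) : A ∈ S := by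
  have nAC : A ≠ C := fun h => nC (h ▸ a1)
  have nBC : B ≠ C := fun h => nC (h ▸ b1)
  have nC1 : C ≠ d1 := fun h => nC (h ▸ e1)
  obtain ⟨s, hs⟩ := third h1 nAB a1 b1 e1
  obtain ⟨t, ht⟩ := third h2 nAC a2 c2 e2
  obtain ⟨r, hr⟩ := third h3 nBC b3 c3 e3
  obtain ⟨α, hα⟩ := third h4 nC1 c4 e4 f4
  obtain ⟨β, hβ⟩ := third h5 nB2 b5 e5 f5
  obtain ⟨γ, hγ⟩ := third h6 nAD a6 f6 e6
  obtain ⟨u, rfl⟩ : ∃ u, B = A + u := ⟨B - A, by abel⟩
  obtain ⟨v, rfl⟩ : ∃ v, C = A + v := ⟨C - A, by abel⟩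
  have ind : ∀ a b : ℝ, a • u + b • v = 0 → a = 0 ∧ b = 0 := fun a b h => by
    have hb : b = 0 := by
      by_contra hb
      apply nC
      have := L1.smul_vsub_vadd_mem (-a / b) b1 a1 a1
      have e : (-a / b) • (A + u -ᵥ A) +ᵥ A = A + v := by
        have : v = (1 / b) • (b • v) := by rw [smul_smul, one_div_mul_cancel hb, one_smul]
        rw [this, eq_neg_of_add_eq_zero_right h]
        simp only [vsub_eq_sub, vadd_eq_add]
        match_scalars <;> ring
      rwa [e] at this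
    rw [hb, zero_smul, add_zero, smul_eq_zero] at h
    exact ⟨h.resolve_right fun h => nAB (by rw [h, add_zero]), hb⟩
  have s0 : s ≠ 0 := fun h => n1 (by rw [hs, h, zero_smul, add_zero])
  have t0 : t ≠ 0 := fun h => n2 (by rw [ht, h, zero_smul, add_zero])
  obtain ⟨q1, q2⟩ := ind (α * s - (1 - β)) (1 - α - β * t) (by
    have := sub_eq_zero.2 (hα.symm.trans hβ)
    rw [hs, ht] at this
    rw [← this]
    module)
  obtain ⟨q3, q4⟩ := ind (1 - r - γ * (α * s)) (r - γ * (1 - α)) (by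
    have := sub_eq_zero.2 (hr.symm.trans hγ)
    rw [hα, hs] at this
    rw [← this]
    module)
  have k0 : s * t - (1 - r) * t - r * s ≠ 0 := fun h => by
    apply nD
    have g1 : γ * (α * s + (1 - α)) = 1 := by linarith
    have g2 : s * t * (1 - γ * (α + β)) = 0 := by
      have : 1 - r = γ * (α * s) := by linarith
      have r' : r = γ * (β * t) := by
        have : 1 - α = β * t := by linarith
        rw [← this]; linarith
      rw [this] at h
      rw [r'] at h
      linarith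
    have g3 : γ * (α + β) = 1 := by
      have := (mul_eq_zero.1 g2).resolve_left (mul_ne_zero s0 t0)
      linarith
    have g0 : γ ≠ 0 := fun h => by simp [h] at g3
    have g4 : α * s + (1 - α) = α + β := mul_left_cancel₀ g0 (g1.trans g3.symm)
    have g5 : α * s = α := by linarith
    have := L3.smul_vsub_vadd_mem (1 - α) c3 b3 b3
    have e : (1 - α) • (A + v -ᵥ (A + u)) +ᵥ (A + u) = D := by
      rw [hα, hs]
      simp only [vsub_eq_sub, vadd_eq_add]
      match_scalars <;> linarith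
    rwa [e] at this
  have m1 := S.smul_vsub_vadd_mem (-((1 - r) * t) / (s * t - (1 - r) * t - r * s)) s1 s3 s3
  have m2 := S.smul_vsub_vadd_mem (-(r * s) / (s * t - (1 - r) * t - r * s)) s2 s3 m1
  have e : (-(r * s) / (s * t - (1 - r) * t - r * s)) • (d2 -ᵥ d3) +ᵥ
      ((-((1 - r) * t) / (s * t - (1 - r) * t - r * s)) • (d1 -ᵥ d3) +ᵥ d3) = A := by
    rw [hs, ht, hr]
    simp only [vsub_eq_sub, vadd_eq_add]
    generalize hk : s * t - (1 - r) * t - r * s = k at k0
    match_scalars <;> field_simp <;> rw [← hk] <;> ring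
  rwa [e] at m2

/-- the affine hull of points lying in the span of `k + 1` points has dimension at most `k` -/
theorem hull_le {V ι : Type} [AddCommGroup V] [Module ℝ V] (P : ι → V) {k : ℕ}
    (q : Fin (k + 1) → V) (h : ∀ i, P i ∈ affineSpan ℝ (Set.range q)) :
    Module.finrank ℝ (affineSpan ℝ (Set.range P)).direction ≤ k := by
  have h1 : affineSpan ℝ (Set.range P) ≤ affineSpan ℝ (Set.range q) := by
    rw [affineSpan_le]
    rintro _ ⟨i, rfl⟩
    exact h i
  have h2 := AffineSubspace.direction_le h1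
  rw [direction_affineSpan ℝ (Set.range q)] at h2
  exact (Submodule.finrank_mono h2).trans (finrank_vectorSpan_range_le ℝ q (by simp))

end Pool.Agent.Lib.helper1.Cfg
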