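import Mathlib
import Pool.Agent.Lib.helper3.Rup

set_option autoImplicit false
open Finset Matrix

namespace Pool.Agent.Lib.helper1.Chi
open Pool.Agent.Lib.helper3.Rup

theorem six {n : ℕ} (l : (Fin n → ℝ) →ₗ[ℝ] ℝ) (y : Fin (n + 1) → Fin n → ℝ) :
    ∑ i : Fin (n + 1), (-1) ^ (i : ℕ) * l (y i) * det (of fun j => y (i.succAbove j)) = 0 := by
  have := det_succ_column_zero (of fun i => (Fin.cons (l (y i)) (y i) : Fin (n + 1) → ℝ))
  rw [exists_mulVec_eq_zero_iff.1 ⟨Fin.cons (-1) fun j => l fun k => if j = k then 1 else 0,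
    fun h => by simpa using congrFun h 0, funext fun i => by
      simp [mulVec, dotProduct, Fin.sum_univ_succ, l.pi_apply_eq_sum_univ (y i)]⟩] at this
  exact this.symm

theorem lin {n : ℕ} (M : Matrix (Fin n) (Fin n) ℝ) (j : Fin n) :
    ∃ l : (Fin n → ℝ) →ₗ[ℝ] ℝ, ∀ z, l z = det (M.updateRow j z) :=
  ⟨{ toFun := fun z => det (M.updateRow j z)
     map_add' := det_updateRow_add _ _
     map_smul' := det_updateRow_smul _ _ }, fun _ => rfl⟩

variable (x : ℕ → Fin 5 → ℝ)

def D : List ℕ → ℝ
  | [a, b, c, d, e] => det (of ![x a, x b, x c, x d, x e])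
  | _ => 0

theorem swap (p r : List ℕ) (a b : ℕ) : D x (p ++ a :: b :: r) = -D x (p ++ b :: a :: r) := by
  have k : ∀ (u v : Fin 5 → Fin 5 → ℝ) (i j : Fin 5), i ≠ j → u = v ∘ Equiv.swap i j →
      det (of u) = -det (of v) := fun u v i j h e => by
    have := det_permute (Equiv.swap i j) (of v)
    rw [Equiv.Perm.sign_swap h] at this
    rw [show of u = (of v).submatrix (Equiv.swap i j) id from e, this]
    simp
  match p, r with
  | [], [_, _, _] => exact k _ _ 0 1 (by decide) (funext fun i => by fin_cases i <;> rfl)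
  | [_], [_, _] => exact k _ _ 1 2 (by decide) (funext fun i => by fin_cases i <;> rfl)
  | [_, _], [_] => exact k _ _ 2 3 (by decide) (funext fun i => by fin_cases i <;> rfl)
  | [_, _, _], [] => exact k _ _ 3 4 (by decide) (funext fun i => by fin_cases i <;> rfl)
  | [], [] | [], [_] | [], [_, _] | [], _ :: _ :: _ :: _ :: _ | [_], [] | [_], [_]
  | [_], _ :: _ :: _ :: _ | [_, _], [] | [_, _], _ :: _ :: _ | [_, _, _], _ :: _
  | [_, _, _, _], _ | _ :: _ :: _ :: _ :: _ :: _, _ => simp [D]

theorem gp (s t u a b c d : ℕ) : D x [s, t, u, a, b] * D x [s, t, u, c, d] +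
    D x [s, t, u, a, c] * D x [s, t, u, d, b] + D x [s, t, u, a, d] * D x [s, t, u, b, c] = 0 := by
  obtain ⟨l, e⟩ := lin (of ![x s, x t, x u, x a, 0]) 4
  replace e : ∀ z, l z = det (of ![x s, x t, x u, x a, z]) := fun z => (e z).trans
    (congrArg det (funext fun i => by fin_cases i <;> rfl))
  have := six l ![x s, x t, x u, x b, x c, x d]
  rw [Fin.sum_univ_six] at this
  simp only [e, Matrix.cons_val] at this
  rw [det_zero_of_row_eq (i := 0) (j := 4) (by decide) rfl, det_zero_of_row_eq (i := 1) (j := 4)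
    (M := of ![x s, x t, x u, x a, x t]) (by decide) rfl, det_zero_of_row_eq (i := 2) (j := 4)
    (M := of ![x s, x t, x u, x a, x u]) (by decide) rfl] at this
  rw [show D x [s, t, u, d, b] = -D x [s, t, u, b, d] from swap x [s, t, u] [] d b]
  simp only [D]
  convert neg_eq_zero.2 this using 1
  rw [show (fun j => ![x s, x t, x u, x b, x c, x d] (Fin.succAbove 3 j)) = ![x s, x t, x u, x c, x d]
      from funext fun i => by fin_cases i <;> rfl,
    show (fun j => ![x s, x t, x u, x b, x c, x d] (Fin.succAbove 4 j)) = ![x s, x t, x u, x b, x d]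
      from funext fun i => by fin_cases i <;> rfl,
    show (fun j => ![x s, x t, x u, x b, x c, x d] (Fin.succAbove 5 j)) = ![x s, x t, x u, x b, x c]
      from funext fun i => by fin_cases i <;> rfl]
  norm_num
  ring

theorem side (l : (Fin 5 → ℝ) →ₗ[ℝ] ℝ) {s t u v : ℕ} (a b : ℕ) (h1 : l (x s) = 0) (h2 : l (x t) = 0)
    (h3 : l (x u) = 0) (h4 : l (x v) = 0) :
    l (x a) * D x [s, t, u, v, b] = l (x b) * D x [s, t, u, v, a] := by
  have := six l ![x s, x t, x u, x v, x a, x b]
  rw [Fin.sum_univ_six] at this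
  simp only [Matrix.cons_val, h1, h2, h3, h4] at this
  rw [show (fun j => ![x s, x t, x u, x v, x a, x b] (Fin.succAbove 4 j)) = ![x s, x t, x u, x v, x b]
      from funext fun i => by fin_cases i <;> rfl,
    show (fun j => ![x s, x t, x u, x v, x a, x b] (Fin.succAbove 5 j)) = ![x s, x t, x u, x v, x a]
      from funext fun i => by fin_cases i <;> rfl] at this
  simp only [D]
  norm_num at this
  linarith

def sg (n : Bool) : ℝ := bif n then -1 else 1

theorem sg_xor (a b : Bool) : sg (xor a b) = sg a * sg b := by cases a <;> cases b <;> simp [sg]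

def ins (a : ℕ) : List ℕ → Bool × List ℕ
  | [] => (false, [a])
  | b :: l => bif Nat.ble a b then (false, a :: b :: l) else (!(ins a l).1, b :: (ins a l).2)

def srt : List ℕ → Bool × List ℕ
  | [] => (false, [])
  | a :: l => (xor (srt l).1 (ins a (srt l).2).1, (ins a (srt l).2).2)

theorem ins_ok (a : ℕ) (l : List ℕ) : ∀ p, D x (p ++ a :: l) = sg (ins a l).1 * D x (p ++ (ins a l).2) := by
  induction l with
  | nil => simp [ins, sg]
  | cons b l ih =>
    intro p
    rw [ins]
    cases Nat.ble a b
    · have := ih (p ++ [b])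
      simp only [List.append_assoc, List.singleton_append] at this
      rw [swap, this]
      cases (ins a l).1 <;> simp [sg]
    · simp [sg]

theorem srt_ok (l : List ℕ) : ∀ p, D x (p ++ l) = sg (srt l).1 * D x (p ++ (srt l).2) := by
  induction l with
  | nil => simp [srt, sg]
  | cons a l ih =>
    intro p
    have := ih (p ++ [a])
    simp only [List.append_assoc, List.singleton_append] at this
    rw [this, ins_ok, srt, sg_xor, mul_assoc]

def dec (m : ℕ) : List ℕ := (List.range 16).filter m.testBit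
def msk (l : List ℕ) : ℕ := l.foldr (fun i m => 2 ^ i + m) 0
def val (k : ℕ) : Prop := 0 < sg (Nat.beq (k % 2) 1) * D x (dec (k / 2))

/-- the literal saying that `sg n * D t` is positive (`b = false`) or not (`b = true`). -/
def lit (t : List ℕ) (n b : Bool) : ℕ :=
  bif dec (msk (srt t).2) == (srt t).2 then
    2 * (2 * msk (srt t).2 + (xor n (srt t).1).toNat) + 2 + b.toNat else 0

theorem lit_ok (t : List ℕ) (n b : Bool) (h : 0 < sg n * D x t ↔ b = false) :
    W (val x) (lit t n b) := by
  rw [lit]
  cases e : dec (msk (srt t).2) == (srt t).2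
  · exact (cons_W _).1
  have k : val x (2 * msk (srt t).2 + (xor n (srt t).1).toNat) ↔ 0 < sg n * D x t := by
    have := srt_ok x t []
    simp only [List.nil_append] at this
    rw [val, this, ← mul_assoc, ← sg_xor, show (2 * msk (srt t).2 + (xor n (srt t).1).toNat) / 2 =
      msk (srt t).2 by have := Bool.toNat_le (xor n (srt t).1); omega, eq_of_beq e]
    cases xor n (srt t).1 <;> simp [Nat.add_mod, Nat.beq]
  cases b
  · exact (W_pos _ _).2 (k.2 (h.2 rfl))
  · exact (W_neg _ _).2 fun t => by simpa using h.1 (k.1 t)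

theorem c_ne {t : List ℕ} (h : D x t ≠ 0) : S (W (val x)) (cl [lit t false false, lit t true false]) := by
  rcases h.lt_or_gt with h | h
  · exact S_cl.2 ⟨_, by simp, lit_ok x t true false (by simp [sg, h])⟩
  · exact S_cl.2 ⟨_, by simp, lit_ok x t false false (by simp [sg, h])⟩

theorem c_imp {t u : List ℕ} (n m : Bool) (h : 0 < sg n * D x t → 0 < sg m * D x u) :
    S (W (val x)) (cl [lit t n true, lit u m false]) := by
  by_cases c : 0 < sg n * D x t
  · exact S_cl.2 ⟨_, by simp, lit_ok x u m false (by simp [h c])⟩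
  · exact S_cl.2 ⟨_, by simp, lit_ok x t n true (by simp [c])⟩

theorem c_ex (t : List ℕ) : S (W (val x)) (cl [lit t false true, lit t true true]) := by
  rcases le_total (D x t) 0 with h | h
  · exact S_cl.2 ⟨_, by simp, lit_ok x t false true (by simp [sg, h])⟩
  · exact S_cl.2 ⟨_, by simp, lit_ok x t true true (by simp [sg, h])⟩

theorem c_gp (s t u a b c d : ℕ) (g i j k : Bool) : S (W (val x)) (cl [lit [s, t, u, a, b] i true,
    lit [s, t, u, c, d] (xor i g) true, lit [s, t, u, a, c] (!j) false,
    lit [s, t, u, d, b] (!xor j g) false, lit [s, t, u, a, d] (!k) false,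
    lit [s, t, u, b, c] (!xor k g) false]) := by
  by_contra h
  simp only [S_cl, List.mem_cons, List.not_mem_nil, or_false, exists_eq_or_imp, exists_eq_left,
    not_or] at h
  obtain ⟨h1, h2, h3, h4, h5, h6⟩ := h
  have p : ∀ t n, ¬ W (val x) (lit t n true) → 0 < sg n * D x t := fun t n h =>
    by_contra fun c => h (lit_ok x t n true (by simp [c]))
  have q : ∀ t n, ¬ W (val x) (lit t (!n) false) → 0 ≤ sg n * D x t := fun t n h =>
    not_lt.1 fun c => h (lit_ok x t _ false (by cases n <;> simpa [sg] using c))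
  have e1 := mul_pos (p _ _ h1) (p _ _ h2)
  have e2 := mul_nonneg (q _ _ h3) (q _ _ h4)
  have e3 := mul_nonneg (q _ _ h5) (q _ _ h6)
  have := gp x s t u a b c d
  cases g <;> cases i <;> cases j <;> cases k <;> simp only [sg, Bool.xor_true, Bool.xor_false,
    Bool.not_true, Bool.not_false, cond_true, cond_false] at e1 e2 e3 <;> linarith

end Pool.Agent.Lib.helper1.Chi
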