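import Mathlib
set_option autoImplicit false
open Finset Polynomial
namespace Pool.Agent.Lib.helper1

/-- weights that read off the top coefficient -/
lemma eh_wt {F : Type} [Field F] [DecidableEq F] (A : Finset F) (n : ℕ) (h : A.card = n + 1) :
    ∃ w : F → F, (∀ j < n, ∑ x ∈ A, w x * x ^ j = 0) ∧ ∑ x ∈ A, w x * x ^ n = 1 := by
  have k (j) (hj : j ≤ n) : ∑ x ∈ A, (∏ y ∈ A.erase x, (x - y))⁻¹ * x ^ j = if n = j then 1 else 0 := by
    have := Lagrange.coeff_eq_sum (s := A) (v := id) (Set.injOn_id _) (P := X ^ j) (by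
      rw [degree_X_pow, h]; exact_mod_cast Nat.lt_succ_of_le hj)
    rw [h, Nat.add_sub_cancel, coeff_X_pow] at this
    rw [this]
    exact sum_congr rfl fun x _ => by simp [div_eq_inv_mul]
  exact ⟨fun x => (∏ y ∈ A.erase x, (x - y))⁻¹, fun j hj => by rw [k j hj.le, if_neg (by omega)],
    by rw [k n le_rfl, if_pos rfl]⟩

/-- Erdos-Heilbronn bound for two distinct summands -/
theorem erdos_heilbronn (p : ℕ) [hp : Fact p.Prime] (A D : Finset (ZMod p)) (h : 2 * A.card < p + 4)
    (hD : ∀ x ∈ A, ∀ y ∈ A, x ≠ y → x + y ∉ D) : 2 * A.card + D.card ≤ p + 3 := by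
  by_contra q
  have d1 := card_le_univ D
  rw [ZMod.card] at d1
  obtain ⟨n, hn⟩ : ∃ n, A.card = n + 2 := ⟨A.card - 2, by omega⟩
  obtain ⟨C, c1, -, c2⟩ := exists_subsuperset_card_eq (subset_univ Dᶜ) (n := 2 * n)
    (by rw [card_compl, ZMod.card]; omega) (by rw [card_univ, ZMod.card]; omega)
  obtain ⟨a, ha⟩ : A.Nonempty := card_pos.1 (by omega)
  obtain ⟨w, w1, w2⟩ := eh_wt A (n + 1) hn
  obtain ⟨v, v1, v2⟩ := eh_wt (A.erase a) n (by rw [card_erase_of_mem ha, hn]; rfl)
  obtain ⟨S, hS⟩ : ∃ S : ℕ → ZMod p, ∀ j, ∑ x ∈ A, w x * x ^ j = S j := ⟨_, fun _ => rfl⟩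
  obtain ⟨T, hT⟩ : ∃ T : ℕ → ZMod p, ∀ j, ∑ x ∈ A.erase a, v x * x ^ j = T j := ⟨_, fun _ => rfl⟩
  simp only [hS, hT] at w1 w2 v1 v2
  have e1 (i : ℕ) : ∑ x ∈ A, ∑ y ∈ A.erase a, w x * v y * (x - y) * (x + y) ^ i =
      ∑ j ∈ range (i + 1), (i.choose j : ZMod p) * (S (j + 1) * T (i - j) - S j * T (i - j + 1)) := by
    simp only [← hS, ← hT, sum_mul_sum, ← sum_sub_distrib]
    simp only [mul_sum, add_pow]
    rw [sum_comm (s := range _)]
    refine sum_congr rfl fun x _ => ?_
    rw [sum_comm (s := range _)]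
    exact sum_congr rfl fun y _ => sum_congr rfl fun j _ => by ring
  have z (a b) (h : a < n + 1 ∨ b < n) : S a * T b = 0 :=
    h.elim (fun h => by rw [w1 a h, zero_mul]) fun h => by rw [v1 b h, mul_zero]
  have e2 (i : ℕ) (hi : i < 2 * n) :
      ∑ x ∈ A, ∑ y ∈ A.erase a, w x * v y * (x - y) * (x + y) ^ i = 0 := by
    rw [e1]
    refine sum_eq_zero fun j hj => ?_
    have := mem_range.1 hj
    rw [z _ _ (by omega), z _ _ (by omega), sub_zero, mul_zero]
  have e3 : ∑ x ∈ A, ∑ y ∈ A.erase a, w x * v y * (x - y) * (x + y) ^ (2 * n) =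
      ((2 * n).choose n : ZMod p) - (2 * n).choose (n + 1) := by
    rw [e1]
    simp only [mul_sub, sum_sub_distrib]
    rw [sum_eq_single_of_mem n (mem_range.2 (by omega)) fun j hj e => by
        have := mem_range.1 hj
        rw [z _ _ (by omega), mul_zero],
      sum_eq_single (n + 1) (fun j hj e => by
        have := mem_range.1 hj
        rw [z _ _ (by omega), mul_zero]) fun hj => by
        rw [mem_range] at hj
        rw [Nat.choose_eq_zero_of_lt (by omega), Nat.cast_zero, zero_mul],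
      show 2 * n - n = n by omega, w2, v2]
    rcases n.eq_zero_or_pos with rfl | n0
    · simp
    · rw [show 2 * n - (n + 1) + 1 = n by omega, v2]
      simp
  let g : (ZMod p)[X] := ∏ c ∈ C, (X - Polynomial.C c)
  have g1 : g.Monic := monic_prod_of_monic _ _ fun c _ => monic_X_sub_C c
  have g2 : g.natDegree = 2 * n := by rw [← c2]; exact natDegree_finsetProd_X_sub_C_eq_card _ _
  have e4 : ∑ x ∈ A, ∑ y ∈ A.erase a, w x * v y * (x - y) * g.eval (x + y) = 0 := by
    refine sum_eq_zero fun x hx => sum_eq_zero fun y hy => ?_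
    by_cases e : x = y
    · simp [e]
    · rw [show g.eval (x + y) = 0 from ?_, mul_zero]
      rw [eval_prod]
      exact prod_eq_zero (c1 (mem_compl.2 (hD x hx y (mem_of_mem_erase hy) e))) (by simp)
  have e5 : ∑ x ∈ A, ∑ y ∈ A.erase a, w x * v y * (x - y) * g.eval (x + y) =
      ∑ i ∈ range (2 * n + 1), g.coeff i *
        ∑ x ∈ A, ∑ y ∈ A.erase a, w x * v y * (x - y) * (x + y) ^ i := by
    simp only [eval_eq_sum_range, g2, mul_sum]
    rw [sum_comm (s := range _)]
    refine sum_congr rfl fun x _ => ?_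
    rw [sum_comm (s := range _)]
    exact sum_congr rfl fun y _ => sum_congr rfl fun j _ => by ring
  rw [e5, sum_range_succ, sum_eq_zero fun i hi => by rw [e2 i (mem_range.1 hi), mul_zero], e3,
    ← g2, g1.coeff_natDegree, g2, zero_add, one_mul, sub_eq_zero] at e4
  have e6 := congrArg (Nat.cast : ℕ → ZMod p) (Nat.choose_succ_right_eq (2 * n) n)
  rw [show 2 * n - n = n by omega] at e6
  push_cast at e6
  have e7 : ((2 * n).choose n : ZMod p) = 0 := by linear_combination e6 + (n + 1 : ZMod p) * e4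
  have e8 := ((ZMod.natCast_eq_zero_iff _ _).1 e7).mul_right (n.factorial * (2 * n - n).factorial)
  rw [← mul_assoc, Nat.choose_mul_factorial_mul_factorial (by omega), hp.out.dvd_factorial] at e8
  omega

end Pool.Agent.Lib.helper1
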