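import Pool.Agent.Lib.helper1.Subtree

namespace Pool.Agent.Lib.helper1.EList
open Pool.Agent.Lib.helper1.Subtree

variable {n : ℕ}

noncomputable def has (a b : ℕ) (L : List (Fin n × Fin n)) : Bool :=
  List.rec false (fun e _ ih => Bool.rec ih (Bool.rec ih true (Nat.beq e.2.val b))
    (Nat.beq e.1.val a)) L

lemma has_iff (x y : Fin n) : ∀ L : List (Fin n × Fin n), has x.val y.val L = true ↔ (x, y) ∈ L
  | [] => by simp [has]
  | e :: L => by
    show (Bool.rec (has x.val y.val L) (Bool.rec (has x.val y.val L) true (Nat.beq e.2.val y.val))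
      (Nat.beq e.1.val x.val) : Bool) = true ↔ _
    rw [List.mem_cons, ← has_iff x y L, Prod.ext_iff, Fin.ext_iff, Fin.ext_iff]
    cases h1 : Nat.beq e.1.val x.val <;> cases h2 : Nat.beq e.2.val y.val
    · have := Nat.ne_of_beq_eq_false h1
      simp [Ne.symm this]
    · have := Nat.ne_of_beq_eq_false h1
      simp [Ne.symm this]
    · have := Nat.ne_of_beq_eq_false h2
      simp [Ne.symm this]
    · simp [Nat.eq_of_beq_eq_true h1, Nat.eq_of_beq_eq_true h2]

noncomputable def every {α : Type} (P : α → Bool) (L : List α) : Bool :=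
  List.rec true (fun e _ ih => Bool.rec false ih (P e)) L

lemma every_iff {α : Type} (P : α → Bool) : ∀ L : List α, every P L = true ↔ ∀ e ∈ L, P e = true
  | [] => by simp [every]
  | e :: L => by
    show (Bool.rec false (every P L) (P e) : Bool) = true ↔ _
    rw [List.forall_mem_cons, ← every_iff P L]
    cases P e <;> simp

noncomputable def some {α : Type} (P : α → Bool) (L : List α) : Bool :=
  List.rec false (fun e _ ih => Bool.rec ih true (P e)) L

lemma some_iff {α : Type} (P : α → Bool) : ∀ L : List α, some P L = true ↔ ∃ e ∈ L, P e = true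
  | [] => by simp [some]
  | e :: L => by
    show (Bool.rec (some P L) true (P e) : Bool) = true ↔ _
    rw [List.exists_mem_cons_iff, ← some_iff P L]
    cases P e <;> simp

noncomputable def simple (L : List (Fin n × Fin n)) : Bool :=
  List.rec true (fun e l ih => Bool.rec false (Bool.rec ih false (has e.1.val e.2.val l))
    (Nat.blt e.1.val e.2.val)) L

lemma simple_spec : ∀ L : List (Fin n × Fin n), simple L = true → L.Nodup ∧ ∀ e ∈ L, e.1 < e.2
  | [], _ => by simp
  | e :: L, h => by
    change (Bool.rec false (Bool.rec (simple L) false (has e.1.val e.2.val L))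
      (Nat.blt e.1.val e.2.val) : Bool) = true at h
    cases h1 : Nat.blt e.1.val e.2.val <;> cases h2 : has e.1.val e.2.val L <;>
      simp only [h1, h2] at h <;> try exact absurd h (by decide)
    obtain ⟨h3, h4⟩ := simple_spec L h
    refine ⟨List.nodup_cons.2 ⟨fun h5 => ?_, h3⟩, List.forall_mem_cons.2 ⟨?_, h4⟩⟩
    · rw [(has_iff e.1 e.2 L).2 h5] at h2
      exact absurd h2 (by decide)
    · exact Nat.blt_eq.mp h1

lemma nodup (L : List (Fin n × Fin n)) (h : simple L = true) : (L.map mk).Nodup := by
  obtain ⟨h1, h2⟩ := simple_spec L h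
  refine List.Nodup.map_on ?_ h1
  rintro ⟨a, b⟩ hx ⟨c, d⟩ hy h
  have h3 := h2 _ hx
  have h4 := h2 _ hy
  rcases Sym2.eq_iff.1 h with ⟨h5, h6⟩ | ⟨h5, h6⟩
  · exact Prod.ext h5 h6
  · simp only at h3 h4 h5 h6
    rw [h5, h6] at h3
    exact absurd h3 (lt_asymm h4)

def gr (L : List (Fin n × Fin n)) (h : simple L = true) : SimpleGraph (Fin n) where
  Adj x y := (x, y) ∈ L ∨ (y, x) ∈ L
  symm := ⟨fun _ _ h => h.symm⟩
  loopless := ⟨fun x h' => by
    rcases h' with h' | h' <;> exact lt_irrefl _ ((simple_spec L h).2 _ h')⟩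

lemma conn (L : List (Fin (n + 1) × Fin (n + 1))) (h : simple L = true)
    (h1 : every (fun k => some (fun e => Nat.beq e.2.val (k + 1)) L) (List.range n) = true) :
    (gr L h).Connected := by
  have h2 : ∀ (k : ℕ) (v : Fin (n + 1)), v.val < k → (gr L h).Reachable 0 v := by
    intro k
    induction k with
    | zero => intro v h; omega
    | succ k ih =>
      intro v hv
      rcases Nat.eq_zero_or_pos v.val with h0 | h0
      · rw [show v = 0 from Fin.ext h0]
      · obtain ⟨e, he, h3⟩ := (some_iff _ _).1 ((every_iff _ _).1 h1 (v.val - 1)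
          (List.mem_range.2 (by omega)))
        have h4 := Nat.eq_of_beq_eq_true h3
        have h5 : e.1.val < e.2.val := (simple_spec L h).2 _ he
        have h6 : e.2 = v := Fin.ext (by omega)
        refine (ih e.1 (by omega)).trans (SimpleGraph.Adj.reachable (Or.inl ?_))
        rw [← h6]
        exact he
  exact ⟨fun x y => (h2 _ x (Nat.lt_succ_self _)).symm.trans (h2 _ y (Nat.lt_succ_self _))⟩

end Pool.Agent.Lib.helper1.EList
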