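import Mathlib

set_option autoImplicit false

namespace Pool.Agent.Lib.helper1

open SimpleGraph

variable {W : Type*} [DecidableEq W] {H : SimpleGraph W}

/-- indicator of the edges of a walk -/
def ind {a b : W} (p : H.Walk a b) (x y : W) : ℕ := if s(x, y) ∈ p.edges then 1 else 0

lemma ind_symm {a b : W} (p : H.Walk a b) (x y : W) : ind p x y = ind p y x := by
  simp [ind, Sym2.eq_swap]

lemma ind_le {a b : W} (p : H.Walk a b) (x y : W) : ind p x y ≤ 1 := by
  unfold ind; split_ifs <;> simp

lemma ind_eq_zero {a b : W} (p : H.Walk a b) {x y : W} (h : ¬ H.Adj x y) : ind p x y = 0 := by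
  unfold ind
  rw [if_neg]
  intro he
  exact h (p.adj_of_mem_edges he)

/-- degree condition: if the duplicate-free list `l` contains all neighbours of `v`, exactly two of
the edges from `v` to `l` lie on a Hamiltonian cycle -/
lemma ham_deg {a : W} {p : H.Walk a a} (hp : p.IsHamiltonianCycle) (v : W) (l : List W)
    (hl : l.Nodup) (hall : ∀ w, H.Adj v w → w ∈ l) : (l.map (ind p v)).sum = 2 := by
  have h2 := hp.isCycle.ncard_neighborSet_toSubgraph_eq_two (hp.mem_support v)
  have h3 : p.toSubgraph.neighborSet v = ((l.toFinset.filter (fun w => s(v, w) ∈ p.edges) : Finset W) : Set W) := by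
    ext w
    simp only [Subgraph.mem_neighborSet, Walk.adj_toSubgraph_iff_mem_edges, Finset.coe_filter,
      List.mem_toFinset, Set.mem_ofPred_eq]
    exact ⟨fun h => ⟨hall w (p.adj_of_mem_edges h), h⟩, fun h => h.2⟩
  rw [h3, Set.ncard_coe_finset, Finset.card_filter] at h2
  rw [← h2, List.sum_toFinset _ hl]
  rfl

/-- cut condition: a Hamiltonian cycle has an edge leaving any nonempty proper vertex set -/
lemma ham_cut {a : W} {p : H.Walk a a} (hp : p.IsHamiltonianCycle) (S : Set W) {x y : W}
    (hx : x ∈ S) (hy : y ∉ S) : ∃ u ∈ S, ∃ w, w ∉ S ∧ H.Adj u w ∧ ind p u w = 1 := by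
  by_cases ha : a ∈ S
  · obtain ⟨d, hd, h1, h2⟩ := (p.takeUntil y (hp.mem_support y)).exists_boundary_dart S ha hy
    refine ⟨d.fst, h1, d.snd, h2, d.adj, ?_⟩
    unfold ind
    rw [if_pos]
    have : d.edge ∈ (p.takeUntil y (hp.mem_support y)).edges := List.mem_map_of_mem hd
    exact p.edges_takeUntil_subset_edges _ this
  · obtain ⟨d, hd, h1, h2⟩ := (p.takeUntil x (hp.mem_support x)).exists_boundary_dart Sᶜ ha
      (by simpa using hx)
    refine ⟨d.snd, by simpa using h2, d.fst, h1, d.adj.symm, ?_⟩
    rw [ind_symm]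
    unfold ind
    rw [if_pos]
    have : d.edge ∈ (p.takeUntil x (hp.mem_support x)).edges := List.mem_map_of_mem hd
    exact p.edges_takeUntil_subset_edges _ this

/-- cut condition in list form: if `L` lists all edges leaving `S`, one of them is on the cycle -/
lemma ham_cut_list {a : W} {p : H.Walk a a} (hp : p.IsHamiltonianCycle) (S : W → Bool) {x y : W}
    (hx : S x = true) (hy : S y = false) (L : List (W × W))
    (hL : ∀ u w, S u = true → S w = false → H.Adj u w → (u, w) ∈ L) :
    1 ≤ (L.map (fun e => ind p e.1 e.2)).sum := by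
  obtain ⟨u, hu, w, hw, hadj, h1⟩ := ham_cut hp {z | S z = true} (x := x) (y := y) hx (by simp [hy])
  have hm : (u, w) ∈ L := hL u w hu (by simpa using hw) hadj
  have := List.single_le_sum (l := L.map (fun e => ind p e.1 e.2)) (fun _ _ => Nat.zero_le _)
    (ind p u w) (List.mem_map.mpr ⟨(u, w), hm, rfl⟩)
  omega

/-- a Hamiltonian cycle from a list of vertices -/
lemma isHamiltonian_of_list [Fintype W] (a : W) (l : List W) (hc : (a :: (l ++ [a])).IsChain H.Adj)
    (hnd : (l ++ [a]).Nodup) (hlen : l.length + 1 = Fintype.card W) (h3 : 2 ≤ l.length) :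
    H.IsHamiltonian := by
  intro _
  have hne : (a :: (l ++ [a])) ≠ [] := by simp
  let q := Walk.ofSupport (a :: (l ++ [a])) hne hc
  have hq : q.support = a :: (l ++ [a]) := Walk.support_ofSupport _ _
  have hql : q.length = l.length + 1 := by
    have := Walk.length_ofSupport hne hc
    simpa using this
  let r : H.Walk a a := q.copy (by simp) (by simp)
  have hr : r.support = a :: (l ++ [a]) := by rw [← hq]; exact Walk.support_copy _ _ _
  have hrl : r.length = l.length + 1 := by rw [← hql]; exact Walk.length_copy _ _ _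
  refine ⟨a, r, ?_⟩
  rw [Walk.isHamiltonianCycle_iff_isCycle_and_length_eq]
  refine ⟨?_, by omega⟩
  rw [Walk.isCycle_iff_isPath_tail_and_le_length]
  refine ⟨?_, by omega⟩
  rw [Walk.isPath_def, Walk.support_tail_of_not_nil _ (by rw [Walk.not_nil_iff_lt_length]; omega), hr]
  simpa using hnd

end Pool.Agent.Lib.helper1
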