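import Mathlib
import Pool.Agent.Lib.helper9.BorsukUlam

set_option autoImplicit false

namespace Pool.Agent.Lib.helper1.OddCube

open Finset

variable {κ ρ : Type} [Fintype κ] [DecidableEq κ] [Fintype ρ] [DecidableEq ρ]

/-- `S` is a vertex of the face `X` of the cube. -/
def Comp (X : κ → SignType) (S : Finset κ) : Prop :=
  ∀ i, (X i = 1 → i ∈ S) ∧ (X i = -1 → i ∉ S)

def Le (X T : κ → SignType) : Prop := ∀ i, X i ≠ 0 → X i = T i

def sz (X : κ → SignType) : ℕ := (univ.filter fun i => X i ≠ 0).card

def Pos (P : ρ → Finset κ → Prop) (X : κ → SignType) (v : ρ) : Prop := ∃ S, Comp X S ∧ P v S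

def Q (P : ρ → Finset κ → Prop) (G : (κ → SignType) → ρ → ℝ) (T : κ → SignType) (w : ρ → ℝ) :
    Prop :=
  (∀ v, Pos P T v → 0 ≤ w v) ∧ (∀ v, Pos P (-T) v → w v ≤ 0) ∧
    ∀ l : (κ → SignType) → ℝ, (∀ X, 0 ≤ l X) → (∀ X, l X ≠ 0 → Le X T ∧ sz X < sz T) →
      {X | l X ≠ 0}.ncard < sz T → w + ∑ X, l X • G X ≠ 0

omit [Fintype κ] [DecidableEq κ] in
theorem Le.neg {X T : κ → SignType} (h : Le X T) : Le (-X) (-T) := by
  intro i hi
  simp only [Pi.neg_apply, ne_eq, SignType.neg_eq_zero_iff] at hi
  simp [h i hi]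

omit [DecidableEq κ] in
theorem sz_neg (X : κ → SignType) : sz (-X) = sz X := by
  simp [sz]

omit [Fintype κ] [DecidableEq κ] [Fintype ρ] [DecidableEq ρ] in
theorem Pos.mono {P : ρ → Finset κ → Prop} {X T : κ → SignType} (h : Le X T) {v : ρ}
    (hp : Pos P T v) : Pos P X v := by
  obtain ⟨S, hS, hP⟩ := hp
  refine ⟨S, fun i => ⟨fun e => (hS i).1 ?_, fun e => (hS i).2 ?_⟩, hP⟩
  · rw [← h i (by rw [e]; decide), e]
  · rw [← h i (by rw [e]; decide), e]

omit [Fintype ρ] [DecidableEq ρ] in
theorem Q.neg {P : ρ → Finset κ → Prop} {G : (κ → SignType) → ρ → ℝ}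
    (hG : ∀ X, G (-X) = -G X) {T : κ → SignType} {w : ρ → ℝ} (h : Q P G (-T) w) :
    Q P G T (-w) := by
  refine ⟨fun v hv => ?_, fun v hv => ?_, fun l l0 l1 l2 e => ?_⟩
  · have := h.2.1 v (by simpa using hv)
    simpa using this
  · simpa using h.1 v hv
  · refine h.2.2 (fun X => l (-X)) (fun X => l0 _) (fun X hX => ?_) ?_ ?_
    · have := l1 _ hX
      exact ⟨by simpa using this.1.neg, by simpa [sz_neg] using this.2⟩
    · rw [sz_neg]
      refine lt_of_le_of_lt (le_of_eq ?_) l2
      exact Set.ncard_preimage_of_injective_subset_range (f := fun X : κ → SignType => -X)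
        (s := {X | l X ≠ 0}) neg_injective (by rw [neg_surjective.range_eq]; simp)
    · have e2 : ∑ X, l (-X) • G X = -∑ X, l X • G X := by
        rw [← Equiv.sum_comp (Equiv.neg _), ← sum_neg_distrib]
        simp [hG]
      rw [e2]
      have := congrArg Neg.neg e
      simpa [add_comm] using this

omit [Fintype ρ] [DecidableEq ρ] in
theorem Q.congr {P : ρ → Finset κ → Prop} {G G' : (κ → SignType) → ρ → ℝ}
    {T : κ → SignType} {w : ρ → ℝ} (hG : ∀ X, sz X < sz T → G' X = G X) (h : Q P G T w) :
    Q P G' T w := by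
  refine ⟨h.1, h.2.1, fun l l0 l1 l2 => ?_⟩
  have : ∑ X, l X • G' X = ∑ X, l X • G X := by
    refine sum_congr rfl fun X _ => ?_
    by_cases hX : l X = 0
    · simp [hX]
    · rw [hG X (l1 X hX).2]
  rw [this]
  exact h.2.2 l l0 l1 l2

theorem exQ {P : ρ → Finset κ → Prop} {G : (κ → SignType) → ρ → ℝ}
    (hG : ∀ X, G (-X) = -G X) (hs : ∀ X v, Pos P X v → 0 ≤ G X v) (T : κ → SignType)
    (H : (∃ v, ¬ (Pos P T v ↔ Pos P (-T) v)) ∨
      sz T ≤ {v | ¬ Pos P T v ∧ ¬ Pos P (-T) v}.ncard) : ∃ w, Q P G T w := by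
  classical
  have one : ∀ T v, Pos P T v → ¬ Pos P (-T) v → ∃ w, Q P G T w := by
    intro T v h1 h2
    refine ⟨Pi.single v 1, fun u _ => ?_, fun u hu => ?_, fun l l0 l1 _ e => ?_⟩
    · by_cases h : u = v <;> simp [h]
    · have h : u ≠ v := fun e => h2 (e ▸ hu)
      simp [h]
    · have := congrFun e v
      simp only [Pi.add_apply, Pi.single_eq_same, Finset.sum_apply, Pi.smul_apply, smul_eq_mul,
        Pi.zero_apply] at this
      have h3 : 0 ≤ ∑ X, l X * G X v := by
        refine sum_nonneg fun X _ => ?_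
        by_cases hX : l X = 0
        · simp [hX]
        · exact mul_nonneg (l0 X) (hs X v (h1.mono (l1 X hX).1))
      linarith
  rcases H with ⟨v, hv⟩ | H
  · by_cases h1 : Pos P T v
    · exact one T v h1 fun h2 => hv ⟨fun _ => h2, fun _ => h1⟩
    · have h2 : Pos P (-T) v := by tauto
      obtain ⟨w, hw⟩ := one (-T) v h2 (by simpa using h1)
      exact ⟨_, hw.neg hG⟩
  · let F := {v // ¬ Pos P T v ∧ ¬ Pos P (-T) v}
    have hF : sz T ≤ Module.finrank ℝ (F → ℝ) := by
      rw [Module.finrank_fintype_fun_eq_card, ← Nat.card_eq_fintype_card]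
      exact H
    let r : (κ → SignType) → F → ℝ := fun X v => G X v.1
    obtain ⟨x, hx⟩ := Submodule.exists_forall_notMem_of_forall_ne_top
      (fun c : {c : Finset (κ → SignType) // c.card < sz T} =>
        Submodule.span ℝ ((c.1.image r : Finset _) : Set (F → ℝ))) fun c e => by
        have h1 := finrank_span_finset_le_card (R := ℝ) (c.1.image r)
        rw [Set.finrank, e, finrank_top] at h1
        have := card_image_le (s := c.1) (f := r)
        have := c.2
        omega
    refine ⟨fun v => if h : ¬ Pos P T v ∧ ¬ Pos P (-T) v then x ⟨v, h⟩ else 0,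
      fun v hv => by simp [hv], fun v hv => by simp [hv], fun l _ _ l2 e => ?_⟩
    refine hx ⟨univ.filter fun X => l X ≠ 0, ?_⟩ ?_
    · rw [← Set.ncard_coe_finset]
      simpa using l2
    · have : x = -∑ X, l X • r X := by
        funext v
        have := congrFun e v.1
        simp only [Pi.add_apply, dif_pos v.2, Finset.sum_apply, Pi.smul_apply, smul_eq_mul,
          Pi.zero_apply] at this
        simp only [Pi.neg_apply, Finset.sum_apply, Pi.smul_apply, smul_eq_mul, r]
        linarith
      rw [this]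
      refine Submodule.neg_mem _ (Submodule.sum_mem _ fun X _ => ?_)
      by_cases hX : l X = 0
      · simp [hX]
      · exact Submodule.smul_mem _ _ (Submodule.subset_span (by simpa using ⟨X, hX, rfl⟩))

theorem exG {P : ρ → Finset κ → Prop}
    (H : ∀ T : κ → SignType, T ≠ 0 → (∃ v, ¬ (Pos P T v ↔ Pos P (-T) v)) ∨
      sz T ≤ {v | ¬ Pos P T v ∧ ¬ Pos P (-T) v}.ncard) (s : ℕ) :
    ∃ G : (κ → SignType) → ρ → ℝ, (∀ X, G (-X) = -G X) ∧ (∀ X v, Pos P X v → 0 ≤ G X v) ∧
      ∀ T, T ≠ 0 → sz T ≤ s → Q P G T (G T) := by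
  classical
  have hz : ∀ T : κ → SignType, T ≠ 0 → sz T ≠ 0 := by
    intro T hT e
    apply hT
    funext i
    simpa using filter_eq_empty_iff.1 (card_eq_zero.1 e) (mem_univ i)
  induction s with
  | zero => exact ⟨0, by simp, by simp, fun T hT h => absurd (by omega) (hz T hT)⟩
  | succ s ih =>
    obtain ⟨G, g1, g2, g3⟩ := ih
    choose! w hw using fun T hT => exQ g1 g2 T (H T hT)
    let f := Fintype.equivFin (κ → SignType)
    let u : (κ → SignType) → ρ → ℝ := fun T => if f T < f (-T) then w T else -w (-T)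
    have hu : ∀ T, T ≠ 0 → Q P G T (u T) := by
      intro T hT
      simp only [u]
      split_ifs
      · exact hw T hT
      · exact (hw _ (fun e => hT (funext fun i => by simpa using congrFun e i))).neg g1
    have h0 : ∀ T : κ → SignType, sz T = s + 1 → T ≠ 0 := by
      rintro T hT rfl
      simp [sz] at hT
    refine ⟨fun T => if sz T = s + 1 then u T else G T, fun X => ?_, fun X v hv => ?_,
      fun T hT h => ?_⟩
    · simp only [sz_neg]
      split_ifs with h
      · have hne : f X ≠ f (-X) := fun e => h0 X h (funext fun i => by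
          have := congrFun (f.injective e) i
          revert this
          simp only [Pi.neg_apply, Pi.zero_apply]
          rcases X i with _ | _ | _ <;> decide)
        simp only [u, neg_neg]
        rcases lt_or_gt_of_ne hne with c | c
        · simp [c, not_lt.2 c.le]
        · simp [c, not_lt.2 c.le]
      · exact g1 X
    · beta_reduce
      split_ifs with h
      · exact (hu X (h0 X h)).1 v hv
      · exact g2 X v hv
    · refine Q.congr (G := G) (fun X hX => if_neg (by omega)) ?_
      beta_reduce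
      split_ifs with h'
      · exact hu T hT
      · exact g3 T hT (by omega)

/-- weight of the face `X` at the point `y`. -/
noncomputable def lam (X : κ → SignType) (y : κ → ℝ) : ℝ :=
  ∏ i, if X i = 0 then 1 else
    max ((X i : ℝ) * y i) 0 * ∏ k, if X k = 0 then max ((X i : ℝ) * y i - |y k|) 0 else 1

omit [DecidableEq κ] in
theorem lam_nonneg (X : κ → SignType) (y : κ → ℝ) : 0 ≤ lam X y := by
  refine prod_nonneg fun i _ => ?_
  split_ifs
  · exact zero_le_one
  · refine mul_nonneg (le_max_right _ _) (prod_nonneg fun k _ => ?_)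
    split_ifs
    · exact le_max_right _ _
    · exact zero_le_one

omit [DecidableEq κ] in
theorem lam_ne (X : κ → SignType) (y : κ → ℝ) : lam X y ≠ 0 ↔
    ∀ i, X i ≠ 0 → 0 < (X i : ℝ) * y i ∧ ∀ k, X k = 0 → |y k| < (X i : ℝ) * y i := by
  have m : ∀ a : ℝ, max a 0 ≠ 0 ↔ 0 < a := fun a => by
    rcases le_or_gt a 0 with h | h
    · simp [h, not_lt.2 h]
    · simp [h, h.le, h.ne']
  simp only [lam, prod_ne_zero_iff, mem_univ, forall_true_left]
  refine forall_congr' fun i => ?_
  by_cases h : X i = 0
  · simp [h]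
  · rw [if_neg h, mul_ne_zero_iff, m, prod_ne_zero_iff]
    simp only [mem_univ, forall_true_left, ne_eq, h, not_false_eq_true]
    refine and_congr_right fun _ => forall_congr' fun k => ?_
    by_cases hk : X k = 0
    · rw [if_pos hk]
      have := m ((X i : ℝ) * y i - |y k|)
      simp only [ne_eq, sub_pos] at this
      simp only [this, hk, forall_true_left]
    · simp [hk]

omit [DecidableEq κ] in
theorem lam_neg (X : κ → SignType) (y : κ → ℝ) : lam (-X) (-y) = lam X y := by
  simp [lam]

omit [DecidableEq κ] in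
theorem lam_cont (X : κ → SignType) : Continuous (lam X) := by
  refine continuous_finsetProd _ fun i _ => ?_
  split_ifs
  · exact continuous_const
  · refine Continuous.mul (by fun_prop) (continuous_finsetProd _ fun k _ => ?_)
    split_ifs
    · fun_prop
    · exact continuous_const

theorem sg {x : SignType} {y : ℝ} (h : 0 < (x : ℝ) * y) :
    x = SignType.sign y ∧ (x : ℝ) * y = |y| := by
  rcases x with _ | _ | _
  · simp at h
  · have : y < 0 := by simpa using h
    simp [sign_neg this, abs_of_neg this]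
  · have : 0 < y := by simpa using h
    simp [sign_pos this, abs_of_pos this]

/-- main lemma: odd labels on the cube. -/
theorem main {P : ρ → Finset κ → Prop} (hc : Fintype.card ρ < Fintype.card κ)
    (H : ∀ T : κ → SignType, T ≠ 0 → (∃ v, ¬ (Pos P T v ↔ Pos P (-T) v)) ∨
      sz T ≤ {v | ¬ Pos P T v ∧ ¬ Pos P (-T) v}.ncard) : False := by
  classical
  obtain ⟨G, g1, -, g3⟩ := exG H (Fintype.card κ)
  obtain ⟨y, hy, e⟩ := helper9.BorsukUlam.borsuk_ulam (E := κ → ℝ) (F := ρ → ℝ)
    (Or.inr (by simpa using hc)) (fun y => ∑ X, lam X y • G X)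
    (continuous_finsetSum _ fun X _ => (lam_cont X).smul continuous_const).continuousOn
    fun y _ => by
      rw [← Equiv.sum_comp (Equiv.neg _), ← sum_neg_distrib]
      simp [g1, lam_neg]
  let T : κ → SignType := fun i => SignType.sign (y i)
  have hT : T ≠ 0 := by
    intro h
    have : y = 0 := funext fun i => by simpa [T] using congrFun h i
    simp [this] at hy
  have lT : lam T y ≠ 0 := by
    rw [lam_ne]
    intro i hi
    have h1 : 0 < (T i : ℝ) * y i := by
      simp only [T, sign_mul_self]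
      simpa [T] using hi
    refine ⟨h1, fun k hk => ?_⟩
    have : y k = 0 := by simpa [T] using hk
    simpa [this] using h1
  have G0 : G 0 = 0 := by
    have := g1 0
    rw [neg_zero] at this
    funext v
    have := congrFun this v
    simp only [Pi.neg_apply, Pi.zero_apply] at this ⊢
    linarith
  have hle : ∀ X, lam X y ≠ 0 → Le X T := fun X hX i hi => (sg ((lam_ne X y).1 hX i hi).1).1
  have hinj : ∀ X X', lam X y ≠ 0 → lam X' y ≠ 0 → sz X' ≤ sz X → Le X X' → X = X' := by
    intro X X' _ _ h1 h2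
    have : (univ.filter fun i => X i ≠ 0) = univ.filter fun i => X' i ≠ 0 :=
      eq_of_subset_of_card_le (fun i hi => by
        simp only [mem_filter, mem_univ, true_and] at hi ⊢
        rw [← h2 i hi]; exact hi) h1
    funext i
    by_cases hi : X i = 0
    · have h3 : i ∉ univ.filter fun i => X' i ≠ 0 := by rw [← this]; simp [hi]
      simp only [mem_filter, mem_univ, true_and, not_not] at h3
      rw [hi, h3]
    · exact h2 i hi
  have hch : ∀ X X', lam X y ≠ 0 → lam X' y ≠ 0 → Le X X' ∨ Le X' X := by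
    intro X X' hX hX'
    by_contra hcon
    simp only [Le, not_or, not_forall] at hcon
    obtain ⟨⟨i, hi, hi'⟩, ⟨k, hk, hk'⟩⟩ := hcon
    have a1 : X' i = 0 := by
      by_contra h
      exact hi' ((hle X hX i hi).trans (hle X' hX' i h).symm)
    have a2 : X k = 0 := by
      by_contra h
      exact hk' ((hle X' hX' k hk).trans (hle X hX k h).symm)
    have b1 := (lam_ne X y).1 hX i hi
    have b2 := (lam_ne X' y).1 hX' k hk
    have c1 := b1.2 k a2
    have c2 := b2.2 i a1
    rw [(sg b1.1).2] at c1
    rw [(sg b2.1).2] at c2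
    linarith
  let l : (κ → SignType) → ℝ := fun X => if X = T ∨ X = 0 then 0 else lam X y / lam T y
  have hl : ∀ X, l X ≠ 0 → X ≠ T ∧ X ≠ 0 ∧ lam X y ≠ 0 := by
    intro X hX
    simp only [l] at hX
    split_ifs at hX with h
    · exact absurd rfl hX
    · exact ⟨fun e => h (Or.inl e), fun e => h (Or.inr e), fun e => hX (by simp [e])⟩
  have hlt : ∀ X, l X ≠ 0 → sz X < sz T := by
    intro X hX
    by_contra h
    exact (hl X hX).1 (hinj X T (hl X hX).2.2 lT (by omega) (hle X (hl X hX).2.2))
  have hz : ∀ T : κ → SignType, T ≠ 0 → sz T ≠ 0 := by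
    intro T hT e
    apply hT
    funext i
    simpa using filter_eq_empty_iff.1 (card_eq_zero.1 e) (mem_univ i)
  refine (g3 T hT (card_le_univ _)).2.2 l (fun X => ?_)
    (fun X hX => ⟨hle X (hl X hX).2.2, hlt X hX⟩) ?_ ?_
  · simp only [l]
    split_ifs
    · exact le_rfl
    · exact div_nonneg (lam_nonneg _ _) (lam_nonneg _ _)
  · have h1 : {X | l X ≠ 0}.ncard ≤ ((Finset.Ico 1 (sz T) : Finset ℕ) : Set ℕ).ncard := by
      refine Set.ncard_le_ncard_of_injOn sz (fun X hX => ?_) fun X hX X' hX' e => ?_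
      · have := hlt X hX
        have := hz X (hl X hX).2.1
        simp only [coe_Ico, Set.mem_Ico]
        omega
      · rcases hch X X' (hl X hX).2.2 (hl X' hX').2.2 with h | h
        · exact hinj X X' (hl X hX).2.2 (hl X' hX').2.2 e.ge h
        · exact (hinj X' X (hl X' hX').2.2 (hl X hX).2.2 e.le h).symm
    rw [Set.ncard_coe_finset, Nat.card_Ico] at h1
    have := hz T hT
    omega
  · have e2 : ∑ X, lam X y • G X = lam T y • (G T + ∑ X, l X • G X) := by
      rw [smul_add, smul_sum, ← add_sum_erase _ _ (mem_univ T),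
        ← add_sum_erase _ (fun X => lam T y • l X • G X) (mem_univ T)]
      simp only [l, true_or, if_true, zero_smul, smul_zero, zero_add]
      congr 1
      refine sum_congr rfl fun X hX => ?_
      by_cases h0 : X = 0
      · simp [h0, G0]
      · rw [if_neg (by simp [h0, ne_of_mem_erase hX]), smul_smul, mul_div_cancel₀ _ lT]
    have e3 : lam T y • (G T + ∑ X, l X • G X) = 0 := e2 ▸ e
    exact (smul_eq_zero.1 e3).resolve_left lT

end Pool.Agent.Lib.helper1.OddCube
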