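import Mathlib
import Pool.Agent.Lib.helper1.OddCube

set_option autoImplicit false

namespace Pool.Agent.Lib.helper1.OddBF

open Finset Pool.Agent.Lib.helper1.OddCube

variable {κ ρ : Type} [Fintype κ] [DecidableEq κ] [Fintype ρ] [DecidableEq ρ]

/-- padded form: some face of the cube has at least as many two-sided labels as free
coordinates, at least one label, and no one-sided label. -/
theorem face (P : ρ → Finset κ → Prop) (hP : ∀ S, ∃ v, P v S ∨ P v Sᶜ) :
    ∃ (N A : Finset κ) (R : Finset ρ), R.Nonempty ∧ N.card ≤ R.card ∧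
      (∀ v ∈ R, (∃ S, S \ N = A \ N ∧ P v S) ∧ ∃ S, S \ N = A \ N ∧ P v Sᶜ) ∧
      ∀ v, v ∉ R → ∀ S, S \ N = A \ N → ¬ P v S ∧ ¬ P v Sᶜ := by
  classical
  by_contra hcon
  let P' : ρ ⊕ κ → Finset (κ ⊕ Option ρ) → Prop := fun v S =>
    match v with
    | Sum.inl u => P u S.toLeft
    | Sum.inr _ => False
  refine main (P := P') (by simp; omega) fun T _ => ?_
  by_contra hH
  simp only [not_or, not_exists, not_not, not_le] at hH
  obtain ⟨h1, h2⟩ := hH
  let N := univ.filter fun i => T (Sum.inl i) = 0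
  let A := univ.filter fun i => T (Sum.inl i) = 1
  have key : ∀ (T : κ ⊕ Option ρ → SignType) (u : ρ), Pos P' T (Sum.inl u) ↔
      ∃ S, (∀ i, (T (Sum.inl i) = 1 → i ∈ S) ∧ (T (Sum.inl i) = -1 → i ∉ S)) ∧ P u S := by
    intro T u
    constructor
    · rintro ⟨S, hS, h⟩
      exact ⟨S.toLeft, fun i => by simpa using hS (Sum.inl i), h⟩
    · rintro ⟨S, hS, h⟩
      refine ⟨S.disjSum (univ.filter fun i => T (Sum.inr i) = 1), ?_, by simpa [P'] using h⟩
      rintro (i | i)
      · simpa using hS i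
      · simp only [inr_mem_disjSum, mem_filter, mem_univ, true_and, imp_self]
        intro e
        rw [e]; decide
  have cmp : ∀ S : Finset κ, S \ N = A \ N ↔
      ∀ i, (T (Sum.inl i) = 1 → i ∈ S) ∧ (T (Sum.inl i) = -1 → i ∉ S) := by
    intro S
    simp only [Finset.ext_iff, mem_sdiff, N, A, mem_filter, mem_univ, true_and]
    refine forall_congr' fun i => ?_
    rcases T (Sum.inl i) with _ | _ | _ <;> simp
  have k1 : ∀ u, Pos P' T (Sum.inl u) ↔ ∃ S, S \ N = A \ N ∧ P u S := by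
    intro u
    simp only [key, cmp]
  have k2 : ∀ u, Pos P' (-T) (Sum.inl u) ↔ ∃ S, S \ N = A \ N ∧ P u Sᶜ := by
    intro u
    simp only [key, cmp, Pi.neg_apply, neg_eq_iff_eq_neg, neg_neg]
    constructor
    · rintro ⟨S, hS, h⟩
      exact ⟨Sᶜ, fun i => by simpa [and_comm] using hS i, by simpa using h⟩
    · rintro ⟨S, hS, h⟩
      exact ⟨Sᶜ, fun i => by simpa [and_comm] using hS i, h⟩
  let R := univ.filter fun u => Pos P' T (Sum.inl u)
  refine hcon ⟨N, A, R, ?_, ?_, fun v hv => ?_, fun v hv S hS => ?_⟩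
  · obtain ⟨v, hv | hv⟩ := hP A
    · exact ⟨v, by simpa [R] using (k1 v).2 ⟨A, rfl, hv⟩⟩
    · exact ⟨v, by simpa [R] using (h1 _).2 ((k2 v).2 ⟨A, rfl, hv⟩)⟩
  · have e1 : {v | ¬ Pos P' T v ∧ ¬ Pos P' (-T) v} =
        (((R.map Function.Embedding.inl)ᶜ : Finset (ρ ⊕ κ)) : Set (ρ ⊕ κ)) := by
      ext v
      rcases v with u | u
      · simp [R, ← h1]
      · simp [Pos, P']
    rw [e1, Set.ncard_coe_finset, card_compl, card_map] at h2
    have e2 := card_filter_add_card_filter_not (s := univ) fun i => T i ≠ 0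
    have e3 : N.card ≤ (univ.filter fun i => ¬ T i ≠ 0).card :=
      card_le_card_of_injOn Sum.inl (fun i hi => by simpa [N] using hi)
        (Sum.inl_injective.injOn)
    have e4 := card_le_univ R
    simp only [card_univ, Fintype.card_sum, Fintype.card_option] at e2 h2
    unfold sz at h2
    omega
  · simp only [R, mem_filter, mem_univ, true_and] at hv
    exact ⟨(k1 v).1 hv, (k2 v).1 ((h1 _).1 hv)⟩
  · simp only [R, mem_filter, mem_univ, true_and] at hv
    exact ⟨fun h => hv ((k1 v).2 ⟨S, hS, h⟩), fun h => hv ((h1 _).2 ((k2 v).2 ⟨S, hS, h⟩))⟩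

/-- Beck-Fiala bound for odd functions with weighted sensitivities. -/
theorem bf (h : ρ → Finset κ → ℝ) (c : ρ → κ → ℝ) (C : ℝ) (hC : 0 ≤ C)
    (hodd : ∀ v S, h v Sᶜ = -h v S) (c0 : ∀ v i, 0 ≤ c v i)
    (hL : ∀ v (N S S' : Finset κ), S \ N = S' \ N → h v S - h v S' ≤ 2 * ∑ i ∈ N, c v i)
    (hcol : ∀ i, ∑ v, c v i ≤ C) : ∃ S, ∀ v, |h v S| ≤ C := by
  by_contra hcon
  push Not at hcon
  obtain ⟨N, A, R, hR, hN, h1, -⟩ := face (fun v S => C < h v S) fun S => by
    obtain ⟨v, hv⟩ := hcon S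
    refine ⟨v, ?_⟩
    rw [hodd]
    exact lt_abs.1 hv
  have h2 : ∑ _v ∈ R, C < ∑ v ∈ R, ∑ i ∈ N, c v i := by
    refine sum_lt_sum_of_nonempty hR fun v hv => ?_
    obtain ⟨⟨S, hS, a⟩, S', hS', b⟩ := h1 v hv
    have := hL v N S S' (hS.trans hS'.symm)
    rw [hodd] at b
    linarith
  have h3 : ∑ v ∈ R, ∑ i ∈ N, c v i ≤ ∑ _i ∈ N, C := by
    rw [sum_comm]
    exact sum_le_sum fun i _ => (sum_le_univ_sum_of_nonneg fun v => c0 v i).trans (hcol i)
  simp only [sum_const, nsmul_eq_mul] at h2 h3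
  have h4 : (N.card : ℝ) ≤ R.card := by exact_mod_cast hN
  nlinarith

omit [Fintype κ] in
theorem lip (f : Finset κ → ℝ) (c : κ → ℝ) (c0 : ∀ g, 0 ≤ c g)
    (hf : ∀ S g, |f (insert g S) - f S| ≤ c g) (N : Finset κ) :
    ∀ S S' : Finset κ, S \ N = S' \ N → |f S - f S'| ≤ ∑ i ∈ N, c i := by
  induction N using Finset.induction_on with
  | empty => intro S S' h; simp only [sdiff_empty] at h; simp [h]
  | insert g N hg ih =>
    intro S S' h
    rw [sum_insert hg]
    have h1 : |f S - f (if g ∈ S' then insert g S else S.erase g)| ≤ c g := by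
      split_ifs
      · rw [abs_sub_comm]; exact hf S g
      · by_cases hS : g ∈ S
        · have := hf (S.erase g) g
          rwa [insert_erase hS] at this
        · simpa [erase_eq_of_notMem hS] using c0 g
    have h2 := ih (if g ∈ S' then insert g S else S.erase g) S' (by
      ext x
      have := Finset.ext_iff.1 h x
      simp only [mem_sdiff, mem_insert, not_or] at this
      by_cases hx : x = g
      · subst hx
        split_ifs with h' <;> simp [h']
      · split_ifs <;> simp only [mem_sdiff, mem_insert, mem_erase] <;> tauto)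
    exact (abs_sub_le _ _ _).trans (add_le_add h1 h2)

end Pool.Agent.Lib.helper1.OddBF
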