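import Mathlib

set_option autoImplicit false

namespace Pool.Agent.Lib.helper1.PolyVdW

open Filter Set Polynomial

section grp
variable {G : Type*} [AddCommGroup G]

/-- syndetic subsets -/
def Syn (V : Set G) : Prop := ∃ F : Finset G, ∀ k : G, ∃ g ∈ F, k + g ∈ V

/-- return set of an ultrafilter -/
def st (p : Ultrafilter G) (A : Set G) : Set G := {a | {b | a + b ∈ A} ∈ p}

def Inv (F : Filter G) : Prop := ∀ A ∈ F, ∀ k : G, {b | k + b ∈ A} ∈ F

theorem exists_max : ∃ F : Filter G, F.NeBot ∧ Inv F ∧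
    ∀ F' : Filter G, F'.NeBot → F' ≤ F → Inv F' → F' = F := by
  let S : Set (Filter G)ᵒᵈ := {F | (OrderDual.ofDual F).NeBot ∧ Inv (OrderDual.ofDual F)}
  have h0 : OrderDual.toDual (⊤ : Filter G) ∈ S := by
    refine ⟨(inferInstance : (⊤ : Filter G).NeBot), ?_⟩
    intro A hA k
    change A ∈ (⊤ : Filter G) at hA
    change _ ∈ (⊤ : Filter G)
    rw [mem_top] at hA ⊢
    simp [hA]
  obtain ⟨m, -, hm⟩ := zorn_le_nonempty₀ S (by
    intro c hc hch y hy
    let c' : Set (Filter G) := OrderDual.ofDual '' c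
    have hne : c'.Nonempty := ⟨_, y, hy, rfl⟩
    have hdir : DirectedOn (· ≥ ·) c' := by
      rintro _ ⟨a, ha, rfl⟩ _ ⟨b, hb, rfl⟩
      rcases hch.total ha hb with h | h
      · exact ⟨_, ⟨b, hb, rfl⟩, h, le_rfl⟩
      · exact ⟨_, ⟨a, ha, rfl⟩, le_rfl, h⟩
    have hmem : ∀ A, A ∈ sInf c' ↔ ∃ F ∈ c', A ∈ F := by
      intro A
      rw [sInf_eq_iInf]
      exact mem_biInf_of_directed (f := fun F : Filter G => F) hdir hne
    refine ⟨OrderDual.toDual (sInf c'), ⟨?_, ?_⟩, ?_⟩
    · change (sInf c').NeBot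
      refine ⟨fun h => ?_⟩
      have : (∅ : Set G) ∈ sInf c' := by rw [h]; exact mem_bot
      obtain ⟨_, ⟨a, ha, rfl⟩, hF⟩ := (hmem _).1 this
      exact (hc ha).1.ne (empty_mem_iff_bot.1 hF)
    · intro A hA k
      change A ∈ sInf c' at hA
      change _ ∈ sInf c'
      obtain ⟨_, ⟨a, ha, rfl⟩, hF⟩ := (hmem _).1 hA
      exact (hmem _).2 ⟨_, ⟨a, ha, rfl⟩, (hc ha).2 A hF k⟩
    · intro z hz
      change sInf c' ≤ OrderDual.ofDual z
      exact sInf_le ⟨z, hz, rfl⟩) _ h0
  refine ⟨OrderDual.ofDual m, hm.1.1, hm.1.2, ?_⟩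
  intro F' h1 h2 h3
  have : OrderDual.toDual F' ∈ S := ⟨h1, h3⟩
  have h4 : OrderDual.toDual F' ≤ m := hm.2 this h2
  exact le_antisymm h2 h4

theorem exists_ur : ∃ p : Ultrafilter G,
    ∀ A : Set G, (st p A).Nonempty → Syn (st p A) := by
  classical
  obtain ⟨F, hne, hinv, hmax⟩ := exists_max (G := G)
  refine ⟨Ultrafilter.of F, ?_⟩
  intro A ⟨a, ha⟩
  by_contra hs
  -- the filter generated by F and all shifts of the complement
  let F' : Filter G :=
    { sets := {B | ∃ H : Finset G, ∃ D ∈ F, ∀ b ∈ D, (∀ g ∈ H, g + b ∉ A) → b ∈ B}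
      univ_sets := ⟨∅, univ, univ_mem, fun _ _ _ => trivial⟩
      sets_of_superset := by
        rintro x y ⟨H, D, hD, h⟩ hxy
        exact ⟨H, D, hD, fun b hb hg => hxy (h b hb hg)⟩
      inter_sets := by
        rintro x y ⟨H, D, hD, h⟩ ⟨H', D', hD', h'⟩
        refine ⟨H ∪ H', D ∩ D', inter_mem hD hD', fun b hb hg => ⟨h b hb.1 ?_, h' b hb.2 ?_⟩⟩
        · exact fun g hg' => hg g (Finset.mem_union_left _ hg')
        · exact fun g hg' => hg g (Finset.mem_union_right _ hg') }
  have hle' : F' ≤ F := fun B hB => ⟨∅, B, hB, fun b hb _ => hb⟩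
  have hinv' : Inv F' := by
    rintro B ⟨H, D, hD, h⟩ k
    refine ⟨H.image (· + k), _, hinv D hD k, fun b hb hg => h _ hb fun g hg' => ?_⟩
    have := hg _ (Finset.mem_image_of_mem _ hg')
    rwa [add_assoc] at this
  have hne' : F'.NeBot := by
    refine ⟨fun h => hs ?_⟩
    have : (∅ : Set G) ∈ F' := by rw [h]; exact mem_bot
    obtain ⟨H, D, hD, h⟩ := this
    refine ⟨H, fun k => ?_⟩
    have h1 : {b | k + b ∈ D} ∈ Ultrafilter.of F := Ultrafilter.of_le F (hinv D hD k)
    have h2 : (⋃ g ∈ (H : Set G), {b | k + g + b ∈ A}) ∈ Ultrafilter.of F := by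
      refine mem_of_superset h1 fun b hb => ?_
      by_contra hc
      refine h _ hb fun g hg hA => hc ?_
      simp only [mem_iUnion]
      exact ⟨g, hg, by simpa [add_comm, add_left_comm] using hA⟩
    rw [Ultrafilter.finite_biUnion_mem_iff H.finite_toSet] at h2
    obtain ⟨g, hg, h3⟩ := h2
    exact ⟨g, hg, h3⟩
  have he := hmax F' hne' hle' hinv'
  have h1 : {b | a + b ∉ A} ∈ F' := ⟨{a}, univ, univ_mem, fun b _ hg => hg a (by simp)⟩
  rw [he] at h1
  have h2 : {b | a + b ∉ A} ∈ Ultrafilter.of F := Ultrafilter.of_le F h1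
  have h3 : {b | a + b ∈ A} ∈ Ultrafilter.of F := ha
  obtain ⟨b, hb1, hb2⟩ := Ultrafilter.nonempty_of_mem (inter_mem h2 h3)
  exact hb1 hb2

/-- an algebra of sets whose nonempty members are syndetic -/
structure Alg (O : Set G → Prop) : Prop where
  univ : O univ
  inter : ∀ V W, O V → O W → O (V ∩ W)
  shift : ∀ V k, O V → O {x | x + k ∈ V}
  syn : ∀ V, O V → V.Nonempty → Syn V

theorem Alg.fin {O : Set G → Prop} (h : Alg O) {α : Type*} (s : Finset α) (W : α → Set G)
    (hW : ∀ a ∈ s, O (W a)) : O {x | ∀ a ∈ s, x ∈ W a} := by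
  classical
  induction s using Finset.induction_on with
  | empty => simpa using h.univ
  | insert a s _ ih =>
    have h1 := h.inter _ _ (hW a (by simp)) (ih fun b hb => hW b (by simp [hb]))
    convert h1 using 1
    ext x; simp

theorem focus {O : Set G → Prop} (h : Alg O) {γ ι : Type*} (C : Finset γ) (K : γ → Set G)
    (hK : ∀ f, O (K f)) (hC : ∀ m, ∃ f ∈ C, m ∈ K f) (E : Finset ι) (P : ι → ℕ → G)
    (hP : ∀ e ∈ E, P e 0 = 0) (R : ℕ → G → Prop)
    (step : ∀ V, O V → V.Nonempty → ∀ N : Finset ℕ, ∃ (n : ℕ) (m : G), (∀ ν ∈ N, R (ν + n) m) ∧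
      ∀ ν ∈ N, ∀ e ∈ E, m + (P e (ν + n) - P e ν) ∈ V) :
    ∃ n m f, f ∈ C ∧ R n m ∧ m ∈ K f ∧ ∀ e ∈ E, m + P e n ∈ K f := by
  classical
  by_contra hc
  have key : ∀ l : ℕ, ∃ S : Finset γ, S ⊆ C ∧ S.card = l ∧ ∃ off : γ → ℕ, ∃ V, O V ∧
      V.Nonempty ∧ ∀ f ∈ S, ∀ m ∈ V, ∀ e ∈ E, m + P e (off f) ∈ K f := by
    intro l
    induction l with
    | zero => exact ⟨∅, by simp, rfl, fun _ => 0, univ, h.univ, ⟨0, trivial⟩, by simp⟩
    | succ l ih =>
      obtain ⟨S, hS, hl, off, V, hV, hne, hoff⟩ := ih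
      obtain ⟨n, m, h1, h2⟩ := step V hV hne (S.image off)
      obtain ⟨f', hf', hm⟩ := hC m
      have hnot : f' ∉ S := by
        intro hf
        refine hc ⟨off f' + n, m, f', hf', h1 _ (Finset.mem_image_of_mem _ hf), hm, ?_⟩
        intro e he
        have := hoff f' hf _ (h2 _ (Finset.mem_image_of_mem _ hf) e he) e he
        convert this using 1
        abel
      refine ⟨insert f' S, Finset.insert_subset hf' hS, by rw [Finset.card_insert_of_notMem hnot, hl],
        fun f => if f = f' then 0 else off f + n,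
        K f' ∩ {x | ∀ a ∈ (S.image off) ×ˢ E, x ∈ {x | x + (P a.2 (a.1 + n) - P a.2 a.1) ∈ V}},
        h.inter _ _ (hK _) (h.fin _ _ fun a _ => h.shift _ _ hV), ⟨m, hm, ?_⟩, ?_⟩
      · intro a ha
        rw [Finset.mem_product] at ha
        exact h2 _ ha.1 _ ha.2
      · intro f hf x hx e he
        by_cases hff : f = f'
        · subst hff
          simpa [hP e he] using hx.1
        · have hfS : f ∈ S := by simpa [hff] using hf
          simp only [hff, if_false]
          have h3 := hx.2 (off f, e) (Finset.mem_product.2 ⟨Finset.mem_image_of_mem _ hfS, he⟩)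
          have := hoff f hfS _ h3 e he
          convert this using 1
          abel
  obtain ⟨S, hS, hl, -⟩ := key (C.card + 1)
  have := Finset.card_le_card hS
  omega

theorem alg_st (p : Ultrafilter G) (hp : ∀ A : Set G, (st p A).Nonempty → Syn (st p A)) :
    Alg (fun V => ∃ A, V = st p A) where
  univ := ⟨univ, (eq_univ_of_forall fun _ => (univ_mem : univ ∈ (p : Filter G))).symm⟩
  inter := by
    rintro _ _ ⟨A, rfl⟩ ⟨B, rfl⟩
    refine ⟨A ∩ B, ?_⟩
    ext x
    exact ⟨fun h => inter_mem h.1 h.2, fun h =>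
      ⟨mem_of_superset h fun _ hb => hb.1, mem_of_superset h fun _ hb => hb.2⟩⟩
  shift := by
    rintro _ k ⟨A, rfl⟩
    refine ⟨{x | x + k ∈ A}, ?_⟩
    ext x
    simp only [st, mem_ofPred_eq, add_right_comm]
  syn := by
    rintro _ ⟨A, rfl⟩ h
    exact hp A h

theorem st_mono {p : Ultrafilter G} {A B : Set G} (h : A ⊆ B) : st p A ⊆ st p B :=
  fun _ ha => mem_of_superset ha fun _ hb => h hb

end grp

section ring
variable {G : Type*} [CommRing G]

/-- the conclusion of the polynomial van der Waerden theorem for a family -/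
def PW (O : Set G → Prop) (S : Finset G[X]) : Prop :=
  ∀ V, O V → V.Nonempty → ∃ n : ℕ, 0 < n ∧ ∃ x ∈ V, ∀ q ∈ S, x + q.eval (n : G) ∈ V

theorem coeff_taylor_of_le (q : G[X]) (r : G) (d : ℕ) (h : q.natDegree ≤ d) :
    (taylor r q).coeff d = q.coeff d := by
  rcases h.eq_or_lt with h | h
  · subst h
    rw [coeff_taylor_natDegree]
    rfl
  · rw [coeff_eq_zero_of_natDegree_lt h,
      coeff_eq_zero_of_natDegree_lt (by rwa [natDegree_taylor])]

theorem pw_aux {O : Set G → Prop} (h : Alg O) (M : Multiset ℕ) :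
    ∀ L : Multiset (ℕ × G), L.map Prod.fst = M → ∀ S : Finset G[X],
      (∀ q ∈ S, q.coeff 0 = 0 ∧ (q = 0 ∨ ∃ z ∈ L, q.natDegree ≤ z.1 ∧ q.coeff z.1 = z.2)) →
      PW O S := by
  classical
  induction M using (WellFounded.cutExpand (wellFounded_lt (α := ℕ))).induction with
  | _ M ih =>
  intro L hL S hS
  by_cases hL0 : L = 0
  · intro V _ ⟨x, hx⟩
    refine ⟨1, one_pos, x, hx, fun q hq => ?_⟩
    rcases (hS q hq).2 with rfl | ⟨z, hz, -⟩
    · simpa using hx
    · simp [hL0] at hz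
  obtain ⟨⟨e, c0⟩, hz0, hmin⟩ := L.toFinset.exists_min_image Prod.fst
    (by simpa [Multiset.toFinset_nonempty] using hL0)
  rw [Multiset.mem_toFinset] at hz0
  obtain ⟨L1, rfl⟩ := Multiset.exists_cons_of_mem hz0
  simp only [Multiset.mem_toFinset] at hmin
  rcases e with _ | e
  · refine ih (L1.map Prod.fst) ⟨0, 0, by simp, ?_⟩ L1 rfl S fun q hq => ⟨(hS q hq).1, ?_⟩
    · rw [← hL, Multiset.map_cons, add_zero, add_comm]
      rfl
    · rcases (hS q hq).2 with h0 | ⟨z, hz, h1, h2⟩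
      · exact Or.inl h0
      · rcases Multiset.mem_cons.1 hz with rfl | hz
        · left
          rw [eq_C_of_natDegree_le_zero h1, (hS q hq).1, C_0]
        · exact Or.inr ⟨z, hz, h1, h2⟩
  intro V hV hne
  obtain ⟨F, hF⟩ := h.syn V hV hne
  have := focus h F (fun f => {x | x + f ∈ V}) (fun f => h.shift _ _ hV) hF (S.filter (· ≠ 0))
    (fun q n => q.eval (n : G)) ?_ (fun n _ => 0 < n) ?_
  · obtain ⟨n, m, f, -, h1, h2, h3⟩ := this
    refine ⟨n, h1, m + f, h2, fun q hq => ?_⟩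
    by_cases hq0 : q = 0
    · subst hq0
      simpa using h2
    · have := h3 q (Finset.mem_filter.2 ⟨hq, hq0⟩)
      change _ ∈ V at this
      rwa [add_right_comm]
  · intro q hq
    simpa [coeff_zero_eq_eval_zero] using (hS q (Finset.mem_filter.1 hq).1).1
  · intro W hW hWne N
    let q0 : G[X] := monomial (e + 1) c0
    let T : G[X] × ℕ → G[X] := fun z => taylor (z.2 : G) z.1 - C (z.1.eval (z.2 : G)) - q0
    let S' : Finset G[X] := ((S.filter (· ≠ 0)) ×ˢ N).image T
    let L' : Multiset (ℕ × G) := L1.map (fun z => (z.1, z.2 - q0.coeff z.1)) +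
      S'.val.map fun q => (e, q.coeff e)
    have hS' : PW O S' := by
      refine ih (L'.map Prod.fst) ⟨S'.val.map fun _ => e, e + 1, fun a' ha' => by
        obtain ⟨_, -, rfl⟩ := Multiset.mem_map.1 ha'
        exact Nat.lt_succ_self _, ?_⟩ L' rfl S' ?_
      · rw [← hL]
        simp only [L', Multiset.map_add, Multiset.map_map, Function.comp_def, Multiset.map_cons]
        rw [← Multiset.singleton_add]
        abel
      · intro q' hq'
        have hq'' := hq'
        obtain ⟨⟨q, ν⟩, hz, rfl⟩ := Finset.mem_image.1 hq'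
        simp only [Finset.mem_product, Finset.mem_filter] at hz
        refine ⟨by simp [T, q0, taylor_coeff_zero, coeff_monomial], Or.inr ?_⟩
        rcases (hS q hz.1.1).2 with h0 | ⟨z, hzL, h1, h2⟩
        · exact absurd h0 hz.1.2
        have hez : e + 1 ≤ z.1 := hmin z hzL
        have hdeg : (T (q, ν)).natDegree ≤ z.1 := by
          refine (natDegree_sub_le _ _).trans (max_le ((natDegree_sub_le _ _).trans
            (max_le (by rwa [natDegree_taylor]) (by simp))) ?_)
          exact (natDegree_monomial_le _).trans hez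
        have hco : (T (q, ν)).coeff z.1 = z.2 - q0.coeff z.1 := by
          simp only [T, coeff_sub, coeff_taylor_of_le q _ _ h1, h2]
          rw [coeff_C_of_ne_zero (by omega), sub_zero]
        rcases Multiset.mem_cons.1 hzL with rfl | hzL
        · refine ⟨(e, (T (q, ν)).coeff e), Multiset.mem_add.2 (Or.inr
            (Multiset.mem_map.2 ⟨_, hq'', rfl⟩)), ?_, rfl⟩
          have h3 : (T (q, ν)).coeff (e + 1) = 0 := by
            rw [hco]
            simp [q0]
          exact natDegree_le_pred hdeg h3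
        · exact ⟨(z.1, z.2 - q0.coeff z.1), Multiset.mem_add.2 (Or.inl
            (Multiset.mem_map.2 ⟨z, hzL, rfl⟩)), hdeg, hco⟩
    obtain ⟨n, hn, x, -, hx⟩ := hS' W hW hWne
    refine ⟨n, x - q0.eval (n : G), fun ν _ => by omega, fun ν hν q hq => ?_⟩
    have := hx _ (Finset.mem_image_of_mem T (show (q, ν) ∈ _ ×ˢ N from
      Finset.mem_product.2 ⟨hq, hν⟩))
    convert this using 1
    simp only [T, eval_sub, eval_C, taylor_eval, Nat.cast_add, add_comm (ν : G)]
    ring

/-- polynomial van der Waerden theorem, relative to an algebra of syndetic sets -/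
theorem pw {O : Set G → Prop} (h : Alg O) (S : Finset G[X]) (hS : ∀ q ∈ S, q.coeff 0 = 0) :
    PW O S := by
  refine pw_aux h _ (S.val.map fun q => (q.natDegree, q.coeff q.natDegree)) rfl S fun q hq =>
    ⟨hS q hq, Or.inr ⟨_, Multiset.mem_map.2 ⟨q, hq, rfl⟩, le_rfl, rfl⟩⟩

end ring

end Pool.Agent.Lib.helper1.PolyVdW
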