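import Mathlib

set_option autoImplicit false

namespace Pool.Agent.Lib.helper1.Rigid2

open Matrix Classical

variable {V : Type} [Fintype V] [DecidableEq V]

/-- pinned rigidity matrix -/
noncomputable def Mx {R : Type} [CommRing R] (G : SimpleGraph V) (a b : V) (m : V × Fin 2 → R) :
    Matrix ((V × V) ⊕ (V × Fin 2)) (V × Fin 2) R := Matrix.of fun r c =>
  match r with
  | Sum.inl (u, w) => if G.Adj u w then
      (if c.1 = u then m (u, c.2) - m (w, c.2) else 0) - (if c.1 = w then m (u, c.2) - m (w, c.2) else 0)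
      else 0
  | Sum.inr c' => if (c'.1 = a ∨ c'.1 = b) ∧ c = c' then 1 else 0

omit [Fintype V] in
lemma Mx_map {R S : Type} [CommRing R] [CommRing S] (φ : R →+* S) (G : SimpleGraph V) (a b : V)
    (m : V × Fin 2 → R) : (Mx G a b m).map φ = Mx G a b (fun c => φ (m c)) := by
  ext r c
  rcases r with ⟨u, w⟩ | c'
  · simp only [Mx, Matrix.map_apply, Matrix.of_apply]
    split_ifs <;> simp
  · simp only [Mx, Matrix.map_apply, Matrix.of_apply]
    split_ifs <;> simp

lemma Mx_mulVec (G : SimpleGraph V) (a b : V) (m d : V × Fin 2 → ℝ) :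
    Mx G a b m *ᵥ d = 0 ↔
      (∀ u w, G.Adj u w → (m (u, 0) - m (w, 0)) * (d (u, 0) - d (w, 0)) +
        (m (u, 1) - m (w, 1)) * (d (u, 1) - d (w, 1)) = 0) ∧
      (∀ i, d (a, i) = 0 ∧ d (b, i) = 0) := by
  have e1 : ∀ u w, (Mx G a b m *ᵥ d) (Sum.inl (u, w)) = if G.Adj u w then
      (m (u, 0) - m (w, 0)) * (d (u, 0) - d (w, 0)) +
        (m (u, 1) - m (w, 1)) * (d (u, 1) - d (w, 1)) else 0 := by
    intro u w
    simp only [Mx, mulVec, dotProduct, Matrix.of_apply]
    split_ifs with h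
    · rw [Fintype.sum_prod_type_right]
      simp only [sub_mul, ite_mul, zero_mul, Finset.sum_sub_distrib, Finset.sum_ite_eq',
        Finset.mem_univ, if_true, Fin.sum_univ_two]
      ring
    · simp
  have e2 : ∀ c, (Mx G a b m *ᵥ d) (Sum.inr c) = if c.1 = a ∨ c.1 = b then d c else 0 := by
    intro c
    simp only [Mx, mulVec, dotProduct, Matrix.of_apply]
    by_cases h : c.1 = a ∨ c.1 = b
    · simp [h]
    · simp [h]
  constructor
  · intro h
    refine ⟨fun u w huw => ?_, fun i => ⟨?_, ?_⟩⟩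
    · have := congrFun h (Sum.inl (u, w)); rwa [e1, if_pos huw] at this
    · have := congrFun h (Sum.inr (a, i)); rwa [e2, if_pos (Or.inl rfl)] at this
    · have := congrFun h (Sum.inr (b, i)); rwa [e2, if_pos (Or.inr rfl)] at this
  · rintro ⟨h1, h2⟩
    funext r
    rcases r with ⟨u, w⟩ | ⟨v, i⟩
    · rw [e1]; split_ifs with h
      · exact h1 u w h
      · rfl
    · rw [e2]; split_ifs with h
      · rcases h with h | h <;> simp only at h <;> subst h
        · exact (h2 i).1
        · exact (h2 i).2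
      · rfl

noncomputable def Gram {R ρ κ : Type} [CommRing R] [Fintype ρ] (M : Matrix ρ κ R) :
    Matrix κ κ R := Mᵀ * M

lemma Gram_map {R S ρ κ : Type} [CommRing R] [CommRing S] [Fintype ρ] (φ : R →+* S)
    (M : Matrix ρ κ R) : (Gram M).map φ = Gram (M.map φ) := by
  unfold Gram
  rw [Matrix.map_mul, Matrix.transpose_map]

noncomputable def DP (G : SimpleGraph V) (a b : V) : MvPolynomial (V × Fin 2) ℚ :=
  (Gram (Mx G a b (fun c => (MvPolynomial.X c : MvPolynomial (V × Fin 2) ℚ)))).det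

lemma DP_eval (G : SimpleGraph V) (a b : V) (m : V × Fin 2 → ℝ) :
    MvPolynomial.aeval m (DP G a b) = (Gram (Mx G a b m)).det := by
  have := RingHom.map_det (MvPolynomial.aeval (R := ℚ) m).toRingHom
    (Gram (Mx G a b (fun c => (MvPolynomial.X c : MvPolynomial (V × Fin 2) ℚ))))
  rw [RingHom.mapMatrix_apply, Gram_map, Mx_map] at this
  simpa [DP] using this

lemma DP_ne (G : SimpleGraph V) (a b : V) (m : V × Fin 2 → ℝ) :
    MvPolynomial.aeval m (DP G a b) ≠ 0 ↔ ∀ d, Mx G a b m *ᵥ d = 0 → d = 0 := by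
  rw [DP_eval]
  constructor
  · intro h d hd
    apply Matrix.eq_zero_of_mulVec_eq_zero h
    rw [Gram, ← Matrix.mulVec_mulVec, hd, Matrix.mulVec_zero]
  · intro h h0
    obtain ⟨v, hv, hv0⟩ := Matrix.exists_mulVec_eq_zero_iff.2 h0
    apply hv (h v _)
    have := (Matrix.conjTranspose_mul_self_mulVec_eq_zero (Mx G a b m) v).1
    rw [Matrix.conjTranspose_eq_transpose_of_trivial] at this
    exact this hv0

abbrev E2 := EuclideanSpace ℝ (Fin 2)

lemma dist_sq (x y : E2) : dist x y ^ 2 = (x 0 - y 0) ^ 2 + (x 1 - y 1) ^ 2 := by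
  rw [EuclideanSpace.dist_eq, Real.sq_sqrt (by positivity)]
  simp [Fin.sum_univ_two, Real.dist_eq, sq_abs]

lemma dist_eq_iff (x y x' y' : E2) : dist x y = dist x' y' ↔
    (x 0 - y 0) ^ 2 + (x 1 - y 1) ^ 2 = (x' 0 - y' 0) ^ 2 + (x' 1 - y' 1) ^ 2 := by
  rw [← dist_sq, ← dist_sq, sq_eq_sq₀ dist_nonneg dist_nonneg]

/-- pinned infinitesimal rigidity implies that every motion is trivial -/
theorem rigid_of_inf (G : SimpleGraph V) (a b : V) (hab : G.Adj a b) (p : V → E2)
    (hp : ∀ d, Mx G a b (fun c => p c.1 c.2) *ᵥ d = 0 → d = 0) (hL : p a ≠ p b)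
    (γ : unitInterval → V → E2) (hγ : Continuous γ) (h0 : γ 0 = p)
    (hd : ∀ t u w, G.Adj u w → dist (γ t u) (γ t w) = dist (p u) (p w)) (t : unitInterval) :
    Congruent (γ t) p := by
  obtain ⟨L, hLd⟩ : ∃ L, L = (p b 0 - p a 0) ^ 2 + (p b 1 - p a 1) ^ 2 := ⟨_, rfl⟩
  have hL0 : L ≠ 0 := by
    rw [hLd, ← dist_sq]; exact pow_ne_zero _ (dist_ne_zero.2 hL.symm)
  let C : unitInterval → ℝ := fun t =>
    ((γ t b 0 - γ t a 0) * (p b 0 - p a 0) + (γ t b 1 - γ t a 1) * (p b 1 - p a 1)) / L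
  let S : unitInterval → ℝ := fun t =>
    ((γ t b 0 - γ t a 0) * (p b 1 - p a 1) - (γ t b 1 - γ t a 1) * (p b 0 - p a 0)) / L
  let z : unitInterval → V × Fin 2 → ℝ := fun t c =>
    if c.2 = 0 then p a 0 + C t * (γ t c.1 0 - γ t a 0) - S t * (γ t c.1 1 - γ t a 1)
    else p a 1 + S t * (γ t c.1 0 - γ t a 0) + C t * (γ t c.1 1 - γ t a 1)
  have hl : ∀ t, (γ t b 0 - γ t a 0) ^ 2 + (γ t b 1 - γ t a 1) ^ 2 = L := fun t => by
    rw [hLd]; exact (dist_eq_iff _ _ _ _).1 (hd t b a hab.symm)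
  have hCS : ∀ t, C t ^ 2 + S t ^ 2 = 1 := fun t => by
    have := hl t
    simp only [C, S]
    field_simp
    rw [show L ^ 2 = L * L by ring]
    nth_rewrite 1 [← this]
    rw [hLd]; ring
  have hz : ∀ t u w, (z t (u, 0) - z t (w, 0)) ^ 2 + (z t (u, 1) - z t (w, 1)) ^ 2 =
      (γ t u 0 - γ t w 0) ^ 2 + (γ t u 1 - γ t w 1) ^ 2 := fun t u w => by
    simp only [z, if_true, one_ne_zero, if_false]
    linear_combination ((γ t u 0 - γ t w 0) ^ 2 + (γ t u 1 - γ t w 1) ^ 2) * hCS t
  have hza : ∀ t i, z t (a, i) = p a i := fun t i => by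
    fin_cases i <;> simp [z]
  have hzb : ∀ t i, z t (b, i) = p b i := fun t i => by
    have := hl t
    fin_cases i
    · simp only [z, C, S, Fin.zero_eta, if_true]
      field_simp
      linear_combination (p b 0 - p a 0) * this
    · simp only [z, C, S, Fin.mk_one, one_ne_zero, if_false]
      field_simp
      linear_combination (p b 1 - p a 1) * this
  have hc : ∀ v i, Continuous fun t => γ t v i := fun v i => by fun_prop
  have hzc : Continuous z := by
    refine continuous_pi fun c => ?_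
    have h1 := hc c.1 0
    have h2 := hc c.1 1
    have h3 := hc a 0
    have h4 := hc a 1
    have h5 := hc b 0
    have h6 := hc b 1
    simp only [z, C, S]
    split_ifs <;> fun_prop
  let p' : V × Fin 2 → ℝ := fun c => p c.1 c.2
  have hz0 : z 0 = p' := by
    funext ⟨v, i⟩
    have e1 : C 0 = 1 := by
      simp only [C, h0]; rw [div_eq_one_iff_eq hL0, hLd]; ring
    have e2 : S 0 = 0 := by
      simp only [S, h0]; rw [div_eq_zero_iff]; left; ring
    fin_cases i <;> simp [z, p', e1, e2, h0]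
  have hD : Continuous fun m : V × Fin 2 → ℝ => MvPolynomial.aeval m (DP G a b) := by
    have : (fun m : V × Fin 2 → ℝ => MvPolynomial.aeval m (DP G a b)) =
        fun m => MvPolynomial.eval m (MvPolynomial.map (algebraMap ℚ ℝ) (DP G a b)) := by
      funext m; rw [MvPolynomial.aeval_def, MvPolynomial.eval₂_eq_eval_map]
    rw [this]; exact MvPolynomial.continuous_eval _
  have hset : {t | z t = p'} = {t | MvPolynomial.aeval (fun c => (z t c + p' c) / 2) (DP G a b) ≠ 0
      ∧ True} := by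
    ext t
    simp only [Set.mem_ofPred_eq, and_true]
    constructor
    · intro h
      rw [h, show (fun c => (p' c + p' c) / 2) = p' by funext c; ring]
      exact (DP_ne G a b _).2 hp
    · intro h
      have := (DP_ne G a b _).1 h (z t - p') ((Mx_mulVec G a b _ _).2 ⟨fun u w huw => ?_, fun i => ?_⟩)
      · exact sub_eq_zero.1 this
      · have e := (hz t u w).trans ((dist_eq_iff _ _ _ _).1 (hd t u w huw))
        simp only [Pi.sub_apply, p']
        linear_combination e / 2
      · simp [p', hza, hzb]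
  have hclopen : IsClopen {t | z t = p'} := by
    refine ⟨isClosed_eq hzc continuous_const, ?_⟩
    rw [hset]
    simp only [and_true]
    exact isOpen_ne_fun (hD.comp (by fun_prop)) continuous_const
  have huniv := hclopen.eq_univ ⟨0, hz0⟩
  have ht : z t = p' := by
    have : t ∈ {t | z t = p'} := by rw [huniv]; trivial
    exact this
  rw [congruent_iff_dist_eq]
  intro u w
  rw [dist_eq_iff, ← hz t u w, ht]

/-- one infinitesimally rigid placement makes every generic placement rigid -/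
theorem generic_rigid (G : SimpleGraph V) (a b : V) (hab : G.Adj a b) (m0 : V × Fin 2 → ℝ)
    (h : ∀ d : V × Fin 2 → ℝ,
      (∀ u w, G.Adj u w → (m0 (u, 0) - m0 (w, 0)) * (d (u, 0) - d (w, 0)) +
        (m0 (u, 1) - m0 (w, 1)) * (d (u, 1) - d (w, 1)) = 0) →
      (∀ i, d (a, i) = 0 ∧ d (b, i) = 0) → d = 0)
    (p : V → E2) (hp : AlgebraicIndependent ℚ (fun c : V × Fin 2 => p c.1 c.2))
    (γ : unitInterval → V → E2) (hγ : Continuous γ) (h0 : γ 0 = p)
    (hd : ∀ t u w, G.Adj u w → dist (γ t u) (γ t w) = dist (p u) (p w)) (t : unitInterval) :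
    Congruent (γ t) p := by
  have h1 : DP G a b ≠ 0 := by
    intro h0
    have := (DP_ne G a b m0).2 fun d hd =>
      h d ((Mx_mulVec G a b _ _).1 hd).1 ((Mx_mulVec G a b _ _).1 hd).2
    rw [h0, map_zero] at this
    exact this rfl
  refine rigid_of_inf G a b hab p ((DP_ne G a b _).1 fun h2 => h1 ?_) ?_ γ hγ h0 hd t
  · exact (algebraicIndependent_iff.1 hp) _ h2
  · intro h2
    have := hp.injective (a₁ := (a, 0)) (a₂ := (b, 0)) (by simp [h2])
    exact hab.ne (congrArg Prod.fst this)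

end Pool.Agent.Lib.helper1.Rigid2
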